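import Mathlib
import Pool.Agent.Y164.SZ.Bon

/-!
# Moments for the prime `2`

The linear functional on polynomials with the values `2 ^ (j (j + 1) / 2)` on
`(x - 1) (x - 2) ⋯ (x - 2 ^ (j - 1))`, its values on the polynomials
`∏_{i = 1}^K (4 ^ i - x) / (4 ^ i - 1)`, and the limit.
-/

set_option autoImplicit false
set_option linter.all false

namespace Pool.Agent.Q269.MF

open Finset Polynomial Filter Topology

/-- the products `∏_{i < j} (X - c i)` -/
noncomputable def pj (j : ℕ) : ℝ[X] := ∏ i ∈ range j, (X - C ((2 : ℝ) ^ i))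

theorem pj_monic (j : ℕ) : (pj j).Monic := monic_prod_of_monic _ _ fun i _ => monic_X_sub_C _

theorem pj_deg (j : ℕ) : (pj j).natDegree = j := by
  rw [pj, natDegree_prod_of_monic _ _ fun i _ => monic_X_sub_C _,
    sum_congr rfl fun i _ => natDegree_X_sub_C _, sum_const, card_range, smul_eq_mul, mul_one]

/-- expansions -/
theorem pj_exp (n : ℕ) : ∀ g : ℝ[X], g.natDegree ≤ n →
    ∃ v : ℕ → ℝ, g = ∑ j ∈ range (n + 1), C (v j) * pj j := by
  induction n with
  | zero =>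
    intro g hg
    refine ⟨fun _ => g.coeff 0, ?_⟩
    rw [eq_C_of_natDegree_le_zero hg]
    simp [pj]
  | succ n ih =>
    intro g hg
    obtain ⟨g', hg'⟩ : ∃ g', g' = g - C (g.coeff (n + 1)) * pj (n + 1) := ⟨_, rfl⟩
    have h1 : g'.natDegree ≤ n := by
      rw [natDegree_le_iff_coeff_eq_zero]
      intro m hm
      rw [hg', coeff_sub, coeff_C_mul]
      rcases Nat.lt_or_ge (n + 1) m with h | h
      · have e1 : g.coeff m = 0 := coeff_eq_zero_of_natDegree_lt (by omega)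
        have e2 : (pj (n + 1)).coeff m = 0 :=
          coeff_eq_zero_of_natDegree_lt (by rw [pj_deg]; exact h)
        rw [e1, e2]
        ring
      · have : m = n + 1 := by omega
        have h2 : (pj (n + 1)).coeff (n + 1) = 1 := by
          have := (pj_monic (n + 1)).coeff_natDegree
          rwa [pj_deg] at this
        rw [this, h2]
        ring
    obtain ⟨v, hv⟩ := ih g' h1
    refine ⟨fun j => if j = n + 1 then g.coeff (n + 1) else v j, ?_⟩
    simp only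
    rw [sum_range_succ, if_pos rfl]
    have h2 : ∑ j ∈ range (n + 1), C (if j = n + 1 then g.coeff (n + 1) else v j) * pj j =
        ∑ j ∈ range (n + 1), C (v j) * pj j := by
      refine sum_congr rfl fun j hj => ?_
      rw [if_neg (by have := mem_range.1 hj; omega)]
    rw [h2, ← hv, hg']
    ring

/-- the sequence of polynomials -/
noncomputable def pS : Polynomial.Sequence ℝ where
  elems' := pj
  degree_eq' := fun i => by
    rw [degree_eq_natDegree (pj_monic i).ne_zero, pj_deg]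

/-- the basis -/
noncomputable def pB : Module.Basis ℕ ℝ ℝ[X] :=
  pS.basis (fun i => by
    have : (pS i).leadingCoeff = 1 := pj_monic i
    rw [this]
    exact isUnit_one)

theorem pB_apply (j : ℕ) : pB j = pj j := by
  rw [pB, Polynomial.Sequence.basis_eq_self]
  rfl

/-- the values of the functional -/
noncomputable def aj (j : ℕ) : ℝ := 2 ^ (j * (j + 1) / 2)

theorem aj_succ (j : ℕ) : aj (j + 1) = 2 ^ (j + 1) * aj j := by
  rw [aj, aj, ← pow_add]
  congr 1
  have h : (j + 1) * (j + 1 + 1) = 2 * (j + 1) + j * (j + 1) := by ring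
  rw [h]
  omega

/-- the functional -/
noncomputable def Lf : ℝ[X] →ₗ[ℝ] ℝ := pB.constr ℝ aj

theorem Lf_pj (j : ℕ) : Lf (pj j) = aj j := by
  rw [Lf, ← pB_apply, Module.Basis.constr_basis]

/-- scaling -/
noncomputable def hs : ℝ[X] →ₗ[ℝ] ℝ[X] where
  toFun := fun g => (X - C 1) * g.comp (C (1 / 2) * X)
  map_add' := fun g g' => by rw [add_comp, mul_add]
  map_smul' := fun c g => by
    rw [smul_comp, RingHom.id_apply, mul_smul_comm]

theorem pj_comp (j : ℕ) : C ((2 : ℝ) ^ j) * (pj j).comp (C (1 / 2) * X) =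
    ∏ i ∈ range j, (X - C ((2 : ℝ) ^ (i + 1))) := by
  rw [pj, Polynomial.prod_comp, C_pow, ← card_range j, ← prod_const, card_range, ← prod_mul_distrib]
  refine prod_congr rfl fun i _ => ?_
  rw [sub_comp, X_comp, C_comp, mul_sub, ← mul_assoc, ← C_mul, ← C_mul]
  have : (2 : ℝ) * (1 / 2) = 1 := by norm_num
  rw [this, C_1, one_mul, ← pow_succ']

theorem hs_pj (j : ℕ) : C ((2 : ℝ) ^ j) * hs (pj j) = pj (j + 1) := by
  show C ((2 : ℝ) ^ j) * ((X - C 1) * (pj j).comp (C (1 / 2) * X)) = _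
  rw [mul_left_comm, pj_comp, pj, prod_range_succ', pow_zero, mul_comm]

theorem Lf_hs (g : ℝ[X]) : Lf (hs g) = 2 * Lf g := by
  have h : Lf ∘ₗ hs = (2 : ℝ) • Lf := by
    apply pB.ext
    intro j
    rw [LinearMap.comp_apply, LinearMap.smul_apply, pB_apply, Lf_pj, smul_eq_mul]
    have h1 := congrArg Lf (hs_pj j)
    rw [← smul_eq_C_mul, map_smul, Lf_pj, smul_eq_mul, aj_succ] at h1
    have h2 : (2 : ℝ) ^ j ≠ 0 := by positivity
    have h3 : (2 : ℝ) ^ j * Lf (hs (pj j)) = 2 ^ j * (2 * aj j) := by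
      rw [h1, pow_succ]; ring
    exact mul_left_cancel₀ h2 h3
  exact congrArg (fun f : ℝ[X] →ₗ[ℝ] ℝ => f g) h

/-- the products -/
noncomputable def Yp (M : ℕ) : ℝ[X] := ∏ i ∈ range M, (X - C ((4 : ℝ) ^ i))

/-- the products -/
noncomputable def Zp (M : ℕ) : ℝ[X] := ∏ i ∈ range M, (X - C (2 * (4 : ℝ) ^ i))

theorem hs_Yp (M : ℕ) : C ((2 : ℝ) ^ M) * hs (Yp M) = (X - C 1) * Zp M := by
  show C ((2 : ℝ) ^ M) * ((X - C 1) * (Yp M).comp (C (1 / 2) * X)) = _
  rw [mul_left_comm]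
  congr 1
  rw [Yp, Zp, Polynomial.prod_comp, C_pow, ← card_range M, ← prod_const, card_range, ← prod_mul_distrib]
  refine prod_congr rfl fun i _ => ?_
  rw [sub_comp, X_comp, C_comp, mul_sub, ← mul_assoc, ← C_mul, ← C_mul]
  have : (2 : ℝ) * (1 / 2) = 1 := by norm_num
  rw [this, C_1, one_mul]

theorem hs_Zp (M : ℕ) : C ((2 : ℝ) ^ M) * hs (Zp M) = Yp (M + 1) := by
  show C ((2 : ℝ) ^ M) * ((X - C 1) * (Zp M).comp (C (1 / 2) * X)) = _
  rw [mul_left_comm, Yp, prod_range_succ', pow_zero, mul_comm]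
  congr 1
  rw [Zp, Polynomial.prod_comp, C_pow, ← card_range M, ← prod_const, card_range, ← prod_mul_distrib]
  refine prod_congr rfl fun i _ => ?_
  rw [sub_comp, X_comp, C_comp, mul_sub, ← mul_assoc, ← C_mul, ← C_mul]
  have : (2 : ℝ) * (1 / 2) = 1 := by norm_num
  rw [this, C_1, one_mul, ← mul_assoc]
  have h4 : (2 : ℝ) * 2 * 4 ^ i = 4 ^ (i + 1) := by rw [pow_succ]; ring
  rw [h4]

theorem Lf_YZ (M : ℕ) : Lf (Zp M) = 1 ∧ Lf (Yp M) = 2 ^ M := by
  induction M with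
  | zero =>
    have h1 : (Zp 0 : ℝ[X]) = pj 0 := by simp [Zp, pj]
    have h2 : (Yp 0 : ℝ[X]) = pj 0 := by simp [Yp, pj]
    rw [h1, h2, Lf_pj]
    simp [aj]
  | succ M ih =>
    obtain ⟨ih1, ih2⟩ := ih
    constructor
    · have h1 : Zp (M + 1) = (X - C 1) * Zp M - C (2 * (4 : ℝ) ^ M - 1) * Zp M := by
        rw [Zp, prod_range_succ, ← Zp, C_sub]
        ring
      have h2 := congrArg Lf (hs_Yp M)
      rw [← smul_eq_C_mul, map_smul, Lf_hs, ih2, smul_eq_mul] at h2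
      rw [h1, map_sub, ← h2, ← smul_eq_C_mul, map_smul, ih1, smul_eq_mul]
      have h4 : (4 : ℝ) ^ M = 2 ^ M * 2 ^ M := by rw [← mul_pow]; norm_num
      rw [h4]
      ring
    · have h2 := congrArg Lf (hs_Zp M)
      rw [← smul_eq_C_mul, map_smul, Lf_hs, ih1, smul_eq_mul] at h2
      rw [← h2, pow_succ]
      ring

/-- expansion of a polynomial function and the value of the functional -/
theorem exp_val (n : ℕ) (g : ℝ[X]) (hg : g.natDegree ≤ n) :
    ∃ v : ℕ → ℝ, (∀ x : ℝ, ∑ j ∈ range (n + 1), v j * ∏ i ∈ range j, (x - (2 : ℝ) ^ i) = g.eval x) ∧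
      ∑ j ∈ range (n + 1), v j * aj j = Lf g := by
  obtain ⟨v, hv⟩ := pj_exp n g hg
  refine ⟨v, fun x => ?_, ?_⟩
  · rw [hv, eval_finset_sum]
    refine sum_congr rfl fun j _ => ?_
    rw [eval_mul, eval_C, pj, eval_prod]
    congr 1
    refine prod_congr rfl fun i _ => ?_
    rw [eval_sub, eval_X, eval_C]
  · rw [hv, map_sum]
    refine sum_congr rfl fun j _ => ?_
    rw [← smul_eq_C_mul, map_smul, Lf_pj, smul_eq_mul]

/-- the polynomial -/
noncomputable def fK (K : ℕ) : ℝ[X] := ∑ j ∈ range (K + 1),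
  C ((-1) ^ j * (4 : ℝ) ^ (j * (j - 1) / 2) / ∏ i ∈ range j, ((4 : ℝ) ^ j - (4 : ℝ) ^ i)) * Yp j

theorem Yp_deg (j : ℕ) : (Yp j).natDegree = j := by
  rw [Yp, natDegree_prod_of_monic _ _ fun i _ => monic_X_sub_C _,
    sum_congr rfl fun i _ => natDegree_X_sub_C _, sum_const, card_range, smul_eq_mul, mul_one]

theorem fK_deg (K : ℕ) : (fK K).natDegree ≤ K := by
  apply natDegree_sum_le_of_forall_le
  intro j hj
  refine (natDegree_C_mul_le _ _).trans ?_
  rw [Yp_deg]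
  have := mem_range.1 hj
  omega

theorem fK_eval (K : ℕ) (x : ℝ) :
    (fK K).eval x = ∏ i ∈ range K, ((4 : ℝ) ^ (i + 1) - x) / ((4 : ℝ) ^ (i + 1) - 1) := by
  rw [← Pool.Agent.Y164.SZ.bon_id (show (1 : ℝ) < 4 by norm_num) x K, fK, eval_finset_sum]
  refine sum_congr rfl fun j _ => ?_
  rw [eval_mul, eval_C, Yp, eval_prod]
  have : ∀ i ∈ range j, (X - C ((4 : ℝ) ^ i)).eval x = x - 4 ^ i := fun i _ => by
    rw [eval_sub, eval_X, eval_C]
  rw [prod_congr rfl this]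
  ring

/-- the coefficients -/
noncomputable def cj (j : ℕ) : ℝ := (∏ i ∈ range j, ((4 : ℝ) ^ (i + 1) - 1))⁻¹

/-- the partial sums -/
noncomputable def gK (K : ℕ) : ℝ := ∑ j ∈ range (K + 1), (-1) ^ j * cj j * 2 ^ j

theorem Lf_fK (K : ℕ) : Lf (fK K) = gK K := by
  rw [fK, map_sum, gK]
  refine sum_congr rfl fun j _ => ?_
  rw [← smul_eq_C_mul, map_smul, (Lf_YZ j).2, smul_eq_mul, Pool.Agent.Y164.SZ.den_eq, cj]
  have h1 : (4 : ℝ) ^ (j * (j - 1) / 2) ≠ 0 := by positivity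
  have h2 : ∏ i ∈ range j, ((4 : ℝ) ^ (i + 1) - 1) ≠ 0 := prod_ne_zero_iff.2 fun i _ =>
    (Pool.Agent.Y164.SZ.pow_sub_one_pos (show (1 : ℝ) < 4 by norm_num) i).ne'
  field_simp

theorem four_ge (j : ℕ) : (3 : ℝ) ≤ 4 ^ (j + 1) - 1 := by
  have : (1 : ℝ) ≤ 4 ^ j := one_le_pow₀ (by norm_num)
  rw [pow_succ]
  linarith

theorem cj_succ (j : ℕ) : cj (j + 1) * ((4 : ℝ) ^ (j + 1) - 1) = cj j := by
  rw [cj, cj, prod_range_succ, mul_inv, mul_assoc, inv_mul_cancel₀ (by have := four_ge j; linarith),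
    mul_one]

theorem cj_bd (j : ℕ) : 0 ≤ cj j ∧ cj j ≤ (1 / 3) ^ j := by
  induction j with
  | zero => simp [cj]
  | succ j ih =>
    have h1 := cj_succ j
    have h2 := four_ge j
    have h3 : 0 ≤ cj (j + 1) := by
      by_contra hneg
      push Not at hneg
      nlinarith [ih.1]
    refine ⟨h3, ?_⟩
    rw [pow_succ]
    nlinarith [ih.2]

/-- the function -/
noncomputable def Ez (z : ℝ) : ℝ := ∑' j : ℕ, (-1) ^ j * cj j * z ^ j

theorem Ez_bd {z : ℝ} (hz : |z| ≤ 2) (j : ℕ) : ‖(-1) ^ j * cj j * z ^ j‖ ≤ (2 / 3 : ℝ) ^ j := by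
  rw [norm_mul, norm_mul, norm_pow, norm_neg, norm_one, one_pow, one_mul, norm_pow, Real.norm_eq_abs,
    Real.norm_eq_abs, abs_of_nonneg (cj_bd j).1]
  calc cj j * |z| ^ j ≤ (1 / 3) ^ j * 2 ^ j :=
        mul_le_mul (cj_bd j).2 (pow_le_pow_left₀ (abs_nonneg _) hz j) (by positivity) (by positivity)
    _ = _ := by rw [← mul_pow]; norm_num

theorem Ez_sum {z : ℝ} (hz : |z| ≤ 2) : Summable fun j : ℕ => (-1) ^ j * cj j * z ^ j :=
  Summable.of_norm_bounded (summable_geometric_of_lt_one (by norm_num) (by norm_num)) (Ez_bd hz)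

theorem Ez_fe {z : ℝ} (hz : |4 * z| ≤ 2) : Ez (4 * z) = (1 - z) * Ez z := by
  have hz' : |z| ≤ 2 := by
    rw [abs_mul] at hz
    have : |(4 : ℝ)| = 4 := abs_of_pos (by norm_num)
    rw [this] at hz
    have := abs_nonneg z
    linarith
  have s1 := Ez_sum hz
  have s2 := Ez_sum hz'
  have h1 : Ez (4 * z) - Ez z = ∑' j : ℕ, ((-1) ^ j * cj j * (4 * z) ^ j -
      (-1) ^ j * cj j * z ^ j) := by
    rw [Ez, Ez, s1.tsum_sub s2]
  have h2 := (s1.sub s2).tsum_eq_zero_add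
  rw [← h1] at h2
  have h3 : ∀ j : ℕ, (-1) ^ (j + 1) * cj (j + 1) * (4 * z) ^ (j + 1) -
      (-1) ^ (j + 1) * cj (j + 1) * z ^ (j + 1) = - z * ((-1) ^ j * cj j * z ^ j) := by
    intro j
    rw [← cj_succ j, mul_pow]
    ring
  simp only [h3, pow_zero, sub_self, zero_add] at h2
  rw [tsum_mul_left] at h2
  have h4 : Ez z = ∑' j : ℕ, (-1) ^ j * cj j * z ^ j := rfl
  rw [← h4] at h2
  linarith

theorem Ez_near {z : ℝ} (h0 : 0 ≤ z) (hz : z ≤ 2) : |Ez z - 1| ≤ z := by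
  have hz' : |z| ≤ 2 := by rw [abs_of_nonneg h0]; exact hz
  have s := Ez_sum hz'
  have h2 := s.tsum_eq_zero_add
  have h3 : Ez z - 1 = ∑' j : ℕ, (-1) ^ (j + 1) * cj (j + 1) * z ^ (j + 1) := by
    have h4 : Ez z = ∑' j : ℕ, (-1) ^ j * cj j * z ^ j := rfl
    rw [h4, h2]
    have : (-1 : ℝ) ^ 0 * cj 0 * z ^ 0 = 1 := by simp [cj]
    rw [this]
    ring
  rw [h3, ← Real.norm_eq_abs]
  have hg : HasSum (fun j : ℕ => (z / 3) * (2 / 3 : ℝ) ^ j) ((z / 3) * (1 - 2 / 3)⁻¹) :=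
    (hasSum_geometric_of_lt_one (by norm_num) (by norm_num)).mul_left _
  have h5 := tsum_of_norm_bounded hg (f := fun j : ℕ => (-1) ^ (j + 1) * cj (j + 1) * z ^ (j + 1))
    (fun j => by
      rw [norm_mul, norm_mul, norm_pow, norm_neg, norm_one, one_pow, one_mul, norm_pow,
        Real.norm_eq_abs, Real.norm_eq_abs, abs_of_nonneg (cj_bd _).1, abs_of_nonneg h0]
      calc cj (j + 1) * z ^ (j + 1) ≤ (1 / 3) ^ (j + 1) * z ^ (j + 1) :=
            mul_le_mul_of_nonneg_right (cj_bd _).2 (by positivity)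
        _ = (z / 3) * (z / 3) ^ j := by rw [← mul_pow, pow_succ]; ring
        _ ≤ (z / 3) * (2 / 3) ^ j := by
            apply mul_le_mul_of_nonneg_left _ (by positivity)
            apply pow_le_pow_left₀ (by positivity)
            linarith)
  refine h5.trans (le_of_eq ?_)
  norm_num

theorem Ez_iter (n : ℕ) : Ez 2 = (∏ i ∈ range n, (1 + -((1 / 2 : ℝ) ^ (2 * i + 1)))) *
    Ez (2 / 4 ^ n) := by
  induction n with
  | zero => simp
  | succ n ih =>
    rw [ih, prod_range_succ]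
    have h1 : (2 : ℝ) / 4 ^ n = 4 * (2 / 4 ^ (n + 1)) := by
      rw [pow_succ]
      have : (4 : ℝ) ^ n ≠ 0 := by positivity
      field_simp
    have h3 : |4 * ((2 : ℝ) / 4 ^ (n + 1))| ≤ 2 := by
      rw [← h1, abs_of_nonneg (by positivity)]
      apply div_le_self (by norm_num)
      exact one_le_pow₀ (by norm_num)
    rw [h1, Ez_fe h3]
    have h2 : (2 : ℝ) / 4 ^ (n + 1) = (1 / 2) ^ (2 * n + 1) := by
      have h4 : (4 : ℝ) ^ (n + 1) = 2 ^ (2 * n + 1) * 2 := by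
        rw [← pow_succ]
        have : 2 * n + 1 + 1 = 2 * (n + 1) := by ring
        rw [this, pow_mul]
        norm_num
      rw [h4, one_div_pow]
      have : (2 : ℝ) ^ (2 * n + 1) ≠ 0 := by positivity
      field_simp
    rw [h2]
    ring

/-- the constant -/
noncomputable def bet : ℝ := ∏' i : ℕ, (1 - (1 / 2 : ℝ) ^ (2 * i + 1))

theorem bet_eq : bet = Ez 2 := by
  have hs : Summable fun i : ℕ => ‖-((1 / 2 : ℝ) ^ (2 * i + 1))‖ := by
    have h1 : ∀ i : ℕ, ‖-((1 / 2 : ℝ) ^ (2 * i + 1))‖ = (1 / 2) * (1 / 4) ^ i := by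
      intro i
      rw [norm_neg, norm_pow, Real.norm_eq_abs, abs_of_pos (by norm_num), pow_succ, pow_mul]
      norm_num
      ring
    simp only [h1]
    exact (summable_geometric_of_lt_one (by norm_num) (by norm_num)).mul_left _
  have hm : Multipliable fun i : ℕ => 1 + -((1 / 2 : ℝ) ^ (2 * i + 1)) :=
    multipliable_one_add_of_summable hs
  have h1 := hm.hasProd.tendsto_prod_nat
  have h2 : bet = ∏' i : ℕ, (1 + -((1 / 2 : ℝ) ^ (2 * i + 1))) := by
    rw [bet]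
    exact tprod_congr fun i => by ring
  have h3 : Tendsto (fun n : ℕ => Ez (2 / 4 ^ n)) atTop (𝓝 1) := by
    rw [tendsto_iff_norm_sub_tendsto_zero]
    have h4 : Tendsto (fun n : ℕ => (2 : ℝ) / 4 ^ n) atTop (𝓝 0) := by
      have h5 : Tendsto (fun n : ℕ => 2 * (1 / 4 : ℝ) ^ n) atTop (𝓝 (2 * 0)) :=
        (tendsto_pow_atTop_nhds_zero_of_lt_one (by norm_num) (by norm_num)).const_mul 2
      rw [mul_zero] at h5
      refine h5.congr fun n => ?_
      rw [one_div_pow]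
      ring
    refine squeeze_zero (fun n => norm_nonneg _) (fun n => ?_) h4
    rw [Real.norm_eq_abs]
    apply Ez_near (by positivity)
    apply div_le_self (by norm_num)
    exact one_le_pow₀ (by norm_num)
  have h4 := h1.mul h3
  rw [mul_one] at h4
  have h5 : Tendsto (fun _ : ℕ => Ez 2) atTop
      (𝓝 (∏' i : ℕ, (1 + -((1 / 2 : ℝ) ^ (2 * i + 1))))) := by
    refine h4.congr fun n => ?_
    exact (Ez_iter n).symm
  rw [h2]
  exact tendsto_nhds_unique h5 tendsto_const_nhds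

theorem gK_tendsto : Tendsto gK atTop (𝓝 bet) := by
  rw [bet_eq]
  have h1 := (Ez_sum (z := 2) (by rw [abs_of_pos (by norm_num)])).hasSum.tendsto_sum_nat
  exact h1.comp (tendsto_add_atTop_nat 1)

end Pool.Agent.Q269.MF
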