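import Pool.Agent.Q269.MF.Odd
import Pool.Agent.Q269.MF.Fo

/-!
# The constants for the prime `2`
-/

set_option autoImplicit false
set_option linter.all false

namespace Pool.Agent.Q269.MF

open Finset Filter Topology
open scoped Classical

section avg

/-- half of the functions have an even sum -/
theorem sum_par {τ : Type} [Fintype τ] [Nonempty τ] (F : ZMod 2 → ℝ) :
    ∑ σ : τ → ZMod 2, F (∑ s, σ s) = (2 : ℝ) ^ Fintype.card τ * ((F 0 + F 1) / 2) := by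
  obtain ⟨s0⟩ := ‹Nonempty τ›
  have h1 : ∑ σ : τ → ZMod 2, F (∑ s, σ s) = ∑ σ : τ → ZMod 2, F (∑ s, σ s + 1) := by
    rw [← Equiv.sum_comp (Equiv.addRight (Pi.single s0 (1 : ZMod 2)))]
    refine sum_congr rfl fun σ _ => ?_
    congr 1
    rw [Equiv.coe_addRight]
    simp only [Pi.add_apply, sum_add_distrib]
    congr 1
    rw [Finset.sum_pi_single']
    simp
  have h2 : ∀ x : ZMod 2, F x + F (x + 1) = F 0 + F 1 := by
    intro x
    rcases Pool.Agent.Y164.HG.F2_cases x with rfl | rfl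
    · rw [zero_add]
    · have : (1 : ZMod 2) + 1 = 0 := by decide
      rw [this, add_comm]
  have h3 : ∑ σ : τ → ZMod 2, (F (∑ s, σ s) + F (∑ s, σ s + 1)) =
      ∑ σ : τ → ZMod 2, (F 0 + F 1) := sum_congr rfl fun σ _ => h2 _
  rw [sum_add_distrib, ← h1, sum_const, card_univ, Fintype.card_fun, ZMod.card, nsmul_eq_mul] at h3
  push_cast at h3
  linarith

variable {R : Type} [Fintype R] [DecidableEq R] {τ : R → Type} [∀ r, Fintype (τ r)]
  [∀ r, Nonempty (τ r)]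

/-- averages of products -/
theorem avg_prod (F : R → ZMod 2 → ℝ) :
    (∑ σ : (Σ r, τ r) → ZMod 2, ∏ r, F r (∑ s, σ ⟨r, s⟩)) / (2 : ℝ) ^ Fintype.card (Σ r, τ r) =
      ∏ r, ((F r 0 + F r 1) / 2) := by
  have h1 : ∑ σ : (Σ r, τ r) → ZMod 2, ∏ r, F r (∑ s, σ ⟨r, s⟩) =
      ∑ x : (r : R) → (τ r → ZMod 2), ∏ r, F r (∑ s, x r s) := by
    rw [← Equiv.sum_comp (Equiv.piCurry (fun (r : R) (_ : τ r) => ZMod 2)).symm]
    rfl
  have h2 : ∑ x : (r : R) → (τ r → ZMod 2), ∏ r, F r (∑ s, x r s) =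
      ∏ r, ∑ y : τ r → ZMod 2, F r (∑ s, y s) := by
    rw [Finset.prod_univ_sum, Fintype.piFinset_univ]
  rw [h1, h2, prod_congr rfl fun r _ => sum_par (F r), prod_mul_distrib, Fintype.card_sigma,
    prod_pow_eq_pow_sum, mul_div_assoc, mul_comm, div_mul_cancel₀]
  positivity

end avg

section wt
variable {R : Type} [Fintype R] [DecidableEq R]

/-- one factor -/
noncomputable def uu (x y : ℝ) (p q : Prop) : ℝ :=
  if p then (if q then x else 1 - y) else (if q then 0 else 1)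

/-- the constants -/
noncomputable def cT (K : ℕ) (P : R → Prop) (S : Finset R) : ℝ :=
  ∏ r : R, uu (gK (K + 1)) (gK K) (P r) (r ∈ S) -
    ∑ r : R, (uu (gK (K + 1)) (gK K) (P r) (r ∈ S) - uu (gK K) (gK (K + 1)) (P r) (r ∈ S)) *
      ∏ r' ∈ univ.erase r, uu (gK (K + 1)) (gK K) (P r') (r' ∈ S)

theorem uu_tendsto {x y : ℕ → ℝ} {b : ℝ} (hx : Tendsto x atTop (𝓝 b)) (hy : Tendsto y atTop (𝓝 b))
    (p q : Prop) : Tendsto (fun K => uu (x K) (y K) p q) atTop (𝓝 (uu b b p q)) := by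
  unfold uu
  by_cases h1 : p
  · simp only [if_pos h1]
    by_cases h2 : q
    · simp only [if_pos h2]
      exact hx
    · simp only [if_neg h2]
      exact hy.const_sub 1
  · simp only [if_neg h1]
    exact tendsto_const_nhds

theorem cT_tendsto (P : R → Prop) (S : Finset R) :
    Tendsto (fun K => cT K P S) atTop (𝓝 (∏ r : R, uu bet bet (P r) (r ∈ S))) := by
  have h1 := gK_tendsto
  have h2 : Tendsto (fun K => gK (K + 1)) atTop (𝓝 bet) := h1.comp (tendsto_add_atTop_nat 1)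
  have e1 : ∀ r : R, Tendsto (fun K => uu (gK (K + 1)) (gK K) (P r) (r ∈ S)) atTop
      (𝓝 (uu bet bet (P r) (r ∈ S))) := fun r => uu_tendsto h2 h1 _ _
  have e2 : ∀ r : R, Tendsto (fun K => uu (gK K) (gK (K + 1)) (P r) (r ∈ S)) atTop
      (𝓝 (uu bet bet (P r) (r ∈ S))) := fun r => uu_tendsto h1 h2 _ _
  have e3 := (tendsto_finsetProd (univ : Finset R) fun r _ => e1 r).sub
    (tendsto_finsetSum (univ : Finset R) fun r _ => ((e1 r).sub (e2 r)).mul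
      (tendsto_finsetProd (univ.erase r) fun r' _ => e1 r'))
  have e4 : ∏ r : R, uu bet bet (P r) (r ∈ S) -
      ∑ r : R, (uu bet bet (P r) (r ∈ S) - uu bet bet (P r) (r ∈ S)) *
        ∏ r' ∈ univ.erase r, uu bet bet (P r') (r' ∈ S) = ∏ r : R, uu bet bet (P r) (r ∈ S) := by
    simp only [sub_self, zero_mul, sum_const_zero, sub_zero]
  rw [e4] at e3
  exact e3

/-- the parity condition -/
def par {τ : R → Type} [∀ r, Fintype (τ r)] (σ : (Σ r, τ r) → ZMod 2) (r : R) : Prop :=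
  (Fintype.card (τ r) : ZMod 2) = ∑ s, σ ⟨r, s⟩

theorem uu_avg (c : ZMod 2) (q : Prop) [Decidable q] :
    (uu bet bet (c = 0) q + uu bet bet (c = 1) q) / 2 = if q then bet / 2 else 1 - bet / 2 := by
  have h01 : ¬ ((0 : ZMod 2) = 1) := by decide
  have h10 : ¬ ((1 : ZMod 2) = 0) := by decide
  rcases Pool.Agent.Y164.HG.F2_cases c with h | h
  · subst h
    rw [uu, uu, if_pos rfl, if_neg h01]
    split_ifs <;> ring
  · subst h
    rw [uu, uu, if_pos rfl, if_neg h10]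
    split_ifs <;> ring

theorem avg_lim {τ : R → Type} [∀ r, Fintype (τ r)] [∀ r, Nonempty (τ r)] (S : Finset R) :
    (∑ σ : (Σ r, τ r) → ZMod 2, ∏ r, uu bet bet (par σ r) (r ∈ S)) /
      (2 : ℝ) ^ Fintype.card (Σ r, τ r) = wt (bet / 2) S := by
  have h := avg_prod (τ := τ) fun r x => uu bet bet ((Fintype.card (τ r) : ZMod 2) = x) (r ∈ S)
  have h2 : ∏ r : R, ((uu bet bet ((Fintype.card (τ r) : ZMod 2) = 0) (r ∈ S) +
      uu bet bet ((Fintype.card (τ r) : ZMod 2) = 1) (r ∈ S)) / 2) = wt (bet / 2) S :=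
    prod_congr rfl fun r _ => uu_avg _ _
  rw [← h2, ← h]
  rfl

/-- averages over all classes -/
noncomputable def avS {τ : Type} [Fintype τ] (c : (τ → ZMod 2) → ℝ) : ℝ :=
  (∑ σ, c σ) / (2 : ℝ) ^ Fintype.card τ

theorem avS_sigma {τ : R → Type} [∀ r, Fintype (τ r)] (c : ((Σ r, τ r) → ZMod 2) → ℝ) :
    avS c = (∑ σ : (Σ r, τ r) → ZMod 2, c σ) / (2 : ℝ) ^ Fintype.card (Σ r, τ r) := by
  unfold avS
  congr 1
  exact Finset.sum_congr (by ext x; simp only [mem_univ]) fun _ _ => rfl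

theorem avg_tendsto {τ : R → Type} [∀ r, Fintype (τ r)] [∀ r, Nonempty (τ r)]
    (𝒜 : Finset (Finset R)) :
    Tendsto (fun K => avS (fun σ : (Σ r, τ r) → ZMod 2 => ∑ S ∈ 𝒜, cT K (par σ) S)) atTop
      (𝓝 (∑ S ∈ 𝒜, wt (bet / 2) S)) := by
  have h1 : Tendsto (fun K => (∑ σ : (Σ r, τ r) → ZMod 2, ∑ S ∈ 𝒜, cT K (par σ) S) /
      (2 : ℝ) ^ Fintype.card (Σ r, τ r)) atTop
      (𝓝 ((∑ σ : (Σ r, τ r) → ZMod 2, ∑ S ∈ 𝒜, ∏ r, uu bet bet (par σ r) (r ∈ S)) /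
        (2 : ℝ) ^ Fintype.card (Σ r, τ r))) := by
    apply Tendsto.div_const
    apply tendsto_finsetSum
    intro σ _
    apply tendsto_finsetSum
    intro S _
    exact cT_tendsto _ _
  have h2 : (∑ σ : (Σ r, τ r) → ZMod 2, ∑ S ∈ 𝒜, ∏ r, uu bet bet (par σ r) (r ∈ S)) /
      (2 : ℝ) ^ Fintype.card (Σ r, τ r) = ∑ S ∈ 𝒜, wt (bet / 2) S := by
    rw [sum_comm, sum_div]
    exact sum_congr rfl fun S _ => avg_lim S
  rw [h2] at h1
  simp only [avS_sigma]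
  exact h1

theorem avg_ex {τ : R → Type} [∀ r, Fintype (τ r)] [∀ r, Nonempty (τ r)]
    (𝒜 : Finset (Finset R)) {ε : ℝ} (hε : 0 < ε) : ∃ K : ℕ, Odd K ∧
      ∑ S ∈ 𝒜, wt (bet / 2) S - ε ≤
      avS (fun σ : (Σ r, τ r) → ZMod 2 => ∑ S ∈ 𝒜, cT K (par σ) S) := by
  obtain ⟨K0, hK0⟩ := eventually_atTop.1 ((avg_tendsto (τ := τ) 𝒜).eventually_const_le
    (show ∑ S ∈ 𝒜, wt (bet / 2) S - ε < ∑ S ∈ 𝒜, wt (bet / 2) S by linarith))
  exact ⟨2 * K0 + 1, ⟨K0, rfl⟩, hK0 _ (by omega)⟩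

end wt

section main
open Pool.Agent.Y164.SZ Polynomial
open Pool.Agent.Y164.PS (Sf Fam)

variable {k : Type} [Field k] [Fintype k] [DecidableEq k]
variable {τ : Type} [Fintype τ] {Q : τ → k[X]} {g : τ → ZMod 2} {U : ZMod 2 → Prop}

theorem main_s (hS : SYM 2 k) (hF : Fam Q) (hk : ringChar k ≠ 2) (hq : 4 ≤ Fintype.card k)
    {G : k[X] → Prop}
    {PP : (τ → ZMod 2) → (ι : Type) → [Fintype ι] → (ι → ZMod 2) → (ι → k[X]) → Prop}
    (hG : ∀ σ, ImpA Q σ g U (PP σ) G) (c : (τ → ZMod 2) → ℝ)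
    (hce : ∀ σ, ∀ ε : ℝ, 0 < ε → CellA Q σ g U (PP σ) (c σ - ε)) {ε : ℝ} (hε : 0 < ε) :
    ∀ᶠ n : ℕ in atTop, U (n : ZMod 2) →
      (avS c - ε) * (((Sf k n).filter (nb Q)).card : ℝ) ≤
        (((Sf k n).filter fun E => nb Q E ∧ G E).card : ℝ) :=
  main_a hS hF hk hq hG c hce ε hε

end main

end Pool.Agent.Q269.MF
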