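import Pool.Agent.Q269.MF.Tf
import Pool.Agent.Q269.MF.Tc

/-!
# Several families at the same time: the prime two
-/

set_option autoImplicit false
set_option linter.all false

namespace Pool.Agent.Q269.MF

open Finset Polynomial Filter Topology
open Pool.Agent.Y164.SZ (L AT BT ok SYM0 SYM FDat Triv kLI AS nb)
open Pool.Agent.Y164.HG (Geo Tau QQ EW Good F2)
open Pool.Agent.Y164.PS (Sf mem_Sf Fam)
open Pool.Agent.Y261.SZ (nb_lower)
open scoped Classical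

section geo
variable {k : Type} [Field k] [Fintype k] [DecidableEq k]
variable {R : Type} {n : R → ℕ} [∀ r, Fact (Odd (n r))] {a : (r : R) → Fin (n r) → k[X]}
  {N : R → ℕ} (H : ∀ r, Geo (a r) (N r))

/-- all the nodes -/
def Q2 (a : (r : R) → Fin (n r) → k[X]) (x : Σ r, Tau (a r)) : k[X] := QQ (a x.1) x.2

/-- the data of a class -/
noncomputable def datT (σ : (Σ r, Tau (a r)) → ZMod 2) (r : R) :
    FDat 2 (EW (n r)) (Tau (a r)) := tF ((H r).dat fun s => σ ⟨r, s⟩)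

omit [∀ r, Fact (Odd (n r))] in
include H in
theorem Q2_fam (hcop : ∀ r r', r ≠ r' → IsCoprime (Pool.Agent.Y164.HG.Del (a r))
    (Pool.Agent.Y164.HG.Del (a r'))) : Fam (Q2 a) where
  mon := fun x => (H x.1).fam.mon x.2
  irr := fun x => (H x.1).fam.irr x.2
  inj := by
    rintro ⟨r, s⟩ ⟨r', s'⟩ h
    have h' : s.1 = s'.1 := h
    by_cases hr : r = r'
    · subst hr
      have : s = s' := Subtype.ext h'
      rw [this]
    · exfalso
      have h1 := ((H r).mem.1 s.2).2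
      have h2 := ((H r').mem.1 s'.2).2
      rw [← h'] at h2
      exact h1.1.not_isUnit ((hcop r r' hr).isUnit_of_dvd' h1.2 h2.2)

omit [∀ r, Fact (Odd (n r))] in
theorem nb2_iff (H : ∀ r, Geo (a r) (N r)) {E : k[X]} (hE : E.Monic) :
    nb (Q2 a) E ↔ ∀ r i j, i ≠ j → IsCoprime E (a r i - a r j) := by
  constructor
  · intro h r
    exact (Pool.Agent.Y164.HG.nb_iff (H r) hE).1 fun s => h ⟨r, s⟩
  · intro h x
    exact (Pool.Agent.Y164.HG.nb_iff (H x.1) hE).2 (h x.1) x.2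

theorem card_ge_two {ℓ : ℕ} {W τ : Type} [AddCommGroup W] [Module (ZMod ℓ) W] [Fintype W]
    [Fintype τ] {D : FDat ℓ W τ} (hG : CN D) : 2 ≤ Fintype.card W := by
  obtain ⟨s⟩ := hG.nonempty
  obtain ⟨s', h⟩ := hG.nb s
  have : Nontrivial W := ⟨⟨D.t s, 0, by
    intro h0
    apply h
    rw [h0, map_zero, LinearMap.zero_apply]⟩⟩
  exact Fintype.one_lt_card

end geo

/-- the set of the families for which the conclusion holds belongs to `𝒜` -/
def Good2 {k : Type} [Field k] (K : Type) [Field K] [Algebra k[X] K]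
    [IsFractionRing k[X] K] {R : Type} [Fintype R] {n : R → ℕ} (a : (r : R) → Fin (n r) → k[X])
    (𝒜 : Finset (Finset R)) (E : k[X]) : Prop := (univ.filter fun r => Good K (a r) E) ∈ 𝒜

section sums

/-- the coefficients -/
noncomputable def vv (x y : ℕ → ℝ) (p q : Prop) : ℕ → ℝ :=
  if p then (if q then x else cmp y) else (if q then (fun _ => 0) else cmp (fun _ => 0))

theorem sum_vv {K : ℕ} {x y : ℕ → ℝ} {X Y : ℝ}
    (hx : ∑ j ∈ range (K + 1), x j * ((AS 2 j).card : ℝ) = X)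
    (hy : ∑ j ∈ range (K + 1), y j * ((AS 2 j).card : ℝ) = Y) (p q : Prop) :
    ∑ j ∈ range (K + 1), vv x y p q j * ((AS 2 j).card : ℝ) = uu X Y p q := by
  have h0 : ((AS 2 0).card : ℝ) = 1 := by
    rw [card_AS_two, aj]
    simp
  unfold vv uu
  by_cases hp : p
  · rw [if_pos hp, if_pos hp]
    by_cases hq : q
    · rw [if_pos hq, if_pos hq]
      exact hx
    · rw [if_neg hq, if_neg hq, sum_cmp _ (fun j => ((AS 2 j).card : ℝ)) h0, hy]
  · rw [if_neg hp, if_neg hp]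
    by_cases hq : q
    · rw [if_pos hq, if_pos hq]
      simp only [zero_mul, sum_const_zero]
    · rw [if_neg hq, if_neg hq, sum_cmp _ (fun j => ((AS 2 j).card : ℝ)) h0]
      simp only [zero_mul, sum_const_zero, sub_zero]

variable {R : Type} [Fintype R] [DecidableEq R]

theorem cUL_two {K : ℕ} {l u : ℕ → ℝ}
    (hl : ∑ j ∈ range (K + 1 + 1), l j * aj j = gK K)
    (hu : ∑ j ∈ range (K + 1 + 1), u j * aj j = gK (K + 1)) (P : R → Prop) (S : Finset R) :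
    cUL 2 (K + 1) (fun r => vv l u (P r) (r ∈ S)) (fun r => vv u l (P r) (r ∈ S)) = cT K P S := by
  have hl' : ∑ j ∈ range (K + 1 + 1), l j * ((AS 2 j).card : ℝ) = gK K := by
    rw [← hl]
    exact sum_congr rfl fun j _ => by rw [card_AS_two]
  have hu' : ∑ j ∈ range (K + 1 + 1), u j * ((AS 2 j).card : ℝ) = gK (K + 1) := by
    rw [← hu]
    exact sum_congr rfl fun j _ => by rw [card_AS_two]
  have e1 : ∀ r : R, ∑ j ∈ range (K + 1 + 1), vv u l (P r) (r ∈ S) j * ((AS 2 j).card : ℝ) =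
      uu (gK (K + 1)) (gK K) (P r) (r ∈ S) := fun r => sum_vv hu' hl' _ _
  have e2 : ∀ r : R, ∑ j ∈ range (K + 1 + 1), vv l u (P r) (r ∈ S) j * ((AS 2 j).card : ℝ) =
      uu (gK K) (gK (K + 1)) (P r) (r ∈ S) := fun r => sum_vv hl' hu' _ _
  rw [cUL, cT]
  simp only [e1, e2]

end sums

section san
variable {W τ : Type} [AddCommGroup W] [Module Pool.Agent.Y164.HG.F2 W]
  [Pool.Agent.Y164.HG.Symp W] [Fintype W] [Fintype τ]

/-- the bounds in a class -/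
theorem san_cls {K : ℕ} {l u : ℕ → ℝ}
    (h : ∀ (W τ : Type) [AddCommGroup W] [Module (ZMod 2) W] [Fintype W] [Fintype τ]
      (D : Pool.Agent.Y164.SZ.FDat 2 W τ), (∀ (ι : Type) [Fintype ι] (A : ι → ι → ZMod 2)
        (B : ι → τ → ZMod 2) (d : ι → ZMod 2), (∀ i j, A i j = A j i) →
        IsUnit (∑ i, d i + D.N) → ∃ e, Nat.card (Pool.Agent.Y164.SZ.KerP D A B d) = 4 ^ e) →
      San l u K D) (D : Pool.Agent.Y164.HG.Dat W τ) (p q : Prop)
    (hp : p ↔ (Fintype.card τ : ZMod 2) = ∑ s, D.sp s) :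
    SanB q (vv l u p q) (vv u l p q) K (tF D) := by
  by_cases h1 : p
  · have h2 : San l u K (tF D) := by
      apply h
      intro ι _ A B d hA hN
      rw [ker_kc]
      exact kc_good D B d hA (isUnit_two hN) (hp.1 h1)
    unfold vv
    rw [if_pos h1, if_pos h1]
    by_cases h3 : q
    · rw [if_pos h3, if_pos h3]
      exact h2.pos h3
    · rw [if_neg h3, if_neg h3]
      exact h2.neg h3
  · have h2 : San (fun _ => 0) (fun _ => 0) K (tF D) := by
      apply san_zero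
      intro ι _ A B d hA hN h3
      rw [triv_card, ker_kc] at h3
      exact kc_bad D B d hA (isUnit_two hN) (fun h4 => h1 (hp.2 h4)) h3
    unfold vv
    rw [if_neg h1, if_neg h1]
    by_cases h3 : q
    · rw [if_pos h3]
      exact h2.pos h3
    · rw [if_neg h3]
      exact h2.neg h3

end san

section two
variable {k : Type} [Field k] [Fintype k] [DecidableEq k]
variable {R : Type} [Fintype R] [DecidableEq R] {n : R → ℕ} [∀ r, Fact (Odd (n r))]
  {a : (r : R) → Fin (n r) → k[X]} {N : R → ℕ} (H : ∀ r, Geo (a r) (N r))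

theorem datT_sp (σ : (Σ r, Tau (a r)) → ZMod 2) : spM (datT H σ) = σ := rfl

theorem datT_g (σ : (Σ r, Tau (a r)) → ZMod 2) : gM (datT H σ) = gM (datT H 0) := rfl

theorem datT_N (σ : (Σ r, Tau (a r)) → ZMod 2) (r : R) : (datT H σ r).N = (N r : ZMod 2) := rfl

theorem datT_san {K : ℕ} {l u : ℕ → ℝ}
    (h : ∀ (W τ : Type) [AddCommGroup W] [Module (ZMod 2) W] [Fintype W] [Fintype τ]
      (D : Pool.Agent.Y164.SZ.FDat 2 W τ), (∀ (ι : Type) [Fintype ι] (A : ι → ι → ZMod 2)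
        (B : ι → τ → ZMod 2) (d : ι → ZMod 2), (∀ i j, A i j = A j i) →
        IsUnit (∑ i, d i + D.N) → ∃ e, Nat.card (Pool.Agent.Y164.SZ.KerP D A B d) = 4 ^ e) →
      San l u K D) (σ : (Σ r, Tau (a r)) → ZMod 2) (r : R) (q : Prop) :
    SanB q (vv l u (par σ r) q) (vv u l (par σ r) q) K (datT H σ r) :=
  san_cls h _ _ _ Iff.rfl

theorem cell_two {K : ℕ} {l u : ℕ → ℝ}
    (hl : ∑ j ∈ range (K + 1 + 1), l j * aj j = gK K)
    (hu : ∑ j ∈ range (K + 1 + 1), u j * aj j = gK (K + 1))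
    (h : ∀ (W τ : Type) [AddCommGroup W] [Module (ZMod 2) W] [Fintype W] [Fintype τ]
      (D : Pool.Agent.Y164.SZ.FDat 2 W τ), (∀ (ι : Type) [Fintype ι] (A : ι → ι → ZMod 2)
        (B : ι → τ → ZMod 2) (d : ι → ZMod 2), (∀ i j, A i j = A j i) →
        IsUnit (∑ i, d i + D.N) → ∃ e, Nat.card (Pool.Agent.Y164.SZ.KerP D A B d) = 4 ^ e) →
      San l u (K + 1) D) (σ : (Σ r, Tau (a r)) → ZMod 2) (𝒜 : Finset (Finset R)) {δ : ℝ}
    (hδ : 0 < δ) :
    CellA (Q2 a) σ (gM (datT H 0)) (fun x => ∀ r, IsUnit (x + (N r : ZMod 2)))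
        (PU (datT H σ) (Q2 a) 𝒜) (∑ S ∈ 𝒜, cT K (par σ) S - δ) := by
  have h3 := cell_u (datT H σ) (Q := Q2 a) (K := K + 1)
      (l := fun S r => vv l u (par σ r) (r ∈ S))
      (u := fun S r => vv u l (par σ r) (r ∈ S)) (fun r =>
        card_ge_two (tF_CN ((H r).conn (fun s => σ ⟨r, s⟩)))) (fun r => 
          tF_CN ((H r).conn (fun s => σ ⟨r, s⟩)))
      (fun hS0 ι _ d _ r T w hw => by
        apply tF_diag _ _ _ _ _ hw
        intro i j
        exact hS0.L_comm _ _) (fun S r => datT_san H h σ r _) 𝒜 hδ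
  simp only [cUL_two hl hu] at h3
  rw [datT_sp, datT_g] at h3
  simp only [datT_N] at h3
  exact h3

theorem imp_two (hchar : ringChar k ≠ 2) (K : Type) [Field K] [Algebra k[X] K]
    [IsFractionRing k[X] K] {𝒜 : Finset (Finset R)} (hup : ∀ S ∈ 𝒜, ∀ S', S ⊆ S' → S' ∈ 𝒜)
    (σ : (Σ r, Tau (a r)) → ZMod 2) : ImpA (Q2 a) σ (gM (datT H 0))
      (fun x => ∀ r, IsUnit (x + (N r : ZMod 2)))
      (PU (datT H σ) (Q2 a) 𝒜) (Good2 K a 𝒜) := by
  intro ι _ T hR hcl hU hP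
  have hP' : (univ.filter fun r => Triv (datT H σ r) (AT 2 T) (BT 2 (Qr (Q2 a) r) T)
      (fun i => ((T i).natDegree : ZMod 2))) ∈ 𝒜 := hP
  refine hup _ hP' _ ?_
  intro r hr
  rw [mem_filter] at hr ⊢
  refine ⟨mem_univ _, Pool.Agent.Y164.HG.imp_good (H r) (fun s => σ ⟨r, s⟩) ι T (Fam_res hR r)
    (fun s => ?_) (isUnit_two (hU r)) ?_⟩
  · have h3 := hcl ⟨r, s⟩
    have h4 : ∀ i, BT 2 (Q2 a) T i ⟨r, s⟩ = Pool.Agent.Y164.HG.BT (QQ (a r)) T i s :=
      fun i => L_eq hchar _ _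
    simp only [h4] at h3
    exact h3
  · have h3 := (tF_triv _ _ _ _).1 hr.2
    have h4 : (AT 2 T) = Pool.Agent.Y164.HG.AT T := by
      funext i j
      exact L_eq hchar _ _
    have h5 : BT 2 (Qr (Q2 a) r) T = Pool.Agent.Y164.HG.BT (QQ (a r)) T := by
      funext i s
      exact L_eq hchar _ _
    rw [h4, h5] at h3
    exact h3

end two

/-- the final form for the prime two -/
theorem final_two {k : Type} [Field k] [Finite k]
    (h2 : (2 : k) ≠ 0) (hi : IsSquare (-1 : k))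
    (K : Type) [Field K] [Algebra k[X] K] [IsFractionRing k[X] K] {R : Type} [Fintype R]
    {n : R → ℕ} (hn : ∀ r, Odd (n r)) (hn3 : ∀ r, 3 ≤ n r) (N : R → ℕ) (hN : ∀ r, 1 ≤ N r)
    (a : (r : R) → Fin (n r) → k[X])
    (hdeg : ∀ r i j, i ≠ j → (a r i - a r j).natDegree = N r)
    (hsq : ∀ r, Squarefree (Pool.Agent.Y164.HG.Del (a r)))
    (hcop : ∀ r r', r ≠ r' → IsCoprime (Pool.Agent.Y164.HG.Del (a r))
      (Pool.Agent.Y164.HG.Del (a r'))) :
    (∃ c : ℝ, 0 < c ∧ ∀ᶠ m : ℕ in atTop, c * (Nat.card k : ℝ) ^ m ≤ ((twm a m).ncard : ℝ)) ∧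
    ∀ 𝒜 : Finset (Finset R), (∀ S ∈ 𝒜, ∀ S', S ⊆ S' → S' ∈ 𝒜) →
    ∀ ε : ℝ, 0 < ε → ∀ᶠ m : ℕ in atTop, (∀ r, Odd (m + N r)) →
      (∑ S ∈ 𝒜, (bet / 2) ^ S.card * (1 - bet / 2) ^ (Fintype.card R - S.card) - ε) *
          ((twm a m).ncard : ℝ) ≤ (({E ∈ twm a m | Good2 K a 𝒜 E}).ncard : ℝ) := by
  haveI : ∀ r, Fact (Odd (n r)) := fun r => ⟨hn r⟩
  letI : Fintype k := Fintype.ofFinite k
  have hchar : ringChar k ≠ 2 := by
    intro h
    apply h2
    have := ringChar.Nat.cast_ringChar (R := k)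
    rw [h] at this
    exact_mod_cast this
  have hcard : Nat.card k = Fintype.card k := Nat.card_eq_fintype_card
  have hq := Pool.Agent.Y164.HG.four_le h2 hi
  have S' : SYM 2 k := sym hchar hi
  have H : ∀ r, Geo (a r) (N r) := fun r =>
    ⟨hchar, hi, hn r, hn3 r, hN r, hdeg r, hsq r⟩
  have hF : Fam (Q2 a) := Q2_fam H hcop
  have hcN : (Nat.card k : ℝ) = (Fintype.card k : ℝ) := by rw [hcard]
  have e1 : ∀ m, (twm a m).ncard = ((Sf k m).filter (nb (Q2 a))).card := by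
    intro m
    rw [← Set.ncard_coe_finset]
    congr 1
    ext E
    rw [Finset.mem_coe, mem_filter, mem_Sf]
    show (_ ∧ _ ∧ _ ∧ _) ↔ _
    constructor
    · rintro ⟨a1, a2, a3, a4⟩
      exact ⟨⟨a1, a2, a3⟩, (nb2_iff H a1).2 a4⟩
    · rintro ⟨⟨a1, a2, a3⟩, a4⟩
      exact ⟨a1, a2, a3, (nb2_iff H a1).1 a4⟩
  constructor
  · obtain ⟨c, hc, h⟩ := nb_lower hF hchar hq
    refine ⟨c, hc, ?_⟩
    filter_upwards [h] with m hm
    rw [e1, hcN]
    exact hm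
  intro 𝒜 hup ε hε
  have e2 : ∀ m, ((Sf k m).filter (fun E => nb (Q2 a) E ∧ Good2 K a 𝒜 E)).card ≤
      ({E ∈ twm a m | Good2 K a 𝒜 E}).ncard := by
    intro m
    rw [← Set.ncard_coe_finset]
    apply Set.ncard_le_ncard
    · intro E hE
      rw [Finset.mem_coe, mem_filter, mem_Sf] at hE
      obtain ⟨⟨a1, a2, a3⟩, a4, a5⟩ := hE
      exact ⟨⟨a1, a2, a3, (nb2_iff H a1).1 a4⟩, a5⟩
    · apply Set.Finite.subset (Finset.finite_toSet (Sf k m))
      rintro E ⟨⟨a1, a2, a3, -⟩, -⟩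
      exact mem_Sf.2 ⟨a1, a2, a3⟩
  have e3 : ∑ S ∈ 𝒜, (bet / 2) ^ S.card * (1 - bet / 2) ^ (Fintype.card R - S.card) =
      ∑ S ∈ 𝒜, wt (bet / 2) S := sum_congr rfl fun S _ => (wt_eq (bet / 2) S).symm
  rw [e3]
  haveI hne : ∀ r, Nonempty (Tau (a r)) := fun r => ((H r).conn (fun _ => 0)).nonempty
  obtain ⟨Kk, hKo, hK⟩ := avg_ex (τ := fun r => Tau (a r)) 𝒜 (half_pos hε)
  obtain ⟨l, u, hl, hu, hlu⟩ := san_two hKo
  have hcell : ∀ σ : (Σ r, Tau (a r)) → ZMod 2, ∀ δ : ℝ, 0 < δ →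
      CellA (Q2 a) σ (gM (datT H 0)) (fun x => ∀ r, IsUnit (x + (N r : ZMod 2)))
        (PU (datT H σ) (Q2 a) 𝒜) (∑ S ∈ 𝒜, cT Kk (par σ) S - δ) :=
    fun σ δ hδ => cell_two H hl hu hlu σ 𝒜 hδ
  have himp : ∀ σ : (Σ r, Tau (a r)) → ZMod 2, ImpA (Q2 a) σ (gM (datT H 0))
      (fun x => ∀ r, IsUnit (x + (N r : ZMod 2)))
      (PU (datT H σ) (Q2 a) 𝒜) (Good2 K a 𝒜) := fun σ => imp_two H hchar K hup σ
  have hmain := main_s S' hF hchar hq (U := fun x => ∀ r, IsUnit (x + (N r : ZMod 2)))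
    (PP := fun σ => PU (datT H σ) (Q2 a) 𝒜) himp
    (fun σ => ∑ S ∈ 𝒜, cT Kk (par σ) S) hcell (half_pos hε)
  obtain ⟨X, hX⟩ : ∃ X, X = avS (fun σ : (Σ r, Tau (a r)) → ZMod 2 =>
    ∑ S ∈ 𝒜, cT Kk (par σ) S) := ⟨_, rfl⟩
  rw [← hX] at hmain hK
  filter_upwards [hmain] with m hm ho
  have h3 : ∀ r, IsUnit ((m : ZMod 2) + (N r : ZMod 2)) := by
    intro r
    have h4 : ((m + N r : ℕ) : ZMod 2) = 1 := (ZMod.natCast_eq_one_iff_odd).2 (ho r)
    have h5 : (m : ZMod 2) + (N r : ZMod 2) = 1 := by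
      rw [← h4]
      push_cast
      rfl
    rw [h5]
    exact isUnit_one
  have h4 := (hm h3).trans (show _ ≤ (({E ∈ twm a m | Good2 K a 𝒜 E}).ncard : ℝ) by
    exact_mod_cast e2 m)
  rw [e1]
  refine le_trans ?_ h4
  apply mul_le_mul_of_nonneg_right _ (Nat.cast_nonneg _)
  linarith

end Pool.Agent.Q269.MF
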