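import Pool.Agent.Y164.SZ.Stm
import Pool.Agent.Y164.PS.Chr

/-!
# The quadratic symbol in the two notations
-/

set_option autoImplicit false
set_option linter.all false

namespace Pool.Agent.Q269.MF

open Finset Polynomial
open Pool.Agent.H341R2.Sharp
open scoped Classical

variable {k : Type} [Field k] [Fintype k] [DecidableEq k]

theorem gen_spec (c : kˣ) : ∃ n : ℕ, (Pool.Agent.Y164.SZ.gen k) ^ n = c := by
  have h := (IsCyclic.exists_generator (α := kˣ)).choose_spec c
  have h2 := (isOfFinOrder_of_finite (Pool.Agent.Y164.SZ.gen k)).mem_powers_iff_mem_zpowers.2 h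
  exact h2

theorem even_card (hk : ringChar k ≠ 2) : Even (Fintype.card kˣ) := by
  rw [Fintype.card_units]
  have h := FiniteField.odd_card_of_char_ne_two hk
  have h1 : 0 < Fintype.card k := Fintype.card_pos
  obtain ⟨r, hr⟩ := Nat.odd_iff.2 h
  rw [hr]
  exact ⟨r, by omega⟩

theorem ch_eq (hk : ringChar k ≠ 2) (c : k) :
    Pool.Agent.Y164.SZ.ch 2 c = Pool.Agent.Y164.PS.ch c := by
  by_cases hc : c = 0
  · subst hc
    have h1 : Pool.Agent.Y164.PS.ch (0 : k) = 0 := by
      rw [Pool.Agent.Y164.PS.ch]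
      simp
    rw [h1, Pool.Agent.Y164.SZ.ch, dif_neg]
    rintro ⟨n, hn⟩
    exact pow_ne_zero n (Units.ne_zero _) hn
  · have hex : ∃ n : ℕ, ((Pool.Agent.Y164.SZ.gen k : kˣ) : k) ^ n = c := by
      obtain ⟨n, hn⟩ := gen_spec (Units.mk0 c hc)
      refine ⟨n, ?_⟩
      have := congrArg Units.val hn
      rw [Units.val_pow_eq_pow_val, Units.val_mk0] at this
      exact this
    have h1 : Pool.Agent.Y164.SZ.ch 2 c = ((hex.choose : ℕ) : ZMod 2) := by
      rw [Pool.Agent.Y164.SZ.ch, dif_pos hex]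
    have h2 := hex.choose_spec
    have key : Even hex.choose ↔ IsSquare c := by
      constructor
      · rintro ⟨r, hr⟩
        rw [hr, pow_add] at h2
        exact ⟨_, h2.symm⟩
      · rintro ⟨y, hy⟩
        have hy0 : y ≠ 0 := by
          rintro rfl
          rw [mul_zero] at hy
          exact hc hy
        obtain ⟨n, hn⟩ := gen_spec (Units.mk0 y hy0)
        have h3 : (Pool.Agent.Y164.SZ.gen k) ^ hex.choose = (Pool.Agent.Y164.SZ.gen k) ^ (n + n) := by
          apply Units.ext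
          rw [Units.val_pow_eq_pow_val, h2, pow_add, hn, Units.val_mul, Units.val_mk0, ← hy]
        rw [pow_eq_pow_iff_modEq] at h3
        have ho : orderOf (Pool.Agent.Y164.SZ.gen k) = Fintype.card kˣ := by
          have := orderOf_eq_card_of_forall_mem_zpowers
            (IsCyclic.exists_generator (α := kˣ)).choose_spec
          rw [Nat.card_eq_fintype_card] at this
          exact this
        rw [ho] at h3
        have h4 : hex.choose ≡ n + n [MOD 2] := h3.of_dvd (even_card hk).two_dvd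
        have h5 : Even (n + n) := ⟨n, rfl⟩
        rw [Nat.even_iff] at h5 ⊢
        rw [← h5]
        exact h4
    have h3 : Pool.Agent.Y164.SZ.ch 2 c = 0 ↔ Pool.Agent.Y164.PS.ch c = 0 := by
      rw [h1, ZMod.natCast_eq_zero_iff_even, key, Pool.Agent.Y164.PS.ch_eq_zero_iff hc]
    have h4 : ∀ x y : ZMod 2, (x = 0 ↔ y = 0) → x = y := by decide
    exact h4 _ _ h3

theorem PS_L (f g : k[X]) : Pool.Agent.Y164.PS.L f g =
    Pool.Agent.Y164.PS.ch (resultant g f g.natDegree f.natDegree) := rfl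

theorem L_eq (hk : ringChar k ≠ 2) (f g : k[X]) :
    Pool.Agent.Y164.SZ.L 2 f g = Pool.Agent.Y164.PS.L f g := by
  rw [PS_L, Pool.Agent.Y164.SZ.L, ch_eq hk]

theorem isSq {c : k} : (∃ z : k, c = z ^ 2) ↔ IsSquare c := by
  constructor
  · rintro ⟨z, hz⟩
    exact ⟨z, by rw [hz, sq]⟩
  · rintro ⟨z, hz⟩
    exact ⟨z, by rw [hz, sq]⟩

theorem res_ne {f g : k[X]} (hg : g ≠ 0) : resultant g f g.natDegree f.natDegree = 0 ↔
    ¬ IsCoprime f g := by
  rw [← Pool.Agent.Y164.PS.lam_eq_zero_iff hg, lam, quadraticChar_eq_zero_iff]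

/-- the properties of the symbol for the prime `2` -/
theorem sym0 (hk : ringChar k ≠ 2) (hm : IsSquare (-1 : k)) : Pool.Agent.Y164.SZ.SYM0 2 k where
  ch_mul := fun c c' hc hc' => by
    rw [ch_eq hk, ch_eq hk, ch_eq hk, Pool.Agent.Y164.PS.ch_mul hc hc']
  ch_zero_iff := fun c hc => by
    rw [ch_eq hk, Pool.Agent.Y164.PS.ch_eq_zero_iff hc, isSq]
  L_comm := fun f g => by rw [L_eq hk, L_eq hk, Pool.Agent.Y164.PS.L_comm hm]
  L_nc := fun f g hg h => by rw [L_eq hk, Pool.Agent.Y164.PS.L_of_not_coprime hg h]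
  L_mul_left := fun f f' g hg hf hf' h h' => by
    rw [L_eq hk, L_eq hk, L_eq hk, Pool.Agent.Y164.PS.L_mul_left hg hf hf' h h']
  L_prod_left := fun α s f g hg hf h => by
    rw [L_eq hk, Pool.Agent.Y164.PS.L_prod_left hg hf h]
    exact sum_congr rfl fun a _ => (L_eq hk _ _).symm
  L_C := fun c g hc => by rw [L_eq hk, Pool.Agent.Y164.PS.L_C hc, ch_eq hk]
  L_zero_iff := fun P f hP hi h => by
    rw [L_eq hk, Pool.Agent.Y164.PS.L_eq_zero_iff hk hP hi h]
  L_congr := fun P f g hP hi h => by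
    rw [L_eq hk, L_eq hk, Pool.Agent.Y164.PS.L_congr hk hP hi h]
  L_neg_left := fun P f hP hi => by
    rw [L_eq hk, L_eq hk, Pool.Agent.Y164.PS.L_neg_left hk hm hP hi]
  lc_cop := fun f g hg h => by
    rw [Pool.Agent.Y164.SZ.lc, if_neg]
    intro h0
    exact (res_ne hg).1 h0 h
  lc_nc := fun f g hg h => by
    rw [Pool.Agent.Y164.SZ.lc, if_pos]
    exact (res_ne hg).2 h

theorem std_two : (ZMod.stdAddChar (1 : ZMod 2) : ℂ) = -1 := by
  have h := ZMod.stdAddChar_coe (N := 2) 1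
  rw [Int.cast_one] at h
  rw [h]
  have : (2 * Real.pi * Complex.I * ((1 : ℤ) : ℂ) / ((2 : ℕ) : ℂ)) = Real.pi * Complex.I := by
    push_cast
    ring
  rw [this, Complex.exp_pi_mul_I]

theorem lc_eq (hk : ringChar k ≠ 2) {f g : k[X]} (hg : g ≠ 0) :
    Pool.Agent.Y164.SZ.lc 2 f g = ((lam f g : ℝ) : ℂ) := by
  by_cases h : IsCoprime f g
  · have h0 : lam f g ≠ 0 := fun h' => (Pool.Agent.Y164.PS.lam_eq_zero_iff hg).1 h' h
    rw [Pool.Agent.Y164.SZ.lc, if_neg (fun h0 => (res_ne hg).1 h0 h), L_eq hk,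
      Pool.Agent.Y164.PS.L]
    rcases Pool.Agent.Y164.PS.lam_mem f g with h1 | h1 | h1
    · exact absurd h1 h0
    · rw [if_neg (by rw [h1]; norm_num), AddChar.map_zero_eq_one, h1]
      norm_num
    · rw [if_pos h1, std_two, h1]
      norm_num
  · rw [Pool.Agent.Y164.SZ.lc, if_pos ((res_ne hg).2 h),
      (Pool.Agent.Y164.PS.lam_eq_zero_iff hg).2 h]
    norm_num

/-- the properties of the symbol for the prime `2` -/
theorem sym (hk : ringChar k ≠ 2) (hm : IsSquare (-1 : k)) : Pool.Agent.Y164.SZ.SYM 2 k where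
  toSYM0 := sym0 hk hm
  char_sum := fun M hM hM1 hns d hd => by
    have h := Pool.Agent.Y164.PS.char_sum hk hM hM1 hns d hd
    have h1 : ∑ P ∈ Pool.Agent.Y164.PS.Pr k d, Pool.Agent.Y164.SZ.lc 2 M P =
        ((∑ P ∈ Pool.Agent.Y164.PS.Pr k d, (lam M P : ℝ) : ℝ) : ℂ) := by
      rw [Complex.ofReal_sum]
      refine sum_congr rfl fun P hP => ?_
      exact lc_eq hk (Pool.Agent.Y164.PS.mem_Pr.1 hP).2.1.ne_zero
    rw [h1, Complex.norm_real, Real.norm_eq_abs]
    exact h

end Pool.Agent.Q269.MF
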