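import Pool.Agent.Q269.MF.Odd
import Pool.Agent.Q269.MF.Fo
import Pool.Agent.Q269.MF.Sy
import Pool.Agent.Y164.HG.Cla

/-!
# The data for the prime `2`
-/

set_option autoImplicit false
set_option linter.all false

namespace Pool.Agent.Q269.MF

open Finset Polynomial
open scoped Classical

theorem sub_two (x y : ZMod 2) : x - y = x + y := by revert x y; decide

section tf
variable {W : Type} [AddCommGroup W] [Module Pool.Agent.Y164.HG.F2 W] [Pool.Agent.Y164.HG.Symp W]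
variable {ι τ : Type} [Fintype ι] [Fintype τ]

/-- the form -/
noncomputable def bom (W : Type) [AddCommGroup W] [Module (ZMod 2) W] [Pool.Agent.Y164.HG.Symp W] :
    LinearMap.BilinForm (ZMod 2) W :=
  LinearMap.mk₂ (ZMod 2) Pool.Agent.Y164.HG.om Pool.Agent.Y164.HG.om_add_left
    Pool.Agent.Y164.HG.om_smul_left Pool.Agent.Y164.HG.om_add_right
    Pool.Agent.Y164.HG.om_smul_right

theorem bom_apply (x y : W) : bom W x y = Pool.Agent.Y164.HG.om x y := rfl

/-- the data in the other notation -/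
noncomputable def tF (D : Pool.Agent.Y164.HG.Dat W τ) : Pool.Agent.Y164.SZ.FDat 2 W τ where
  om := bom W
  om_comm := Pool.Agent.Y164.HG.om_comm
  nd := Pool.Agent.Y164.HG.eq_zero_of_om
  t := D.t
  G := D.G
  e := D.e
  ks := D.ks
  ks_add := D.ks_add
  ks_comm := D.ks_comm
  N := D.N
  g := D.g
  sp := D.sp
  symm := D.symm
  h1 := fun s y => by
    rw [sub_two]
    exact D.h1 s y
  h4 := D.h4

theorem tF_FF (D : Pool.Agent.Y164.HG.Dat W τ) (A : ι → ι → ZMod 2) (B : ι → τ → ZMod 2)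
    (d : ι → ZMod 2) (w w' : Pool.Agent.Y164.SZ.V 2 W ι τ) :
    Pool.Agent.Y164.SZ.FF (tF D) A B d w w' = Pool.Agent.Y164.HG.FF D A B d w w' := by
  have e1 : ∀ i j, A i j * (tF D).om (w.1 j - w.1 i) (w'.1 i) =
      A i j * (Pool.Agent.Y164.HG.om (w.1 j) (w'.1 i) + Pool.Agent.Y164.HG.om (w.1 i) (w'.1 i)) := by
    intro i j
    rw [map_sub, LinearMap.sub_apply, sub_two]
    rfl
  have e2 : ∀ i s, B i s * (w.2 s * (tF D).om ((tF D).t s) (w'.1 i) +
      w'.2 s * (tF D).om (w.1 i) ((tF D).t s) -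
      (tF D).om (w.1 i) ((tF D).t s) * (tF D).om (w'.1 i) ((tF D).t s)) =
      B i s * (Pool.Agent.Y164.HG.om (w.1 i) (D.t s) * Pool.Agent.Y164.HG.om (w'.1 i) (D.t s) +
      w.2 s * Pool.Agent.Y164.HG.om (D.t s) (w'.1 i) +
      w'.2 s * Pool.Agent.Y164.HG.om (w.1 i) (D.t s)) := by
    intro i s
    rw [sub_two]
    show B i s * (w.2 s * Pool.Agent.Y164.HG.om (D.t s) (w'.1 i) +
      w'.2 s * Pool.Agent.Y164.HG.om (w.1 i) (D.t s) +
      Pool.Agent.Y164.HG.om (w.1 i) (D.t s) * Pool.Agent.Y164.HG.om (w'.1 i) (D.t s)) = _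
    ring
  rw [Pool.Agent.Y164.SZ.FF, Pool.Agent.Y164.HG.FF]
  simp only [e1, e2]
  rfl

theorem tF_dg (D : Pool.Agent.Y164.HG.Dat W τ) (d : ι → ZMod 2)
    (w : Pool.Agent.Y164.SZ.V 2 W ι τ) :
    Pool.Agent.Y164.SZ.dg (tF D) d w = Pool.Agent.Y164.HG.dg D d w := rfl

theorem tF_triv (D : Pool.Agent.Y164.HG.Dat W τ) (A : ι → ι → ZMod 2) (B : ι → τ → ZMod 2)
    (d : ι → ZMod 2) : Pool.Agent.Y164.SZ.Triv (tF D) A B d ↔ Pool.Agent.Y164.HG.Triv D A B d := by
  unfold Pool.Agent.Y164.SZ.Triv Pool.Agent.Y164.HG.Triv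
  simp only [tF_FF, tF_dg]

theorem tF_CN {D : Pool.Agent.Y164.HG.Dat W τ} (h : Pool.Agent.Y164.HG.Conn D.t) : CN (tF D) where
  nd := h.nd
  nb := fun s => h.nd (D.t s) (h.ne s)
  conn := h.conn
  nonempty := h.nonempty
  two := fun _ => D.h3

theorem tF_diag (D : Pool.Agent.Y164.HG.Dat W τ) {A : ι → ι → ZMod 2} (B : ι → τ → ZMod 2)
    (d : ι → ZMod 2) (hA : ∀ i j, A i j = A j i) (w : Pool.Agent.Y164.SZ.V 2 W ι τ)
    (hw : Pool.Agent.Y164.SZ.dg (tF D) d w = 0) :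
    Pool.Agent.Y164.SZ.FF (tF D) A B d w w = Pool.Agent.Y164.SZ.FF (tF D) A B d w wz := by
  rw [tF_FF, tF_FF]
  exact Pool.Agent.Y164.HG.FF_diag D B d hA w hw

end tf

section kc
open Pool.Agent.Y164.HG

variable {W : Type} [AddCommGroup W] [Module F2 W] [Symp W]
variable {ι τ : Type} [Fintype ι] [Fintype τ]
variable (D : Dat W τ) {A : ι → ι → F2} (B : ι → τ → F2) (d : ι → F2)

/-- the order of the kernel and the parity -/
theorem kc_par [Finite W] (hA : ∀ i j, A i j = A j i) (hN : ∑ i, d i + D.N = 1) :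
    ∃ a b : ℕ, kc D A B d * (if ∑ s, D.sp s = 0 then 1 else 2) * 4 ^ a =
      4 ^ b * 2 ^ Fintype.card τ := by
  classical
  let φ : Pool.Agent.Y164.HG.V W ι τ →+ W := ⟨⟨Pool.Agent.Y164.HG.dg D d, by
    have h := Pool.Agent.Y164.HG.dg_add D d (0 : Pool.Agent.Y164.HG.V W ι τ) 0
    rw [add_zero, W_add_self] at h
    exact h⟩, Pool.Agent.Y164.HG.dg_add D d⟩
  have hφ : ∀ w, φ w = Pool.Agent.Y164.HG.dg D d w := fun _ => rfl
  have hφs : Function.Surjective φ := fun y => ⟨TT D y, by rw [hφ, dg_TT, hN, one_smul]⟩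
  obtain ⟨g, hg⟩ := card_W (W := W)
  have hcV : Nat.card (Pool.Agent.Y164.HG.V W ι τ) =
      4 ^ (g * Fintype.card ι) * 2 ^ Fintype.card τ := by
    rw [Nat.card_prod, Nat.card_fun, Nat.card_fun, hg, Nat.card_zmod, Nat.card_eq_fintype_card,
      Nat.card_eq_fintype_card, ← pow_mul]
  have hc : Nat.card (Pool.Agent.Y164.HG.V W ι τ) = 4 ^ g * Nat.card φ.ker := by
    rw [AddSubgroup.card_eq_card_quotient_mul_card_addSubgroup φ.ker,
      Nat.card_congr (QuotientAddGroup.quotientKerEquivOfSurjective φ hφs).toEquiv, hg]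
  have hwsm : (ws : Pool.Agent.Y164.HG.V W ι τ) ∈ φ.ker := by
    rw [AddMonoidHom.mem_ker, hφ, dg_ws]
  let lam : Pool.Agent.Y164.HG.V W ι τ → F2 := fun w => Pool.Agent.Y164.HG.FF D A B d w ws
  have hlam : ∀ w w', lam (w + w') = lam w + lam w' := fun w w' =>
    Pool.Agent.Y164.HG.FF_add_left D A B d w w' ws
  let β : Pool.Agent.Y164.HG.V W ι τ → Pool.Agent.Y164.HG.V W ι τ → F2 := fun w w' =>
    Pool.Agent.Y164.HG.FF D A B d w w' + lam w * lam w'
  have hβa : ∀ x y z, β (x + y) z = β x z + β y z := by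
    intro x y z
    show Pool.Agent.Y164.HG.FF D A B d (x + y) z + lam (x + y) * lam z = _
    rw [Pool.Agent.Y164.HG.FF_add_left, hlam]
    show _ = Pool.Agent.Y164.HG.FF D A B d x z + lam x * lam z +
      (Pool.Agent.Y164.HG.FF D A B d y z + lam y * lam z)
    ring
  have hβc : ∀ x y, β x y = β y x := by
    intro x y
    show Pool.Agent.Y164.HG.FF D A B d x y + lam x * lam y =
      Pool.Agent.Y164.HG.FF D A B d y x + lam y * lam x
    rw [Pool.Agent.Y164.HG.FF_comm D B d hA, mul_comm]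
  obtain ⟨r, hr⟩ := alt_card _ φ.ker (fun x y => β x y) (fun x y z => hβa _ _ _)
    (fun x y => hβc _ _) (fun x => by
      show Pool.Agent.Y164.HG.FF D A B d x x + lam x * lam x = 0
      rw [FF_diag D B d hA _ x.2, F2_sq]
      exact F2_add_self _) le_rfl
  have hlws : lam ws = ∑ s, D.sp s := by
    show Pool.Agent.Y164.HG.FF D A B d ws ws = _
    have hswap : ∑ s, ∑ s', D.G s s' * (om (D.t s') (D.t s)) = 0 := by
      rw [← sum_product']
      refine sum_involution (fun p _ => (p.2, p.1)) ?_ ?_ ?_ ?_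
      · rintro ⟨i, j⟩ _
        show D.G i j * (om (D.t j) (D.t i)) + D.G j i * (om (D.t i) (D.t j)) = 0
        rw [D.symm i j, om_comm, F2_add_self]
      · rintro ⟨i, j⟩ _ hne h
        simp only [Prod.mk.injEq] at h
        apply hne
        show D.G i j * (om (D.t j) (D.t i)) = 0
        rw [h.1, om_self, mul_zero]
      · intro _ _
        exact mem_univ _
      · rintro ⟨i, j⟩ _
        rfl
    simp only [Pool.Agent.Y164.HG.FF, ws, Pi.zero_apply, om_zero_left, om_zero_right, mul_zero,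
      add_zero, zero_add, mul_one, one_mul, sum_const_zero, hswap]
  -- the two kernels
  have hK : kc D A B d = Nat.card {x : φ.ker // ∀ y : φ.ker,
      Pool.Agent.Y164.HG.FF D A B d x y = 0} := by
    refine Nat.card_congr ⟨fun x => ⟨⟨x.1, x.2.1⟩, fun y => x.2.2 y.1 y.2⟩,
      fun x => ⟨x.1.1, x.1.2, fun w' hw' => x.2 ⟨w', hw'⟩⟩, fun _ => rfl, fun _ => rfl⟩
  have hlK : ∀ x : φ.ker, (∀ y : φ.ker, Pool.Agent.Y164.HG.FF D A B d x y = 0) → lam x = 0 :=
    fun x hx => hx ⟨ws, hwsm⟩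
  have hwslam : ∀ w : Pool.Agent.Y164.HG.V W ι τ, Pool.Agent.Y164.HG.FF D A B d ws w = lam w :=
    fun w => Pool.Agent.Y164.HG.FF_comm D B d hA _ _
  rcases F2_cases (∑ s, D.sp s) with he | ho
  · have h0 : lam ws = 0 := by rw [hlws, he]
    have hK1 : Nat.card {x : φ.ker // ∀ y : φ.ker, Pool.Agent.Y164.HG.FF D A B d x y = 0} =
        Nat.card {x : φ.ker // ∀ y : φ.ker, β x y = 0} := by
      refine Nat.card_congr (Equiv.subtypeEquivRight fun x => ⟨fun h y => ?_, fun h y => ?_⟩)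
      · show Pool.Agent.Y164.HG.FF D A B d x y + lam x * lam y = 0
        rw [h y, hlK x h, zero_mul, add_zero]
      · have h1 : Pool.Agent.Y164.HG.FF D A B d x ws + lam x * lam ws = 0 := h ⟨ws, hwsm⟩
        rw [h0, mul_zero, add_zero] at h1
        have h2 : Pool.Agent.Y164.HG.FF D A B d x y + lam x * lam y = 0 := h y
        have h3 : lam x = 0 := h1
        rw [h3, zero_mul, add_zero] at h2
        exact h2
    refine ⟨r + g, g * Fintype.card ι, ?_⟩
    rw [if_pos he, mul_one, hK, hK1, ← hcV, hc, hr, pow_add]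
    ring
  · have h0 : lam ws = 1 := by rw [hlws, ho]
    let K1 : AddSubgroup (Pool.Agent.Y164.HG.V W ι τ) :=
      { carrier := {w | Pool.Agent.Y164.HG.dg D d w = 0 ∧
          ∀ w', Pool.Agent.Y164.HG.dg D d w' = 0 → β w w' = 0}
        zero_mem' := by
          refine ⟨(AddMonoidHom.map_zero φ), fun w' _ => ?_⟩
          show Pool.Agent.Y164.HG.FF D A B d 0 w' + lam 0 * lam w' = 0
          have : lam 0 = 0 := Pool.Agent.Y164.HG.FF_zero_left D B d ws
          rw [Pool.Agent.Y164.HG.FF_zero_left, this, zero_mul, add_zero]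
        add_mem' := by
          rintro x y ⟨hx, hx'⟩ ⟨hy, hy'⟩
          refine ⟨by rw [Pool.Agent.Y164.HG.dg_add, hx, hy, add_zero], fun w' hw' => ?_⟩
          rw [hβa, hx' w' hw', hy' w' hw', add_zero]
        neg_mem' := by
          rintro x ⟨hx, hx'⟩
          have : -x = x := by
            rw [neg_eq_iff_add_eq_zero]
            apply Prod.ext
            · funext i
              exact W_add_self _
            · funext s
              exact F2_add_self _
          rw [this]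
          exact ⟨hx, hx'⟩ }
    have hK1 : Nat.card {x : φ.ker // ∀ y : φ.ker, β x y = 0} = Nat.card K1 := by
      refine Nat.card_congr ⟨fun x => ⟨x.1.1, x.1.2, fun w' hw' => x.2 ⟨w', hw'⟩⟩,
        fun x => ⟨⟨x.1, x.2.1⟩, fun y => x.2.2 y.1 y.2⟩, fun _ => rfl, fun _ => rfl⟩
    let ψ : K1 →+ F2 := ⟨⟨fun x => lam x, Pool.Agent.Y164.HG.FF_zero_left D B d ws⟩,
      fun x y => hlam _ _⟩
    have hws1 : (ws : Pool.Agent.Y164.HG.V W ι τ) ∈ K1 := by
      refine ⟨dg_ws D d, fun w' hw' => ?_⟩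
      show Pool.Agent.Y164.HG.FF D A B d ws w' + lam ws * lam w' = 0
      rw [hwslam, h0, one_mul, F2_add_self]
    have hψs : Function.Surjective ψ := by
      intro y
      rcases F2_cases y with rfl | rfl
      · exact ⟨0, map_zero ψ⟩
      · exact ⟨⟨ws, hws1⟩, h0⟩
    have hc2 : Nat.card K1 = 2 * Nat.card ψ.ker := by
      rw [AddSubgroup.card_eq_card_quotient_mul_card_addSubgroup ψ.ker,
        Nat.card_congr (QuotientAddGroup.quotientKerEquivOfSurjective ψ hψs).toEquiv]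
      simp
    have hK2 : Nat.card ψ.ker = Nat.card {x : φ.ker // ∀ y : φ.ker,
        Pool.Agent.Y164.HG.FF D A B d x y = 0} := by
      refine Nat.card_congr ⟨fun x => ⟨⟨x.1.1, x.1.2.1⟩, ?_⟩, fun x => ⟨⟨x.1.1, x.1.2, ?_⟩, ?_⟩, ?_, ?_⟩
      · intro y
        have h1 : Pool.Agent.Y164.HG.FF D A B d x.1.1 y + lam x.1.1 * lam y = 0 := x.1.2.2 y.1 y.2
        have h2 : lam x.1.1 = 0 := x.2
        rw [h2, zero_mul, add_zero] at h1
        exact h1
      · intro w' hw'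
        show Pool.Agent.Y164.HG.FF D A B d x.1.1 w' + lam x.1.1 * lam w' = 0
        rw [hlK x.1 x.2, zero_mul, add_zero]
        exact x.2 ⟨w', hw'⟩
      · exact hlK x.1 x.2
      · intro x
        rfl
      · intro x
        rfl
    refine ⟨r + g, g * Fintype.card ι, ?_⟩
    have hne : ∑ s, D.sp s ≠ 0 := by
      rw [ho]
      decide
    rw [if_neg hne, hK, ← hK2, ← hcV, hc, hr, hK1, hc2, pow_add]
    ring

theorem pow_four' {c a b : ℕ} (h : c * 4 ^ a = 4 ^ b) : ∃ e, c = 4 ^ e := by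
  have h1 : c ∣ 2 ^ (2 * b) := by
    rw [pow_mul]
    exact ⟨4 ^ a, by rw [h]; norm_num⟩
  obtain ⟨m, hm, rfl⟩ := (Nat.dvd_prime_pow Nat.prime_two).1 h1
  have h2 : (2 : ℕ) ^ (m + 2 * a) = 2 ^ (2 * b) := by
    rw [pow_add, pow_mul, pow_mul]
    exact h
  have h3 := Nat.pow_right_injective le_rfl h2
  obtain ⟨e, he⟩ : ∃ e, m = 2 * e := ⟨b - a, by omega⟩
  exact ⟨e, by rw [he, pow_mul]; norm_num⟩

theorem kc_good [Finite W] (hA : ∀ i j, A i j = A j i) (hN : ∑ i, d i + D.N = 1)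
    (hsp : (Fintype.card τ : F2) = ∑ s, D.sp s) : ∃ e, kc D A B d = 4 ^ e := by
  obtain ⟨a, b, h⟩ := kc_par D B d hA hN
  rcases Nat.even_or_odd (Fintype.card τ) with he | ho
  · have h0 : ∑ s, D.sp s = 0 := by rw [← hsp]; exact (ZMod.natCast_eq_zero_iff_even).2 he
    rw [if_pos h0, mul_one] at h
    obtain ⟨j, hj⟩ := he
    apply pow_four' (a := a) (b := b + j)
    rw [h, hj, pow_add, pow_add, ← mul_pow]
    norm_num
  · have h0 : ∑ s, D.sp s = 1 := by rw [← hsp]; exact (ZMod.natCast_eq_one_iff_odd).2 ho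
    have hne : ∑ s, D.sp s ≠ 0 := by rw [h0]; decide
    rw [if_neg hne] at h
    obtain ⟨j, hj⟩ := ho
    apply pow_four' (a := a) (b := b + j)
    rw [hj, pow_succ, pow_mul] at h
    have h4 : (2 : ℕ) ^ 2 = 4 := by norm_num
    rw [h4] at h
    rw [pow_add]
    have h5 : 2 * (kc D A B d * 4 ^ a) = 2 * (4 ^ b * 4 ^ j) := by linarith
    omega

theorem kc_bad [Finite W] (hA : ∀ i j, A i j = A j i) (hN : ∑ i, d i + D.N = 1)
    (hsp : (Fintype.card τ : F2) ≠ ∑ s, D.sp s) : kc D A B d ≠ 1 := by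
  obtain ⟨a, b, h⟩ := kc_par D B d hA hN
  intro h1
  rw [h1, one_mul] at h
  have h4 : (4 : ℕ) = 2 ^ 2 := by norm_num
  rw [h4, ← pow_mul, ← pow_mul, ← pow_add] at h
  rcases F2_cases (∑ s, D.sp s) with h0 | h0
  · rw [if_pos h0, one_mul] at h
    have h3 := Nat.pow_right_injective le_rfl h
    apply hsp
    rw [h0]
    exact (ZMod.natCast_eq_zero_iff_even).2 (by
      rw [Nat.even_iff]
      omega)
  · have hne : ∑ s, D.sp s ≠ 0 := by rw [h0]; decide
    rw [if_neg hne, ← pow_succ'] at h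
    have h3 := Nat.pow_right_injective le_rfl h
    apply hsp
    rw [h0]
    exact (ZMod.natCast_eq_one_iff_odd).2 (by
      rw [Nat.odd_iff]
      omega)

end kc

section card
variable {W : Type} [AddCommGroup W] [Module Pool.Agent.Y164.HG.F2 W] [Pool.Agent.Y164.HG.Symp W]
  [Fintype W]
variable {ι τ : Type} [Fintype ι] [Fintype τ]

theorem ker_kc (D : Pool.Agent.Y164.HG.Dat W τ) (A : ι → ι → ZMod 2) (B : ι → τ → ZMod 2)
    (d : ι → ZMod 2) : Nat.card (Pool.Agent.Y164.SZ.KerP (tF D) A B d) =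
      Pool.Agent.Y164.HG.kc D A B d := by
  refine Nat.card_congr ⟨fun x => ⟨x.1, x.2.1, fun w' hw' => ?_⟩,
    fun x => ⟨x.1, x.2.1, fun w' hw' => ?_⟩, fun _ => rfl, fun _ => rfl⟩
  · rw [← tF_FF]
    exact x.2.2 w' hw'
  · rw [tF_FF]
    exact x.2.2 w' hw'

theorem isUnit_two {x : ZMod 2} (h : IsUnit x) : x = 1 := by
  rcases F2_cases x with h1 | h1
  · rw [h1] at h
    exact absurd h (by decide)
  · exact h1

theorem triv_card {ℓ : ℕ} [Fact ℓ.Prime] {W : Type} [AddCommGroup W] [Module (ZMod ℓ) W]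
    (D : Pool.Agent.Y164.SZ.FDat ℓ W τ) (A : ι → ι → ZMod ℓ) (B : ι → τ → ZMod ℓ)
    (d : ι → ZMod ℓ) : Pool.Agent.Y164.SZ.Triv D A B d ↔
      Nat.card (Pool.Agent.Y164.SZ.KerP D A B d) = 1 := by
  rw [Nat.card_eq_one_iff_unique]
  constructor
  · intro h
    refine ⟨⟨fun x y => Subtype.ext ?_⟩, ⟨0⟩⟩
    rw [h x.1 x.2.1 x.2.2, h y.1 y.2.1 y.2.2]
  · rintro ⟨h, -⟩ w h1 h2
    exact congrArg Subtype.val (h.elim ⟨w, h1, h2⟩ 0)

/-- the bounds in the classes with the right parity -/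
theorem san_two {K : ℕ} (hK : Odd K) : ∃ l u : ℕ → ℝ,
    ∑ j ∈ range (K + 1 + 1), l j * aj j = gK K ∧
    ∑ j ∈ range (K + 1 + 1), u j * aj j = gK (K + 1) ∧
    ∀ (W τ : Type) [AddCommGroup W] [Module (ZMod 2) W] [Fintype W] [Fintype τ]
      (D : Pool.Agent.Y164.SZ.FDat 2 W τ), (∀ (ι : Type) [Fintype ι] (A : ι → ι → ZMod 2)
        (B : ι → τ → ZMod 2) (d : ι → ZMod 2), (∀ i j, A i j = A j i) →
        IsUnit (∑ i, d i + D.N) → ∃ e, Nat.card (Pool.Agent.Y164.SZ.KerP D A B d) = 4 ^ e) →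
      San l u (K + 1) D := by
  obtain ⟨l, hl1, hl2⟩ := exp_val (K + 1) (fK K) ((fK_deg K).trans (Nat.le_succ K))
  obtain ⟨u, hu1, hu2⟩ := exp_val (K + 1) (fK (K + 1)) (fK_deg (K + 1))
  refine ⟨l, u, by rw [hl2, Lf_fK], by rw [hu2, Lf_fK], ?_⟩
  intro W τ _ _ _ _ D hker ι _ A B d hA hN
  obtain ⟨e, he⟩ := hker ι A B d hA hN
  have hcard : (Nat.card (Pool.Agent.Y164.SZ.KerP D A B d) : ℝ) = 4 ^ e := by
    rw [he]
    push_cast
    rfl
  have h1 : ∀ v : ℕ → ℝ, ∑ j ∈ range (K + 1 + 1), v j *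
      (Pool.Agent.Y164.SZ.kLI D A B d j : ℝ) =
      ∑ j ∈ range (K + 1 + 1), v j * ∏ i ∈ range j, ((4 : ℝ) ^ e - (2 : ℝ) ^ i) := by
    intro v
    refine sum_congr rfl fun j _ => ?_
    rw [Pool.Agent.Y164.SZ.kLI_eq, hcard]
    push_cast
    rfl
  have h2 : (if Pool.Agent.Y164.SZ.Triv D A B d then (1 : ℝ) else 0) =
      if e = 0 then (1 : ℝ) else 0 := by
    have h3 : Pool.Agent.Y164.SZ.Triv D A B d ↔ e = 0 := by
      rw [triv_card, he]
      constructor
      · intro h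
        by_contra hne
        have : 1 < 4 ^ e := Nat.one_lt_pow hne (by norm_num)
        omega
      · rintro rfl
        rfl
    simp only [h3]
  rw [h1, h1, hl1, hu1, h2, fK_eval, fK_eval]
  have b1 := Pool.Agent.Y164.SZ.bon (show (1 : ℝ) < 4 by norm_num) hK e
  have b2 := bon_up (show (1 : ℝ) < 4 by norm_num) hK.add_one e
  rw [Pool.Agent.Y164.SZ.bon_id (show (1 : ℝ) < 4 by norm_num)] at b1 b2
  exact ⟨b1, b2⟩

/-- the bounds when the kernel is never trivial -/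
theorem san_zero (K : ℕ) {W τ : Type} [AddCommGroup W] [Module (ZMod 2) W] [Fintype W] [Fintype τ]
    (D : Pool.Agent.Y164.SZ.FDat 2 W τ)
    (hker : ∀ (ι : Type) [Fintype ι] (A : ι → ι → ZMod 2)
        (B : ι → τ → ZMod 2) (d : ι → ZMod 2), (∀ i j, A i j = A j i) →
        IsUnit (∑ i, d i + D.N) → ¬ Pool.Agent.Y164.SZ.Triv D A B d) :
    San (fun _ => 0) (fun _ => 0) K D := by
  intro ι _ A B d hA hN
  rw [if_neg (hker ι A B d hA hN)]
  simp only [zero_mul, sum_const_zero, le_refl, and_self]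

theorem card_AS_two (j : ℕ) : ((Pool.Agent.Y164.SZ.AS 2 j).card : ℝ) = aj j := by
  have hneg : ∀ x : ZMod 2, -x = x := by decide
  have h1 : (Pool.Agent.Y164.SZ.AS 2 j).card =
      Fintype.card {A : Fin j → Fin j → ZMod 2 // ∀ a b, A a b = A b a} := by
    rw [Fintype.card_subtype, Pool.Agent.Y164.SZ.AS]
    congr 1
    ext A
    simp only [mem_filter, mem_univ, true_and, hneg]
  rw [h1, Fintype.card_congr (Sym2.lift (α := Fin j) (β := ZMod 2)), Fintype.card_fun, ZMod.card,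
    Sym2.card, Fintype.card_fin, Nat.choose_two_right, aj]
  push_cast
  congr 1
  rw [mul_comm]

end card

end Pool.Agent.Q269.MF
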