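import Pool.Agent.Q269.MF.Cf
import Pool.Agent.Y164.SZ.Fin2

/-!
# Several families at the same time: averages over tuples of primes
-/

set_option autoImplicit false
set_option linter.all false

namespace Pool.Agent.Q269.MF

open Finset Polynomial
open Pool.Agent.Y164.SZ
open Pool.Agent.Y164.PS (coprime_of_not_dvd)
open scoped Classical

section abs
variable {ℓ : ℕ} [hp : Fact ℓ.Prime] {k : Type} [Field k] [Fintype k] [DecidableEq k]
variable {ι τ : Type} [Fintype ι] [Fintype τ]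
variable {Q : τ → k[X]} {𝒞 : ι → Finset k[X]} {lg : Finset ι} {Nd : ℕ} {η : ℝ}
  (hc : Cell ℓ Q 𝒞 lg Nd η)

include hc in
/-- cancellation in one variable -/
theorem inner_abs {T : ι → k[X]} (hT : T ∈ Fintype.piFinset 𝒞) {j : ι} (hj : j ∈ lg)
    (Φ : k[X] → ZMod ℓ) (Φ0 : ZMod ℓ) (cc : ι ⊕ τ → ZMod ℓ) (hcj : cc (Sum.inl j) = 0)
    (hcne : ∃ x, cc x ≠ 0)
    (hsplit : ∀ p, Φ p = Φ0 + ∑ x, cc x * L ℓ (Sum.elim T Q x) p) :
    ‖∑ p ∈ 𝒞 j, (if ok Q (Function.update T j p) then eC (Φ p) else 0)‖ ≤ η * (𝒞 j).card := by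
  have hTm : ∀ i, T i ∈ 𝒞 i := Fintype.mem_piFinset.1 hT
  by_cases hok : ∃ p0 ∈ 𝒞 j, ok Q (Function.update T j p0)
  swap
  · push Not at hok
    rw [sum_eq_zero (fun p hp => if_neg (hok p hp)), norm_zero]
    exact mul_nonneg hc.eta0 (Nat.cast_nonneg _)
  obtain ⟨p0, hp0, hok0⟩ := hok
  set R : ι ⊕ τ → k[X] := Sum.elim T Q with hR
  have hRm : ∀ x, (R x).Monic := by
    rintro (i | s)
    · exact hc.mon i _ (hTm i)
    · exact hc.Qm s
  have hRi : ∀ x, Irreducible (R x) := by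
    rintro (i | s)
    · exact hc.irr i _ (hTm i)
    · exact hc.Qi s
  have hup : ∀ p, ∀ x, x ≠ Sum.inl j → Sum.elim (Function.update T j p) Q x = R x := by
    rintro p (i | s) hx
    · have : i ≠ j := fun h => hx (by rw [h])
      show Function.update T j p i = T i
      exact Function.update_of_ne this _ _
    · rfl
  have hupj : ∀ p, Sum.elim (Function.update T j p) Q (Sum.inl j) = p := fun p => by
    show Function.update T j p j = p
    exact Function.update_self _ _ _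
  have hinj : ∀ x y, x ≠ Sum.inl j → y ≠ Sum.inl j → R x = R y → x = y := by
    intro x y hx hy h
    apply hok0
    rw [hup p0 x hx, hup p0 y hy, h]
  set E : Finset k[X] := (univ.erase (Sum.inl j)).image R with hE
  have hokp : ∀ p, ok Q (Function.update T j p) ↔ p ∉ E := by
    intro p
    constructor
    · intro h hp
      rw [hE, mem_image] at hp
      obtain ⟨x, hx, hxp⟩ := hp
      have hx' := ne_of_mem_erase hx
      apply hx'
      apply h
      rw [hup p x hx', hupj, hxp]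
    · intro hp x y hxy
      by_cases hx : x = Sum.inl j
      · by_cases hy : y = Sum.inl j
        · rw [hx, hy]
        · exfalso
          apply hp
          rw [hx, hupj, hup p y hy] at hxy
          rw [hE, mem_image]
          exact ⟨y, mem_erase.2 ⟨hy, mem_univ _⟩, hxy.symm⟩
      · by_cases hy : y = Sum.inl j
        · exfalso
          apply hp
          rw [hy, hupj, hup p x hx] at hxy
          rw [hE, mem_image]
          exact ⟨x, mem_erase.2 ⟨hx, mem_univ _⟩, hxy⟩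
        · rw [hup p x hx, hup p y hy] at hxy
          exact hinj x y hx hy hxy
  set S : Finset (ι ⊕ τ) := univ.filter fun x => cc x ≠ 0 with hS
  have hSj : ∀ x ∈ S, x ≠ Sum.inl j := by
    rintro x hx rfl
    exact (mem_filter.1 hx).2 hcj
  have hSne : S.Nonempty := by
    obtain ⟨x, hx⟩ := hcne
    exact ⟨x, mem_filter.2 ⟨mem_univ _, hx⟩⟩
  obtain ⟨n, hn⟩ : ∃ n : ι ⊕ τ → ℕ, n = fun x => (cc x).val := ⟨_, rfl⟩
  have hnc : ∀ x, (n x : ZMod ℓ) = cc x := by
    intro x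
    rw [hn]
    show (((cc x).val : ℕ) : ZMod ℓ) = _
    rw [ZMod.natCast_val, ZMod.cast_id', id]
  have hnl : ∀ x, n x < ℓ := fun x => by rw [hn]; exact ZMod.val_lt _
  have hn0 : ∀ x ∈ S, 0 < n x ∧ n x < ℓ := by
    intro x hx
    refine ⟨Nat.pos_of_ne_zero ?_, hnl x⟩
    intro h0
    apply (mem_filter.1 hx).2
    rw [← hnc, h0, Nat.cast_zero]
  set M : k[X] := ∏ x ∈ S, R x ^ n x with hM
  have hMm : M.Monic := monic_prod_of_monic _ _ fun x _ => (hRm x).pow _
  have hMns : ∀ (c : k) (h : k[X]), M ≠ C c * h ^ ℓ := fun c h =>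
    prod_not_pow ℓ S hSne R n hn0 (fun x _ => hRm x) (fun x _ => hRi x)
      (fun x hx y hy => hinj x y (hSj x hx) (hSj y hy)) c h
  have hMd : M.natDegree = ∑ x ∈ S, n x * (R x).natDegree := by
    rw [hM, natDegree_prod_of_monic _ _ fun x _ => (hRm x).pow _]
    exact sum_congr rfl fun x _ => (hRm x).natDegree_pow _
  have hM1 : 1 ≤ M.natDegree := by
    obtain ⟨x, hx⟩ := hSne
    rw [hMd]
    calc 1 ≤ n x * (R x).natDegree := Nat.mul_pos (hn0 x hx).1 (hRi x).natDegree_pos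
      _ ≤ _ := single_le_sum (f := fun x => n x * (R x).natDegree) (fun _ _ => Nat.zero_le _) hx
  have hMN : M.natDegree ≤ Nd := by
    rw [hMd]
    calc ∑ x ∈ S, n x * (R x).natDegree ≤ ∑ x, n x * (R x).natDegree :=
          sum_le_sum_of_subset (subset_univ _)
      _ ≤ ∑ x, ℓ * (R x).natDegree := sum_le_sum fun x _ => Nat.mul_le_mul_right _ (hnl x).le
      _ = ℓ * (∑ i, (T i).natDegree + ∑ s, (Q s).natDegree) := by
          rw [← mul_sum, Fintype.sum_sum_type]; rfl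
      _ ≤ Nd := hc.deg T hT
  have hval : ∀ p ∈ 𝒞 j, p ∉ E → eC (Φ p) = eC Φ0 * lc ℓ M p := by
    intro p hp hpE
    have hpi := hc.irr j p hp
    have hpm := hc.mon j p hp
    have hcop : ∀ x ∈ S, IsCoprime (R x) p := by
      intro x hx
      apply coprime_of_not_dvd hpi
      intro hd
      apply hpE
      rw [hE, mem_image]
      refine ⟨x, mem_erase.2 ⟨hSj x hx, mem_univ _⟩, ?_⟩
      exact (eq_of_monic_of_associated hpm (hRm x) (hpi.associated_of_dvd (hRi x) hd)).symm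
    rw [hsplit, eC_add]
    congr 1
    have h1 : ∑ x : ι ⊕ τ, cc x * L ℓ (R x) p = ∑ x ∈ S, L ℓ (R x ^ n x) p := by
      rw [hS, sum_filter]
      refine sum_congr rfl fun x _ => ?_
      split_ifs with h
      · rw [L_pow hc.S hpi.ne_zero (hRm x).ne_zero (hcop x (mem_filter.2 ⟨mem_univ _, h⟩)), hnc]
      · push Not at h
        rw [h, zero_mul]
    rw [h1, ← hc.S.L_prod_left _ _ _ _ hpi.ne_zero (fun x _ => ((hRm x).pow _).ne_zero)
      (fun x hx => (hcop x hx).pow_left), hc.S.lc_cop _ _ hpi.ne_zero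
      (IsCoprime.prod_left fun x hx => (hcop x hx).pow_left)]
    rfl
  have h1 : ∑ p ∈ 𝒞 j, (if ok Q (Function.update T j p) then eC (Φ p) else 0) =
      eC Φ0 * (∑ p ∈ 𝒞 j, lc ℓ M p -
        ∑ p ∈ (𝒞 j).filter (fun p => p ∈ E), lc ℓ M p) := by
    rw [sum_filter, ← sum_sub_distrib, mul_sum]
    refine sum_congr rfl fun p hp => ?_
    by_cases hpE : p ∈ E
    · rw [if_neg (fun h => (hokp p).1 h hpE), if_pos hpE, sub_self, mul_zero]
    · rw [if_pos ((hokp p).2 hpE), if_neg hpE, hval p hp hpE, sub_zero]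
  rw [h1, norm_mul, norm_eC, one_mul]
  refine (norm_sub_le _ _).trans (le_trans ?_ (hc.eta j hj M hMm hM1 hMN hMns))
  apply add_le_add le_rfl
  refine (norm_sum_le _ _).trans ?_
  calc ∑ p ∈ (𝒞 j).filter (fun p => p ∈ E), ‖lc ℓ M p‖
      ≤ ∑ p ∈ (𝒞 j).filter (fun p => p ∈ E), (1 : ℝ) := sum_le_sum fun p hp =>
        norm_lc_le hc.S (hc.irr j p (mem_filter.1 hp).1).ne_zero
    _ = (((𝒞 j).filter (fun p => p ∈ E)).card : ℝ) := by simp
    _ ≤ ((univ : Finset (ι ⊕ τ)).card : ℝ) := by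
        have h2 : ((𝒞 j).filter (fun p => p ∈ E)).card ≤ E.card :=
          card_le_card fun p hp => (mem_filter.1 hp).2
        have h3 : E.card ≤ (univ : Finset (ι ⊕ τ)).card :=
          card_image_le.trans (card_le_card (erase_subset _ _))
        exact_mod_cast h2.trans h3
    _ = _ := by
        rw [card_univ, Fintype.card_sum]
        push_cast
        rfl

/-- from one variable to all -/
theorem outer_abs (F : (ι → k[X]) → ℂ) {j : ι}
    (h : ∀ T ∈ Fintype.piFinset 𝒞, ‖∑ p ∈ 𝒞 j, F (Function.update T j p)‖ ≤ η * (𝒞 j).card) :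
    ‖∑ T ∈ Fintype.piFinset 𝒞, F T‖ ≤ η * (Fintype.piFinset 𝒞).card := by
  rcases (𝒞 j).eq_empty_or_nonempty with he | hne
  · have : Fintype.piFinset 𝒞 = ∅ := by
      rw [Fintype.piFinset_eq_empty]
      exact ⟨j, he⟩
    rw [this]
    simp
  · have hpos : (0 : ℝ) < (𝒞 j).card := by exact_mod_cast card_pos.2 hne
    have h1 := sum_updateC 𝒞 j F
    have h2 : ‖((𝒞 j).card : ℂ) * ∑ T ∈ Fintype.piFinset 𝒞, F T‖
        ≤ ∑ T ∈ Fintype.piFinset 𝒞, η * (𝒞 j).card := by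
      rw [h1]
      exact (norm_sum_le _ _).trans (sum_le_sum h)
    rw [norm_mul, Complex.norm_natCast, sum_const, nsmul_eq_mul] at h2
    have h3 : ((𝒞 j).card : ℝ) * ‖∑ T ∈ Fintype.piFinset 𝒞, F T‖
        ≤ (𝒞 j).card * (η * (Fintype.piFinset 𝒞).card) := by
      linarith
    exact le_of_mul_le_mul_left h3 hpos

end abs

section multi
variable {ℓ : ℕ} [hp : Fact ℓ.Prime] {k : Type} [Field k] [Fintype k] [DecidableEq k]
variable {R : Type} [Fintype R] [DecidableEq R] {W : R → Type}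
  [∀ r, AddCommGroup (W r)] [∀ r, Module (ZMod ℓ) (W r)]
variable {τ : R → Type} [∀ r, Fintype (τ r)] (D : (r : R) → FDat ℓ (W r) (τ r))
variable {ι : Type} [Fintype ι]

/-- the bad primes of one family -/
def Qr (Q : (Σ r, τ r) → k[X]) (r : R) (s : τ r) : k[X] := Q ⟨r, s⟩

/-- the phase -/
noncomputable def PhM (Q : (Σ r, τ r) → k[X]) (d : ι → ZMod ℓ) (T : ι → k[X]) {m : R → ℕ}
    (c : CM ℓ W ι τ m) : ZMod ℓ := ∑ r, Ph (D r) (Qr Q r) d T (c r)

/-- the coefficients -/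
noncomputable def cfM {m : R → ℕ} (c : CM ℓ W ι τ m) (j : ι) : ι ⊕ (Σ r, τ r) → ZMod ℓ :=
  Sum.elim (fun i => if i = j then 0 else - Qm D (lac c i - lac c j))
    (fun x => ee (D x.1) x.2 (zet (c x.1).1 (c x.1).2.1 x.2) (lab (c x.1).1 (c x.1).2.1 j) +
      (c x.1).2.2 x.2)

theorem PhM_split (S : SYM0 ℓ k) (Q : (Σ r, τ r) → k[X]) (d : ι → ZMod ℓ) (T : ι → k[X]) (j : ι)
    {m : R → ℕ} (c : CM ℓ W ι τ m) (p : k[X]) :
    PhM D Q d (Function.update T j p) c = ∑ r, PhR (D r) (Qr Q r) d T j (c r) +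
      ∑ x : ι ⊕ (Σ r, τ r), cfM D c j x * L ℓ (Sum.elim T Q x) p := by
  rw [PhM, sum_congr rfl fun r _ => Ph_split S (D r) (Qr Q r) d T j (c r) p, sum_add_distrib]
  congr 1
  rw [Fintype.sum_sum_type, Fintype.sum_sigma]
  have h1 : ∀ r, ∑ x : ι ⊕ τ r, cf (D r) (c r) j x * L ℓ (Sum.elim T (Qr Q r) x) p =
      ∑ i, cf (D r) (c r) j (Sum.inl i) * L ℓ (T i) p +
      ∑ s, cf (D r) (c r) j (Sum.inr s) * L ℓ (Q ⟨r, s⟩) p := by
    intro r
    rw [Fintype.sum_sum_type]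
    rfl
  rw [sum_congr rfl fun r _ => h1 r, sum_add_distrib]
  congr 1
  rw [sum_comm]
  refine sum_congr rfl fun i _ => ?_
  rw [← sum_mul]
  congr 1
  show ∑ r, (if i = j then (0 : ZMod ℓ) else
      - Oq (D r) (lab (c r).1 (c r).2.1 i - lab (c r).1 (c r).2.1 j)) =
    if i = j then 0 else - Qm D (lac c i - lac c j)
  split_ifs with h
  · exact sum_const_zero
  · rw [sum_neg_distrib, Qm]
    rfl

variable {Q : (Σ r, τ r) → k[X]} {d : ι → ZMod ℓ} {𝒞 : ι → Finset k[X]} {lg : Finset ι}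
  {Nd : ℕ} {η : ℝ} (hc : Cell ℓ Q 𝒞 lg Nd η) {m : R → ℕ}

include hc in
theorem outer_m (c : CM ℓ W ι τ m) {j : ι} (hj : j ∈ lg) (hbad : Bd D c j) :
    ‖∑ T ∈ Fintype.piFinset 𝒞, (if ok Q T then eC (PhM D Q d T c) else 0)‖ ≤
      η * (Fintype.piFinset 𝒞).card := by
  apply outer_abs (fun T => if ok Q T then eC (PhM D Q d T c) else 0) (j := j)
  intro T hT
  refine inner_abs hc hT hj (fun p => PhM D Q d (Function.update T j p) c) _ (cfM D c j) ?_ ?_
    (fun p => PhM_split D hc.S Q d T j c p)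
  · exact if_pos rfl
  · rcases hbad with ⟨i, hij, h⟩ | ⟨r, s, h⟩
    · refine ⟨Sum.inl i, ?_⟩
      show (if i = j then (0 : ZMod ℓ) else - Qm D (lac c i - lac c j)) ≠ 0
      rw [if_neg hij]
      exact neg_ne_zero.2 h
    · exact ⟨Sum.inr ⟨r, s⟩, h⟩

omit [DecidableEq R] in
theorem norm_m_le (c : CM ℓ W ι τ m) :
    ‖∑ T ∈ Fintype.piFinset 𝒞, (if ok Q T then eC (PhM D Q d T c) else 0)‖ ≤
      (Fintype.piFinset 𝒞).card := by
  refine (norm_sum_le _ _).trans ?_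
  rw [← nsmul_one, ← sum_const]
  apply sum_le_sum
  intro T _
  split_ifs
  · rw [norm_eC]
  · simp

/-- the class condition for all families -/
def clM (Q : (Σ r, τ r) → k[X]) (T : ι → k[X]) : Prop := ∀ r, cl (D r) (Qr Q r) T

variable [∀ r, Fintype (W r)]

/-- the moments -/
noncomputable def SSm (Q : (Σ r, τ r) → k[X]) (d : ι → ZMod ℓ) (𝒞 : ι → Finset k[X])
    (m : R → ℕ) : ℝ :=
  ∑ T ∈ Fintype.piFinset 𝒞, (if ok Q T ∧ clM D Q T then
    ∏ r, (kLI (D r) (AT ℓ T) (BT ℓ (Qr Q r) T) d (m r) : ℝ) else 0)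

/-- the volume -/
noncomputable def VV (D : (r : R) → FDat ℓ (W r) (τ r)) (d : ι → ZMod ℓ) (m : R → ℕ) : ℝ :=
  ∏ r, (((V0s (D r) d : Finset (V ℓ (W r) ι (τ r))).card : ℝ) ^ m r)

end multi

theorem F2_add_self' (x : ZMod 2) : x + x = 0 := by
  revert x
  decide

section single
variable {ℓ : ℕ} [hp : Fact ℓ.Prime] {k : Type} [Field k] [Fintype k] [DecidableEq k]
variable {W : Type} [AddCommGroup W] [Module (ZMod ℓ) W] [Fintype W]
variable {ι τ : Type} [Fintype ι] [Fintype τ]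

/-- orthogonality for one tuple -/
theorem orth_T (S : SYM0 ℓ k) (D : FDat ℓ W τ) (Q : τ → k[X]) (d : ι → ZMod ℓ) (T : ι → k[X])
    (m : ℕ) :
    (((if cl D Q T then (kLI D (AT ℓ T) (BT ℓ Q T) d m : ℝ) else 0 : ℝ)) : ℂ) *
      (((V0s D d : Finset (V ℓ W ι τ)).card : ℂ) ^ m * (ℓ : ℂ) ^ Fintype.card τ) =
    ∑ c ∈ Om D d m, eC (Ph D Q d T c) := by
  have h2 := orth3 (ℓ := ℓ) (τ := τ) (fun s => D.sp s + ∑ i, BT ℓ Q T i s + D.g s)
  have h3 := orth2 D (BT ℓ Q T) d (AT_comm S T) m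
  have h4 : (((if cl D Q T then (kLI D (AT ℓ T) (BT ℓ Q T) d m : ℝ) else 0 : ℝ)) : ℂ) *
      (((V0s D d).card : ℂ) ^ m * (ℓ : ℂ) ^ Fintype.card τ) =
      ((kLI D (AT ℓ T) (BT ℓ Q T) d m : ℂ) * ((V0s D d).card : ℂ) ^ m) *
      (if (∀ s, D.sp s + ∑ i, BT ℓ Q T i s + D.g s = 0) then (ℓ : ℂ) ^ Fintype.card τ else 0) := by
    by_cases h5 : cl D Q T
    · have h6 : ∀ s, D.sp s + ∑ i, BT ℓ Q T i s + D.g s = 0 := h5
      rw [if_pos h5, if_pos h6, Complex.ofReal_natCast]; ring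
    · have h6 : ¬ ∀ s, D.sp s + ∑ i, BT ℓ Q T i s + D.g s = 0 := h5
      rw [if_neg h5, if_neg h6, Complex.ofReal_zero]; ring
  rw [h4, h2, h3, sum_Om, sum_mul]
  refine sum_congr rfl fun w _ => ?_
  rw [sum_mul]
  refine sum_congr rfl fun w' _ => ?_
  rw [mul_sum]
  refine sum_congr rfl fun U _ => ?_
  rw [← eC_add]
  rfl

/-- the phases of the main configurations -/
theorem Ph_Mp (S : SYM0 ℓ k) (D : FDat ℓ W τ) (Q : τ → k[X]) (d : ι → ZMod ℓ) (T : ι → k[X])
    {m : ℕ} (hdg : ℓ = 2 → ∀ w : V ℓ W ι τ, dg D d w = 0 →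
      FF D (AT ℓ T) (BT ℓ Q T) d w w = FF D (AT ℓ T) (BT ℓ Q T) d w wz)
    (c : CF ℓ W ι τ m) (hw : ∀ a, dg D d (c.1 a) = 0) (h : Mp c) :
    Ph D Q d T c = 0 := by
  obtain ⟨⟨A, hA, h3⟩, h4⟩ := h
  have hA' := (mem_filter.1 hA).2
  rw [Ph, h4, h3]
  simp only [Pi.zero_apply, zero_mul, sum_const_zero, add_zero]
  have hsym := AT_comm S T
  have e1 : ∀ a, FF D (AT ℓ T) (BT ℓ Q T) d (c.1 a) (∑ b, A a b • c.1 b + A a a • wz) =
      ∑ b, A a b * FF D (AT ℓ T) (BT ℓ Q T) d (c.1 a) (c.1 b) +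
        A a a * FF D (AT ℓ T) (BT ℓ Q T) d (c.1 a) wz := by
    intro a
    rw [← FB_apply D (AT ℓ T) (BT ℓ Q T) d hsym, map_add, map_sum]
    congr 1
    · refine sum_congr rfl fun b _ => ?_
      rw [map_smul, smul_eq_mul, FB_apply]
    · rw [map_smul, smul_eq_mul, FB_apply]
  rw [sum_congr rfl fun a _ => e1 a, sum_add_distrib]
  by_cases h2 : ℓ = 2
  · have e2 : ∑ a, A a a * FF D (AT ℓ T) (BT ℓ Q T) d (c.1 a) wz =
        ∑ a, A a a * FF D (AT ℓ T) (BT ℓ Q T) d (c.1 a) (c.1 a) :=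
      sum_congr rfl fun a _ => by rw [hdg h2 _ (hw a)]
    rw [e2]
    have hchar : ∀ x : ZMod ℓ, x + x = 0 := by
      subst h2
      exact F2_add_self'
    obtain ⟨f, hf⟩ : ∃ f : Fin m → Fin m → ZMod ℓ,
        f = fun a b => A a b * FF D (AT ℓ T) (BT ℓ Q T) d (c.1 a) (c.1 b) := ⟨_, rfl⟩
    have hfs : ∀ a b, f a b = f b a := by
      intro a b
      rw [hf]
      show A a b * FF D (AT ℓ T) (BT ℓ Q T) d (c.1 a) (c.1 b) =
        A b a * FF D (AT ℓ T) (BT ℓ Q T) d (c.1 b) (c.1 a)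
      rw [FF_comm D _ _ d hsym (c.1 b), hA' b a, neg_eq_of_add_eq_zero_left (hchar (A a b))]
    have e3 : ∑ a, ∑ b, f a b = ∑ a, f a a := by
      have e4 : ∑ a, ∑ b, (if a = b then 0 else f a b) = 0 := by
        rw [← sum_product']
        refine sum_involution (fun p _ => (p.2, p.1)) ?_ ?_ ?_ ?_
        · rintro ⟨i, j⟩ _
          show (if i = j then 0 else f i j) + (if j = i then 0 else f j i) = 0
          by_cases hij : i = j
          · rw [if_pos hij, if_pos hij.symm, add_zero]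
          · rw [if_neg hij, if_neg (Ne.symm hij), hfs j i]
            exact hchar _
        · rintro ⟨i, j⟩ _ hne h
          simp only [Prod.mk.injEq] at h
          apply hne
          show (if i = j then 0 else f i j) = 0
          rw [if_pos h.2]
        · intro _ _
          exact mem_univ _
        · rintro ⟨i, j⟩ _
          rfl
      have e5 : ∀ a, ∑ b, f a b = ∑ b, (if a = b then 0 else f a b) + f a a := by
        intro a
        rw [← add_sum_erase univ (fun b => if a = b then 0 else f a b) (mem_univ a), if_pos rfl,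
          zero_add, ← add_sum_erase univ (fun b => f a b) (mem_univ a), add_comm]
        congr 1
        exact sum_congr rfl fun b hb => (if_neg (ne_of_mem_erase hb).symm).symm
      rw [sum_congr rfl fun a _ => e5 a, sum_add_distrib, e4, zero_add]
    have e6 : ∑ a, ∑ b, A a b * FF D (AT ℓ T) (BT ℓ Q T) d (c.1 a) (c.1 b) =
        ∑ a, A a a * FF D (AT ℓ T) (BT ℓ Q T) d (c.1 a) (c.1 a) := by
      have := e3
      rw [hf] at this
      exact this
    rw [e6]
    exact hchar _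
  · have e0 : ∑ a, A a a * FF D (AT ℓ T) (BT ℓ Q T) d (c.1 a) wz = 0 := by
      apply sum_eq_zero
      intro a _
      rw [AS_diag hA h2, zero_mul]
    rw [e0, add_zero]
    have e2 : ∑ a, ∑ b, A a b * FF D (AT ℓ T) (BT ℓ Q T) d (c.1 a) (c.1 b) =
        - ∑ a, ∑ b, A a b * FF D (AT ℓ T) (BT ℓ Q T) d (c.1 a) (c.1 b) := by
      conv_lhs => rw [sum_comm]
      rw [← sum_neg_distrib]
      refine sum_congr rfl fun a _ => ?_
      rw [← sum_neg_distrib]
      refine sum_congr rfl fun b _ => ?_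
      rw [hA' b a, FF_comm D _ _ d hsym (c.1 b)]
      ring
    have e3 : (2 : ZMod ℓ) * ∑ a, ∑ b, A a b * FF D (AT ℓ T) (BT ℓ Q T) d (c.1 a) (c.1 b) = 0 := by
      rw [two_mul]
      nth_rewrite 1 [e2]
      exact neg_add_cancel _
    exact (mul_eq_zero.1 e3).resolve_left (two_ne h2)

end single

end Pool.Agent.Q269.MF
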