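import Pool.Agent.Q269.MF.Sm

/-!
# Several families at the same time: the estimates in a cell
-/

set_option autoImplicit false
set_option linter.all false

namespace Pool.Agent.Q269.MF

open Finset Polynomial
open Pool.Agent.Y164.SZ
open Pool.Agent.Y164.HG (num1)
open scoped Classical

section mom
variable {ℓ : ℕ} [hp : Fact ℓ.Prime] {k : Type} [Field k] [Fintype k] [DecidableEq k]
variable {R : Type} [Fintype R] [DecidableEq R] {W : R → Type}
  [∀ r, AddCommGroup (W r)] [∀ r, Module (ZMod ℓ) (W r)] [∀ r, Fintype (W r)]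
variable {τ : R → Type} [∀ r, Fintype (τ r)] (D : (r : R) → FDat ℓ (W r) (τ r))
variable {ι : Type} [Fintype ι]
variable {Q : (Σ r, τ r) → k[X]} {d : ι → ZMod ℓ} {𝒞 : ι → Finset k[X]} {lg : Finset ι}
  {Nd : ℕ} {η : ℝ}

theorem few_m_le (hlg : lg.Nonempty) (hw : ∀ r, 2 ≤ Fintype.card (W r)) {K s : ℕ} {m : R → ℕ}
    (hm : ∀ r, m r ≤ K)
    (hR : (PW W (fun _ => K) ^ 2 + 1) * s ≤ Fintype.card ι)
    (hs : Fintype.card ι - lg.card ≤ s) {v : R → ℝ} (hv : ∀ r, 0 < v r)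
    (hv1 : ∀ r, (Fintype.card (W r) : ℝ) ^ Fintype.card ι ≤ Fintype.card (W r) * v r) :
    ((FM ℓ W τ lg m : Finset (CM ℓ W ι τ m)).card : ℝ) ≤
      (2 ^ (PW W (fun _ => K) ^ 2) * (ℓ : ℝ) ^ (Fintype.card (Σ r, τ r) * (2 * K + 1)) *
        (PW W (fun _ => K) : ℝ) * (1 / 2) ^ s) * ∏ r, v r ^ m r := by
  set P := PW W (fun _ => K) with hP
  set n := Fintype.card ι with hn
  have hw0 : ∀ r, 0 < Fintype.card (W r) := fun r => by have := hw r; omega
  have hPm : PW W m ≤ P := by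
    rw [hP, PW, PW]
    exact prod_le_prod' fun r _ => Nat.pow_le_pow_right (hw0 r) (hm r)
  have hP1 : 0 < PW W m := prod_pos fun r _ => pow_pos (hw0 r) _
  have hl1 : (1 : ℝ) ≤ ℓ := by exact_mod_cast hp.out.one_lt.le
  have hvp : 0 < ∏ r, v r ^ m r := prod_pos fun r _ => pow_pos (hv r) _
  have hPr : (0 : ℝ) ≤ (P : ℝ) := Nat.cast_nonneg _
  have h0 : ((FM ℓ W τ lg m : Finset (CM ℓ W ι τ m)).card : ℝ) ≤
      2 ^ (PW W m ^ 2) * ((∏ r, (ℓ : ℝ) ^ (Fintype.card (τ r) * (2 * m r + 1))) *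
      (((PW W m - 1 : ℕ) : ℝ) ^ lg.card * ((PW W m : ℝ) ^ 2) ^ (n - lg.card))) := by
    have := card_FM (ℓ := ℓ) (W := W) (τ := τ) (m := m) lg
    exact_mod_cast this
  have hlm : lg.card ≤ n := card_le_univ _
  rcases Nat.lt_or_ge (PW W m) 2 with h | h
  · have h1 : PW W m = 1 := by omega
    rw [h1, Nat.sub_self, Nat.cast_zero, zero_pow (card_pos.2 hlg).ne', zero_mul, mul_zero,
      mul_zero] at h0
    refine h0.trans ?_
    positivity
  · have h1 := num1 h hlm hs (by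
      refine le_trans (Nat.mul_le_mul_right s ?_) hR
      exact Nat.add_le_add_right (Nat.pow_le_pow_left hPm 2) 1)
    have h2 : ((PW W m : ℕ) : ℝ) ^ n ≤ (P : ℝ) * ∏ r, v r ^ m r := by
      have h3 : ((PW W m : ℕ) : ℝ) ^ n = ∏ r, ((Fintype.card (W r) : ℝ) ^ n) ^ m r := by
        rw [PW]
        push_cast
        rw [← prod_pow]
        refine prod_congr rfl fun r _ => ?_
        rw [← pow_mul, ← pow_mul, mul_comm]
      rw [h3]
      have h4 : ∏ r, ((Fintype.card (W r) : ℝ) ^ n) ^ m r ≤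
          ∏ r, ((Fintype.card (W r) : ℝ) * v r) ^ m r :=
        prod_le_prod (fun r _ => by positivity) fun r _ =>
          pow_le_pow_left₀ (by positivity) (hv1 r) _
      refine h4.trans ?_
      have h5 : ∏ r, ((Fintype.card (W r) : ℝ) * v r) ^ m r = (PW W m : ℝ) * ∏ r, v r ^ m r := by
        rw [PW]
        push_cast
        rw [← prod_mul_distrib]
        exact prod_congr rfl fun r _ => mul_pow _ _ _
      rw [h5]
      apply mul_le_mul_of_nonneg_right _ hvp.le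
      exact_mod_cast hPm
    have h3 : (2 : ℝ) ^ (PW W m ^ 2) ≤ 2 ^ (P ^ 2) :=
      pow_le_pow_right₀ (by norm_num) (Nat.pow_le_pow_left hPm 2)
    have h4 : ∏ r, (ℓ : ℝ) ^ (Fintype.card (τ r) * (2 * m r + 1)) ≤
        (ℓ : ℝ) ^ (Fintype.card (Σ r, τ r) * (2 * K + 1)) := by
      rw [Fintype.card_sigma, sum_mul, ← prod_pow_eq_pow_sum]
      apply prod_le_prod
      · intro r _
        positivity
      · intro r _
        apply pow_le_pow_right₀ hl1
        apply Nat.mul_le_mul_left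
        have := hm r
        omega
    calc ((FM ℓ W τ lg m : Finset (CM ℓ W ι τ m)).card : ℝ) ≤
        2 ^ (PW W m ^ 2) * ((∏ r, (ℓ : ℝ) ^ (Fintype.card (τ r) * (2 * m r + 1))) *
          (((PW W m - 1 : ℕ) : ℝ) ^ lg.card * ((PW W m : ℝ) ^ 2) ^ (n - lg.card))) := h0
      _ ≤ 2 ^ (PW W m ^ 2) * ((∏ r, (ℓ : ℝ) ^ (Fintype.card (τ r) * (2 * m r + 1))) *
          ((PW W m : ℝ) ^ n * (1 / 2) ^ s)) := by
          apply mul_le_mul_of_nonneg_left _ (by positivity)
          exact mul_le_mul_of_nonneg_left h1 (by positivity)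
      _ ≤ 2 ^ (P ^ 2) * ((ℓ : ℝ) ^ (Fintype.card (Σ r, τ r) * (2 * K + 1)) *
          (((P : ℝ) * ∏ r, v r ^ m r) * (1 / 2) ^ s)) := by
          apply mul_le_mul h3 _ (by positivity) (by positivity)
          apply mul_le_mul h4 _ (by positivity) (by positivity)
          exact mul_le_mul_of_nonneg_right h2 (by positivity)
      _ = _ := by ring

variable (hc : Cell ℓ Q 𝒞 lg Nd η)

include hc in
theorem mom_m (hN : ∀ r, IsUnit (∑ i, d i + (D r).N)) (hG : ∀ r, CN (D r)) (hD : Dg D Q d)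
    (hw : ∀ r, 2 ≤ Fintype.card (W r)) {K s : ℕ} {m : R → ℕ} (hm : ∀ r, m r ≤ K) {δ : ℝ}
    (hδ : 0 < δ) (hδ2 : δ ≤ 1 / 2)
    (hR : (PW W (fun _ => K) ^ 2 + 1) * s ≤ Fintype.card ι)
    (hs : Fintype.card ι - lg.card ≤ s)
    (hA : 2 ^ (PW W (fun _ => K) ^ 2) * (ℓ : ℝ) ^ (Fintype.card (Σ r, τ r) * (2 * K + 1)) *
        (PW W (fun _ => K) : ℝ) * (1 / 2) ^ s ≤ δ)
    (hB : η * ((PW W (fun _ => K) : ℝ) ^ Fintype.card ι *
      ((ℓ : ℝ) ^ Fintype.card (Σ r, τ r)) ^ (K + 1)) ≤ δ)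
    (hC : 2 * (ℓ : ℝ) ^ K * (PW W (fun _ => 1) : ℝ) * (Fintype.card R + 1) * (1 / 2) ^ s ≤ δ)
    (hOK : ((Fintype.piFinset 𝒞).card : ℝ) ≤ 2 * OK Q 𝒞) :
    |SSm D Q d 𝒞 m * (ℓ : ℝ) ^ Fintype.card (Σ r, τ r) -
      (∏ r, ((AS ℓ (m r)).card : ℝ)) * OK Q 𝒞| ≤
      (4 + ∏ r, ((AS ℓ (m r)).card : ℝ)) * δ * OK Q 𝒞 := by
  have e3 := SSm_le D (d := d) hc hN hG hD m
  set n := Fintype.card ι with hn
  set t : ℝ := (ℓ : ℝ) ^ Fintype.card (Σ r, τ r) with ht
  obtain ⟨v, hv⟩ : ∃ v : R → ℝ, v = fun r =>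
    ((V0s (D r) d : Finset (V ℓ (W r) ι (τ r))).card : ℝ) := ⟨_, rfl⟩
  have hvr : ∀ r, ((V0s (D r) d : Finset (V ℓ (W r) ι (τ r))).card : ℝ) = v r := fun r => by
    rw [hv]
  have hw2 : ∀ r, (2 : ℝ) ≤ Fintype.card (W r) := fun r => by exact_mod_cast hw r
  have hl1 : (1 : ℝ) ≤ ℓ := by exact_mod_cast hp.out.one_lt.le
  have e6 : ∀ r, (Fintype.card (W r) : ℝ) ^ n ≤ Fintype.card (W r) * v r := fun r => by
    rw [← hvr]
    exact_mod_cast le_card_V0s (D r) d
  have e7 : ∀ r, v r ≤ (Fintype.card (W r) : ℝ) ^ n * (ℓ : ℝ) ^ Fintype.card (τ r) := fun r => by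
    rw [← hvr]
    exact_mod_cast card_V0s_le (D r) d
  have hvp : ∀ r, 0 < v r := by
    intro r
    have h5 : (0 : ℝ) < (Fintype.card (W r) : ℝ) ^ n := by have := hw2 r; positivity
    have h6 : 0 < (Fintype.card (W r) : ℝ) * v r := lt_of_lt_of_le h5 (e6 r)
    exact pos_of_mul_pos_right h6 (by have := hw2 r; linarith)
  have hVV : VV D d m = ∏ r, v r ^ m r := by
    rw [VV]
    exact prod_congr rfl fun r _ => by rw [hvr]
  set Vm : ℝ := VV D d m with hVm
  have hVp : 0 < Vm := by rw [hVV]; exact prod_pos fun r _ => pow_pos (hvp r) _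
  set X : ℝ := OK Q 𝒞 with hX
  have hX0 : 0 ≤ X := OK_nonneg
  have hη := hc.eta0
  set N0 : ℝ := ((Fintype.piFinset 𝒞).card : ℝ) with hN0
  have hN00 : 0 ≤ N0 := Nat.cast_nonneg _
  set aa : ℝ := ∏ r, ((AS ℓ (m r)).card : ℝ) with haa
  have haa0 : 0 ≤ aa := prod_nonneg fun r _ => Nat.cast_nonneg _
  have hsn : s ≤ n := by
    refine le_trans ?_ hR
    nlinarith [Nat.zero_le (PW W (fun _ => K) ^ 2 * s)]
  have ht1 : 1 ≤ t := one_le_pow₀ hl1
  -- few
  have f1 : ((FM ℓ W τ lg m : Finset (CM ℓ W ι τ m)).card : ℝ) ≤ δ * Vm := by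
    refine (few_m_le (ℓ := ℓ) (τ := τ) hc.lgne hw hm hR hs hvp e6).trans ?_
    rw [← hVV]
    exact mul_le_mul_of_nonneg_right hA hVp.le
  -- eta
  have f2 : η * (Vm ^ 2 * t) ≤ δ * Vm := by
    have h3 : Vm * t ≤ (PW W (fun _ => K) : ℝ) ^ n * t ^ (K + 1) := by
      have h4 : Vm ≤ ∏ r, ((Fintype.card (W r) : ℝ) ^ n * (ℓ : ℝ) ^ Fintype.card (τ r)) ^ K := by
        rw [hVV]
        apply prod_le_prod
        · intro r _
          exact pow_nonneg (hvp r).le _
        · intro r _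
          refine (pow_le_pow_left₀ (hvp r).le (e7 r) (m r)).trans ?_
          apply pow_le_pow_right₀ _ (hm r)
          have h5 : (1 : ℝ) ≤ (Fintype.card (W r) : ℝ) ^ n :=
            one_le_pow₀ (by have := hw2 r; linarith)
          have h6 : (1 : ℝ) ≤ (ℓ : ℝ) ^ Fintype.card (τ r) := one_le_pow₀ hl1
          nlinarith
      have h5 : ∏ r, ((Fintype.card (W r) : ℝ) ^ n * (ℓ : ℝ) ^ Fintype.card (τ r)) ^ K =
          (PW W (fun _ => K) : ℝ) ^ n * t ^ K := by
        rw [prod_pow, prod_mul_distrib, mul_pow, ht, Fintype.card_sigma, ← prod_pow_eq_pow_sum]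
        congr 1
        rw [PW]
        push_cast
        rw [prod_pow, prod_pow, ← pow_mul, ← pow_mul, mul_comm]
      calc Vm * t ≤ ((PW W (fun _ => K) : ℝ) ^ n * t ^ K) * t :=
            mul_le_mul_of_nonneg_right (h5 ▸ h4) (by linarith)
        _ = _ := by rw [pow_succ]; ring
    have h4 : η * (Vm * t) ≤ δ := (mul_le_mul_of_nonneg_left h3 hη).trans hB
    calc η * (Vm ^ 2 * t) = (η * (Vm * t)) * Vm := by ring
      _ ≤ δ * Vm := mul_le_mul_of_nonneg_right h4 hVp.le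
  -- main configurations
  have f3 : MM D d m ≤ Vm * aa := by
    rw [hVm, VV, haa, ← prod_mul_distrib, MM]
    exact prod_le_prod (fun r _ => Nat.cast_nonneg _) fun r _ => card_Mp_le (D r) d
  have f4 : Vm * aa * (1 - δ) ≤ MM D d m := by
    obtain ⟨δ', hδ'⟩ : ∃ δ' : ℝ, δ' = δ / (Fintype.card R + 1) := ⟨_, rfl⟩
    have hR1 : (0 : ℝ) < (Fintype.card R : ℝ) + 1 := by positivity
    have hδ'0 : 0 < δ' := by rw [hδ']; positivity
    have hδ'1 : (Fintype.card R + 1 : ℝ) * δ' = δ := by rw [hδ']; field_simp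
    have hδ'2 : δ' ≤ 1 := by
      have : (0 : ℝ) ≤ Fintype.card R := Nat.cast_nonneg _
      nlinarith
    have g1 : ∀ r, 2 * (ℓ : ℝ) ^ K ≤ δ' * v r := by
      intro r
      have h4 : 1 ≤ (Fintype.card (W r) : ℝ) * (1 / 2) ^ s * v r := by
        have h5 : (2 : ℝ) ^ s ≤ (Fintype.card (W r) : ℝ) ^ n := by
          calc (2 : ℝ) ^ s ≤ 2 ^ n := pow_le_pow_right₀ (by norm_num) hsn
            _ ≤ (Fintype.card (W r) : ℝ) ^ n := pow_le_pow_left₀ (by norm_num) (hw2 r) _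
        have h6 : (2 : ℝ) ^ s * (1 / 2) ^ s = 1 := by rw [← mul_pow]; norm_num
        have h7 := mul_le_mul_of_nonneg_right (h5.trans (e6 r))
          (show (0 : ℝ) ≤ (1 / 2) ^ s by positivity)
        rw [h6] at h7
        linarith
      have h5 : (Fintype.card (W r) : ℝ) ≤ (PW W (fun _ => 1) : ℝ) := by
        have h6 : Fintype.card (W r) ≤ PW W (fun _ => 1) := by
          rw [PW]
          have h7 : ∏ r, Fintype.card (W r) ^ 1 = ∏ r, Fintype.card (W r) :=
            prod_congr rfl fun r _ => pow_one _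
          rw [h7]
          exact single_le_prod' (f := fun r => Fintype.card (W r))
            (fun r _ => by have := hw r; omega) (mem_univ r)
        exact_mod_cast h6
      have h6 : 2 * (ℓ : ℝ) ^ K * (PW W (fun _ => 1) : ℝ) * (1 / 2) ^ s ≤ δ' := by
        rw [hδ', le_div_iff₀ hR1]
        linarith
      have h7 : 2 * (ℓ : ℝ) ^ K * (Fintype.card (W r) : ℝ) * (1 / 2) ^ s ≤ δ' := by
        refine le_trans ?_ h6
        apply mul_le_mul_of_nonneg_right _ (by positivity)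
        exact mul_le_mul_of_nonneg_left h5 (by positivity)
      calc 2 * (ℓ : ℝ) ^ K = 2 * (ℓ : ℝ) ^ K * 1 := by ring
        _ ≤ 2 * (ℓ : ℝ) ^ K * ((Fintype.card (W r) : ℝ) * (1 / 2) ^ s * v r) :=
            mul_le_mul_of_nonneg_left h4 (by positivity)
        _ = (2 * (ℓ : ℝ) ^ K * (Fintype.card (W r) : ℝ) * (1 / 2) ^ s) * v r := by ring
        _ ≤ δ' * v r := mul_le_mul_of_nonneg_right h7 (hvp r).le
    have g2 : ∀ r, v r ^ m r * ((AS ℓ (m r)).card : ℝ) * (1 - δ') ≤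
        (((Pool.Agent.Y164.SZ.Om (D r) d (m r)).filter Mp).card : ℝ) := by
      intro r
      refine le_trans ?_ (le_card_Mp (D r) d (hG r))
      have h4 := le_card_Fr (D r) d (j := m r)
      rw [hvr] at h4
      have h5 : 2 * (ℓ : ℝ) ^ m r ≤ δ' * v r := by
        refine le_trans ?_ (g1 r)
        apply mul_le_mul_of_nonneg_left _ (by norm_num)
        exact pow_le_pow_right₀ hl1 (hm r)
      have h6 : v r ^ m r * (1 - δ') ≤
          ((Fr (D r) d (m r) : Finset (Fin (m r) → V ℓ (W r) ι (τ r))).card : ℝ) := by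
        have h7 : v r * (v r ^ m r * (1 - δ')) ≤
            v r * ((Fr (D r) d (m r) : Finset (Fin (m r) → V ℓ (W r) ι (τ r))).card : ℝ) := by
          refine le_trans ?_ h4
          have h8 : v r * (1 - δ') ≤ v r - 2 * (ℓ : ℝ) ^ m r := by linarith
          calc v r * (v r ^ m r * (1 - δ')) = v r ^ m r * (v r * (1 - δ')) := by ring
            _ ≤ v r ^ m r * (v r - 2 * (ℓ : ℝ) ^ m r) :=
              mul_le_mul_of_nonneg_left h8 (pow_nonneg (hvp r).le _)
        exact le_of_mul_le_mul_left h7 (hvp r)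
      calc v r ^ m r * ((AS ℓ (m r)).card : ℝ) * (1 - δ') =
          (v r ^ m r * (1 - δ')) * ((AS ℓ (m r)).card : ℝ) := by ring
        _ ≤ _ := mul_le_mul_of_nonneg_right h6 (Nat.cast_nonneg _)
    have g3 : ∏ r, (v r ^ m r * ((AS ℓ (m r)).card : ℝ) * (1 - δ')) ≤ MM D d m := by
      rw [MM]
      apply prod_le_prod
      · intro r _
        have h5 : 0 ≤ 1 - δ' := by linarith
        exact mul_nonneg (mul_nonneg (pow_nonneg (hvp r).le _) (Nat.cast_nonneg _)) h5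
      · intro r _
        exact g2 r
    refine le_trans ?_ g3
    rw [prod_mul_distrib, prod_mul_distrib, ← hVV, ← haa, prod_const, card_univ]
    apply mul_le_mul_of_nonneg_left _ (mul_nonneg hVp.le haa0)
    have h5 := one_add_mul_le_pow (show (-2 : ℝ) ≤ -δ' by linarith) (Fintype.card R)
    have h6 : (1 : ℝ) - δ ≤ 1 + (Fintype.card R : ℝ) * -δ' := by
      rw [← hδ'1]
      nlinarith
    have h7 : (1 : ℝ) - δ' = 1 + -δ' := by ring
    rw [h7]
    exact h6.trans h5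
  have f5 : |SSm D Q d 𝒞 m * (Vm * t) - Vm * (aa * X)| ≤ Vm * ((4 + aa) * δ * X) := by
    have g1 : |MM D d m * X - Vm * aa * X| ≤ δ * Vm * aa * X := by
      have : MM D d m * X - Vm * aa * X = - ((Vm * aa - MM D d m) * X) := by ring
      rw [this, abs_neg, abs_of_nonneg (mul_nonneg (by linarith) hX0)]
      have h5 : Vm * aa - MM D d m ≤ δ * Vm * aa := by linarith
      exact mul_le_mul_of_nonneg_right h5 hX0
    have g2 : N0 * (((FM ℓ W τ lg m : Finset (CM ℓ W ι τ m)).card : ℝ) + η * (Vm ^ 2 * t)) ≤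
        2 * X * (2 * (δ * Vm)) := by
      apply mul_le_mul hOK _ _ (by linarith)
      · linarith
      · exact add_nonneg (Nat.cast_nonneg _) (mul_nonneg hη (by positivity))
    calc |SSm D Q d 𝒞 m * (Vm * t) - Vm * (aa * X)| =
        |(SSm D Q d 𝒞 m * (Vm * t) - MM D d m * X) + (MM D d m * X - Vm * aa * X)| := by
          congr 1; ring
      _ ≤ |SSm D Q d 𝒞 m * (Vm * t) - MM D d m * X| + |MM D d m * X - Vm * aa * X| :=
          abs_add_le _ _
      _ ≤ 2 * X * (2 * (δ * Vm)) + δ * Vm * aa * X := add_le_add (e3.trans g2) g1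
      _ = _ := by ring
  have f6 : SSm D Q d 𝒞 m * (Vm * t) - Vm * (aa * X) = Vm * (SSm D Q d 𝒞 m * t - aa * X) := by
    ring
  rw [f6, abs_mul, abs_of_pos hVp] at f5
  exact le_of_mul_le_mul_left f5 hVp

end mom

end Pool.Agent.Q269.MF
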