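import Pool.Agent.Q269.MF.Mn
import Pool.Agent.Y164.SZ.Cfg

/-!
# Several families at the same time: the number of configurations
-/

set_option autoImplicit false
set_option linter.all false

namespace Pool.Agent.Q269.MF

open Finset
open Pool.Agent.Y164.SZ
open scoped Classical

theorem F2_cases (x : ZMod 2) : x = 0 ∨ x = 1 := by
  revert x
  decide

section one
variable {ℓ : ℕ} [hp : Fact ℓ.Prime] {W : Type} [AddCommGroup W] [Module (ZMod ℓ) W] [Fintype W]
variable {ι τ : Type} [Fintype ι] [Fintype τ] (D : FDat ℓ W τ) (d : ι → ZMod ℓ) {j : ℕ}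

/-- the main configurations in one family -/
def Mp (c : CF ℓ W ι τ j) : Prop :=
  (∃ A ∈ AS ℓ j, c.2.1 = fun a => ∑ b, A a b • c.1 b + A a a • wz) ∧ c.2.2 = 0

theorem dg_wz (hG : CN D) (h2 : ℓ = 2) : dg D d (wz : V ℓ W ι τ) = 0 := by
  have h := hG.two h2
  simp only [dg, wz, Pi.zero_apply, smul_zero, sum_const_zero, zero_add, mul_one]
  exact h

theorem AS_diag {A : Fin j → Fin j → ZMod ℓ} (hA : A ∈ AS ℓ j) (h2 : ℓ ≠ 2) (a : Fin j) :
    A a a = 0 := by
  have h := (mem_filter.1 hA).2 a a
  have : (2 : ZMod ℓ) * A a a = 0 := by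
    rw [two_mul]
    nth_rewrite 1 [h]
    exact neg_add_cancel _
  exact (mul_eq_zero.1 this).resolve_left (two_ne h2)

theorem dg_comb (hG : CN D) {w : Fin j → V ℓ W ι τ} (hw : ∀ a, dg D d (w a) = 0)
    {A : Fin j → Fin j → ZMod ℓ} (hA : A ∈ AS ℓ j) (a : Fin j) :
    dg D d (∑ b, A a b • w b + A a a • wz) = 0 := by
  rw [dg_add, ← dgL_apply, map_sum]
  have h1 : ∑ b, dgL D d (A a b • w b) = 0 := by
    apply sum_eq_zero
    intro b _
    rw [map_smul, dgL_apply, hw b, smul_zero]
  rw [h1, zero_add]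
  by_cases h2 : ℓ = 2
  · rw [dg_smul, dg_wz D d hG h2, smul_zero]
  · rw [AS_diag hA h2, zero_smul, ← dgL_apply, map_zero]

/-- the number of main configurations is at most expected -/
theorem card_Mp_le : (((Om D d j).filter Mp).card : ℝ) ≤
    ((V0s D d : Finset (V ℓ W ι τ)).card : ℝ) ^ j * (AS ℓ j).card := by
  have h1 : (Om D d j).filter Mp ⊆ ((Fintype.piFinset (fun _ : Fin j => V0s D d)) ×ˢ
      (AS ℓ j)).image (fun p => ((p.1, (fun a => ∑ b, p.2 a b • p.1 b + p.2 a a • wz), 0) :
        CF ℓ W ι τ j)) := by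
    rintro ⟨w, w', U⟩ h
    obtain ⟨h1, ⟨A, hA, h3⟩, h4⟩ := mem_filter.1 h
    have h5 := (mem_filter.1 h1).2.1
    simp only at h3 h4 h5
    rw [mem_image]
    refine ⟨(w, A), mem_product.2 ⟨?_, hA⟩, ?_⟩
    · rw [Fintype.mem_piFinset]
      intro a
      exact (mem_V0s D d).2 (h5.1 a)
    · simp only
      rw [← h3, h4]
  have h2 := (card_le_card h1).trans card_image_le
  rw [card_product, Fintype.card_piFinset, prod_const, card_univ, Fintype.card_fin] at h2
  exact_mod_cast h2

/-- tuples with a given linear relation -/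
theorem card_rel (c : Fin j → ZMod ℓ) (hc : c ≠ 0) (y : V ℓ W ι τ) :
    ((Fintype.piFinset (fun _ : Fin j => V0s D d)).filter fun w => ∑ a, c a • w a = y).card *
      (V0s D d : Finset (V ℓ W ι τ)).card ≤ (V0s D d : Finset (V ℓ W ι τ)).card ^ j := by
  obtain ⟨a0, ha0⟩ : ∃ a, c a ≠ 0 := by
    by_contra h
    push Not at h
    exact hc (funext h)
  have h1 : (V0s D d : Finset (V ℓ W ι τ)).card ^ j =
      (Fintype.piFinset (fun _ : Fin j => (V0s D d : Finset (V ℓ W ι τ)))).card := by
    rw [Fintype.card_piFinset, prod_const, card_univ, Fintype.card_fin]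
  rw [h1, ← card_product]
  apply card_le_card_of_injOn (fun p => Function.update p.1 a0 p.2)
  · rintro ⟨w, v⟩ h
    obtain ⟨h2, h3⟩ := mem_product.1 (mem_coe.1 h)
    have h4 := (mem_filter.1 h2).1
    rw [Fintype.mem_piFinset] at h4
    refine mem_coe.2 (Fintype.mem_piFinset.2 fun a => ?_)
    show Function.update w a0 v a ∈ V0s D d
    by_cases ha : a = a0
    · subst ha
      rw [Function.update_self]
      exact h3
    · rw [Function.update_of_ne ha]
      exact h4 a
  · rintro ⟨w, v⟩ h ⟨w₁, v₁⟩ h' he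
    have h2 := (mem_filter.1 (mem_product.1 (mem_coe.1 h)).1).2
    have h2' := (mem_filter.1 (mem_product.1 (mem_coe.1 h')).1).2
    simp only at he h2 h2'
    have hv : v = v₁ := by
      have := congrFun he a0
      rwa [Function.update_self, Function.update_self] at this
    have ho : ∀ a, a ≠ a0 → w a = w₁ a := by
      intro a ha
      have := congrFun he a
      rwa [Function.update_of_ne ha, Function.update_of_ne ha] at this
    have h3 : c a0 • w a0 = c a0 • w₁ a0 := by
      rw [← add_sum_erase _ _ (mem_univ a0)] at h2 h2'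
      have h4 : ∑ a ∈ univ.erase a0, c a • w a = ∑ a ∈ univ.erase a0, c a • w₁ a :=
        sum_congr rfl fun a ha => by rw [ho a (ne_of_mem_erase ha)]
      rw [h4] at h2
      exact add_right_cancel (h2.trans h2'.symm)
    have h4 : w a0 = w₁ a0 := by
      have h6 : (c a0)⁻¹ • c a0 • w a0 = (c a0)⁻¹ • c a0 • w₁ a0 := by rw [h3]
      rwa [smul_smul, smul_smul, inv_mul_cancel₀ ha0, one_smul, one_smul] at h6
    have h5 : w = w₁ := by
      funext a
      by_cases ha : a = a0
      · rw [ha]; exact h4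
      · exact ho a ha
    rw [hv, h5]

/-- the tuples without relations -/
noncomputable def Fr (j : ℕ) : Finset (Fin j → V ℓ W ι τ) :=
  (Fintype.piFinset (fun _ : Fin j => V0s D d)).filter fun w => ∀ c : Fin j → ZMod ℓ, c ≠ 0 →
    ∑ a, c a • w a ≠ 0 ∧ ∑ a, c a • w a ≠ wz

theorem le_card_Fr : ((V0s D d : Finset (V ℓ W ι τ)).card : ℝ) ^ j *
      (((V0s D d : Finset (V ℓ W ι τ)).card : ℝ) - 2 * (ℓ : ℝ) ^ j) ≤
    ((V0s D d : Finset (V ℓ W ι τ)).card : ℝ) * ((Fr D d j : Finset (Fin j → V ℓ W ι τ)).card : ℝ) := by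
  set v : ℕ := (V0s D d : Finset (V ℓ W ι τ)).card with hv
  have h1 : (Fintype.piFinset (fun _ : Fin j => (V0s D d : Finset (V ℓ W ι τ)))) ⊆
      Fr D d j ∪ (univ : Finset (Fin j → ZMod ℓ)).biUnion (fun c => if c ≠ 0 then
        ((Fintype.piFinset (fun _ : Fin j => V0s D d)).filter fun w => ∑ a, c a • w a = 0) ∪
        ((Fintype.piFinset (fun _ : Fin j => V0s D d)).filter fun w => ∑ a, c a • w a = wz)
        else ∅) := by
    intro w hw
    rw [mem_union]
    by_cases h : w ∈ Fr D d j
    · exact Or.inl h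
    · right
      rw [Fr, mem_filter, not_and] at h
      have h2 := h hw
      push Not at h2
      obtain ⟨c, hc, h3⟩ := h2
      rw [mem_biUnion]
      refine ⟨c, mem_univ _, ?_⟩
      rw [if_pos hc, mem_union, mem_filter, mem_filter]
      by_cases h4 : ∑ a, c a • w a = 0
      · exact Or.inl ⟨hw, h4⟩
      · exact Or.inr ⟨hw, h3 h4⟩
  have h2 : v ^ j ≤ (Fr D d j : Finset (Fin j → V ℓ W ι τ)).card +
      ∑ c : Fin j → ZMod ℓ, (if c ≠ 0 then
        ((Fintype.piFinset (fun _ : Fin j => V0s D d)).filter fun w : Fin j → V ℓ W ι τ => ∑ a, c a • w a = 0) ∪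
        ((Fintype.piFinset (fun _ : Fin j => V0s D d)).filter fun w => ∑ a, c a • w a = wz)
        else ∅).card := by
    have h3 := (card_le_card h1).trans (card_union_le _ _)
    rw [Fintype.card_piFinset, prod_const, card_univ, Fintype.card_fin] at h3
    exact h3.trans (Nat.add_le_add_left card_biUnion_le _)
  have h3 : (∑ c : Fin j → ZMod ℓ, (if c ≠ 0 then
        ((Fintype.piFinset (fun _ : Fin j => V0s D d)).filter fun w : Fin j → V ℓ W ι τ => ∑ a, c a • w a = 0) ∪
        ((Fintype.piFinset (fun _ : Fin j => V0s D d)).filter fun w => ∑ a, c a • w a = wz)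
        else ∅).card) * v ≤ ℓ ^ j * (2 * v ^ j) := by
    rw [sum_mul]
    have h4 : ∀ c ∈ (univ : Finset (Fin j → ZMod ℓ)), (if c ≠ 0 then
        ((Fintype.piFinset (fun _ : Fin j => V0s D d)).filter fun w : Fin j → V ℓ W ι τ => ∑ a, c a • w a = 0) ∪
        ((Fintype.piFinset (fun _ : Fin j => V0s D d)).filter fun w => ∑ a, c a • w a = wz)
        else ∅).card * v ≤ 2 * v ^ j := by
      intro c _
      split_ifs with hc
      · have h5 := card_rel D d c hc 0
        have h6 := card_rel D d c hc wz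
        have h7 := Nat.mul_le_mul_right v (card_union_le
          ((Fintype.piFinset (fun _ : Fin j => V0s D d)).filter fun w : Fin j → V ℓ W ι τ => ∑ a, c a • w a = 0)
          ((Fintype.piFinset (fun _ : Fin j => V0s D d)).filter fun w => ∑ a, c a • w a = wz))
        rw [add_mul] at h7
        rw [← hv] at h5 h6
        omega
      · rw [card_empty, zero_mul]
        exact Nat.zero_le _
    refine (sum_le_sum h4).trans (le_of_eq ?_)
    rw [sum_const, card_univ, Fintype.card_fun, ZMod.card, Fintype.card_fin, smul_eq_mul]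
  have h4 : v ^ j * v ≤ v * (Fr D d j : Finset (Fin j → V ℓ W ι τ)).card + ℓ ^ j * (2 * v ^ j) := by
    have h5 := Nat.mul_le_mul_right v h2
    rw [add_mul] at h5
    linarith
  have h5 : ((v : ℝ)) ^ j * v ≤ v * ((Fr D d j : Finset (Fin j → V ℓ W ι τ)).card : ℝ) +
      (ℓ : ℝ) ^ j * (2 * (v : ℝ) ^ j) := by exact_mod_cast h4
  linarith

/-- the number of main configurations is at least expected -/
theorem le_card_Mp (hG : CN D) : ((Fr D d j : Finset (Fin j → V ℓ W ι τ)).card : ℝ) * (AS ℓ j).card ≤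
    (((Om D d j).filter Mp).card : ℝ) := by
  have h1 : ((Fr D d j) ×ˢ (AS ℓ j)).card ≤ ((Om D d j).filter (Mp (ℓ := ℓ) (W := W) (ι := ι) (τ := τ))).card := by
    apply card_le_card_of_injOn (fun p => ((p.1, (fun a => ∑ b, p.2 a b • p.1 b + p.2 a a • wz), 0) :
        CF ℓ W ι τ j))
    · rintro ⟨w, A⟩ h
      obtain ⟨h2, h3⟩ := mem_product.1 (mem_coe.1 h)
      obtain ⟨h4, h5⟩ := mem_filter.1 h2
      rw [Fintype.mem_piFinset] at h4
      have hw : ∀ a, dg D d (w a) = 0 := fun a => (mem_V0s D d).1 (h4 a)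
      refine mem_coe.2 (mem_filter.2 ⟨mem_filter.2 ⟨mem_univ _, ⟨hw, ?_⟩, fun a => ?_⟩,
        ⟨A, h3, rfl⟩, rfl⟩)
      · rw [Fintype.linearIndependent_iff]
        intro c hc
        by_contra hne
        have hne' : c ≠ 0 := by
          rintro rfl
          exact hne fun _ => rfl
        exact (h5 c hne').1 hc
      · exact dg_comb D d hG hw h3 a
    · rintro ⟨w, A⟩ h ⟨w₁, A₁⟩ h' he
      simp only [Prod.mk.injEq] at he
      obtain ⟨rfl, h3, -⟩ := he
      have hw := (mem_filter.1 (mem_product.1 (mem_coe.1 h)).1).2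
      have hA : A ∈ AS ℓ j := (mem_product.1 (mem_coe.1 h)).2
      have hA₁ : A₁ ∈ AS ℓ j := (mem_product.1 (mem_coe.1 h')).2
      have : A = A₁ := by
        funext a
        by_contra hne
        have hc : (fun b => A a b - A₁ a b) ≠ 0 := by
          intro h0
          apply hne
          funext b
          exact sub_eq_zero.1 (congrFun h0 b)
        have h4 := congrFun h3 a
        have h5 : ∑ b, (A a b - A₁ a b) • w b = (A₁ a a - A a a) • wz := by
          simp only [sub_smul, sum_sub_distrib]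
          rw [sub_eq_sub_iff_add_eq_add, h4]
          abel
        by_cases h2 : ℓ = 2
        · subst h2
          rcases F2_cases (A₁ a a - A a a) with h6 | h6
          · rw [h6, zero_smul] at h5
            exact (hw _ hc).1 h5
          · rw [h6, one_smul] at h5
            exact (hw _ hc).2 h5
        · rw [AS_diag hA h2, AS_diag hA₁ h2, sub_zero, zero_smul] at h5
          exact (hw _ hc).1 h5
      rw [this]
  rw [card_product] at h1
  exact_mod_cast h1

end one

section multi
variable {ℓ : ℕ} [hp : Fact ℓ.Prime] {R : Type} [Fintype R] [DecidableEq R] {W : R → Type}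
  [∀ r, AddCommGroup (W r)] [∀ r, Module (ZMod ℓ) (W r)] [∀ r, Fintype (W r)]
variable {τ : R → Type} [∀ r, Fintype (τ r)] (D : (r : R) → FDat ℓ (W r) (τ r))
variable {ι : Type} [Fintype ι] (d : ι → ZMod ℓ) {m : R → ℕ}

/-- configurations -/
abbrev CM (ℓ : ℕ) {R : Type} (W : R → Type) (ι : Type) (τ : R → Type) (m : R → ℕ) : Type :=
  (r : R) → CF ℓ (W r) ι (τ r) (m r)

/-- the labels of a configuration -/
def lac (c : CM ℓ W ι τ m) (i : ι) : Lb W (fun r => Fin (m r)) := fun r => lab (c r).1 (c r).2.1 i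

/-- the configuration is not orthogonal at `i0` -/
def Bd (c : CM ℓ W ι τ m) (i0 : ι) : Prop :=
  (∃ i, i ≠ i0 ∧ Qm D (lac c i - lac c i0) ≠ 0) ∨
    ∃ r s, ee (D r) s (zet (c r).1 (c r).2.1 s) (lab (c r).1 (c r).2.1 i0) + (c r).2.2 s ≠ 0

/-- the configurations -/
noncomputable def OM (m : R → ℕ) : Finset (CM ℓ W ι τ m) :=
  Fintype.piFinset fun r => Pool.Agent.Y164.SZ.Om (D r) d (m r)

/-- the number of labels of a maximal configuration -/
def PW (W : R → Type) [∀ r, Fintype (W r)] (m : R → ℕ) : ℕ := ∏ r, Fintype.card (W r) ^ m r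

/-- configurations with few labels -/
noncomputable def FM (ℓ : ℕ) [Fact ℓ.Prime] (W : R → Type) [∀ r, AddCommGroup (W r)]
    [∀ r, Module (ZMod ℓ) (W r)] [∀ r, Fintype (W r)] (τ : R → Type) [∀ r, Fintype (τ r)]
    {ι : Type} [Fintype ι] (lg : Finset ι) (m : R → ℕ) : Finset (CM ℓ W ι τ m) :=
  univ.filter fun c => (lg.image (lac c)).card ≤ PW W m - 1

theorem cover_m (hN : ∀ r, IsUnit (∑ i, d i + (D r).N)) (hG : ∀ r, CN (D r)) (lg : Finset ι)
    (c : CM ℓ W ι τ m) (hc : c ∈ OM D d m) (hb : ∀ i ∈ lg, ¬ Bd D c i) :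
    (∀ r, Mp (c r)) ∨ c ∈ FM ℓ W τ lg m := by
  rw [OM, Fintype.mem_piFinset] at hc
  have hw : ∀ r a, dg (D r) d ((c r).1 a) = 0 := fun r => (mem_filter.1 (hc r)).2.1.1
  have hli : ∀ r, LinearIndependent (ZMod ℓ) (c r).1 := fun r => (mem_filter.1 (hc r)).2.1.2
  have hw' : ∀ r a, dg (D r) d ((c r).2.1 a) = 0 := fun r => (mem_filter.1 (hc r)).2.2
  by_cases hf : (lg.image (lac c)).card ≤ PW W m - 1
  · right
    exact mem_filter.2 ⟨mem_univ _, hf⟩
  · left
    have hpos : 0 < PW W m := prod_pos fun r _ => pow_pos Fintype.card_pos _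
    have hcard : ∏ r, Nat.card (W r) ^ Fintype.card (Fin (m r)) ≤
        Nat.card {X : Lb W (fun r => Fin (m r)) | ∃ j ∈ lg, labm (fun r => (c r).1)
          (fun r => (c r).2.1) j = X} := by
      have h1 : {X : Lb W (fun r => Fin (m r)) | ∃ j ∈ lg, labm (fun r => (c r).1)
          (fun r => (c r).2.1) j = X} =
          ((lg.image (lac c) : Finset (Lb W (fun r => Fin (m r)))) :
            Set (Lb W (fun r => Fin (m r)))) := by
        ext X
        simp only [Set.mem_ofPred_eq, coe_image, Set.mem_image, mem_coe]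
        exact Iff.rfl
      rw [h1, Nat.card_eq_card_toFinset, Finset.toFinset_coe]
      have h2 : ∏ r, Nat.card (W r) ^ Fintype.card (Fin (m r)) = PW W m := by
        rw [PW]
        refine prod_congr rfl fun r _ => ?_
        rw [Nat.card_eq_fintype_card, Fintype.card_fin]
      rw [h2]
      omega
    have key := main_m (D := D) (κ := fun r => Fin (m r)) d hN hG (fun r => (c r).1)
      (fun r => (c r).2.1) (fun r => (c r).2.2) hw hw' hli lg hcard (by
      intro i0 hi0 i
      by_contra hne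
      apply hb i0 hi0
      left
      refine ⟨i, ?_, hne⟩
      rintro rfl
      apply hne
      rw [sub_self]
      exact Qm_zero D) (by
      intro i0 hi0 r s
      by_contra hne
      exact hb i0 hi0 (Or.inr ⟨r, s, hne⟩))
    intro r
    obtain ⟨⟨A, hA1, hA2⟩, hU⟩ := key r
    exact ⟨⟨A, mem_filter.2 ⟨mem_univ _, hA1⟩, funext hA2⟩, hU⟩


theorem card_few_m (lg : Finset ι) (F : Finset (Lb W (fun r => Fin (m r)))) :
    ((univ : Finset (CM ℓ W ι τ m)).filter fun x => ∀ i ∈ lg, lac x i ∈ F).card ≤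
    (∏ r, ℓ ^ (Fintype.card (τ r) * (2 * m r + 1))) *
      (F.card ^ lg.card * (PW W m ^ 2) ^ (Fintype.card ι - lg.card)) := by
  let S : Finset (ι → Lb W (fun r => Fin (m r))) :=
    Fintype.piFinset fun i => if i ∈ lg then F else univ
  have hcu : (univ : Finset (Lb W (fun r => Fin (m r)))).card = PW W m ^ 2 := by
    rw [card_univ, Fintype.card_pi, PW, ← prod_pow]
    refine prod_congr rfl fun r _ => ?_
    rw [Fintype.card_fun, Fintype.card_prod, Fintype.card_fin, ← sq, ← pow_mul, ← pow_mul,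
      mul_comm]
  have hS : S.card ≤ F.card ^ lg.card * (PW W m ^ 2) ^ (Fintype.card ι - lg.card) := by
    rw [Fintype.card_piFinset]
    have h1 : ∏ i, (if i ∈ lg then F else (univ : Finset (Lb W (fun r => Fin (m r))))).card ≤
        ∏ i : ι, (if i ∈ lg then F.card else PW W m ^ 2) := by
      apply prod_le_prod'
      intro i _
      split_ifs
      · exact le_rfl
      · exact hcu.le
    refine h1.trans (le_of_eq ?_)
    rw [prod_ite, prod_const, prod_const]
    have h2 : (univ.filter fun i => i ∈ lg) = lg := by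
      ext i; simp
    have h3 : (univ.filter fun i => ¬ i ∈ lg).card = Fintype.card ι - lg.card := by
      have h4 : (univ.filter fun i => ¬ i ∈ lg) = lgᶜ := by ext i; simp
      rw [h4, card_compl]
    rw [h2, h3]
  have h1 : ((univ : Finset (CM ℓ W ι τ m)).filter fun x => ∀ i ∈ lg, lac x i ∈ F).card ≤
      (S ×ˢ (univ : Finset ((r : R) → (Fin (m r) → τ r → ZMod ℓ) × (Fin (m r) → τ r → ZMod ℓ) ×
        (τ r → ZMod ℓ)))).card := by
    apply card_le_card_of_injOn
      (fun x => (fun i => lac x i, fun r => (fun a => ((x r).1 a).2, fun a => ((x r).2.1 a).2,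
        (x r).2.2)))
    · intro x hx
      have hx' := (mem_filter.1 (mem_coe.1 hx)).2
      refine mem_coe.2 (mem_product.2 ⟨?_, mem_univ _⟩)
      show (fun i => lac x i) ∈ S
      rw [Fintype.mem_piFinset]
      intro i
      split_ifs with h
      · exact hx' i h
      · exact mem_univ _
    · intro x _ y _ h
      obtain ⟨h1, h2⟩ := Prod.ext_iff.1 h
      simp only at h1 h2
      funext r
      have h3 := congrFun h2 r
      simp only [Prod.mk.injEq] at h3
      obtain ⟨h3, h4, h5⟩ := h3
      have h6 : ∀ i, lab (x r).1 (x r).2.1 i = lab (y r).1 (y r).2.1 i := fun i =>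
        congrFun (congrFun h1 i) r
      apply Prod.ext
      · funext a
        apply Prod.ext
        · funext i
          exact congrArg Prod.fst (congrFun (h6 i) a)
        · exact congrFun h3 a
      · apply Prod.ext
        · funext a
          apply Prod.ext
          · funext i
            exact congrArg Prod.snd (congrFun (h6 i) a)
          · exact congrFun h4 a
        · exact h5
  refine h1.trans ?_
  rw [card_product, mul_comm]
  apply Nat.mul_le_mul _ hS
  rw [card_univ, Fintype.card_pi]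
  apply le_of_eq
  refine prod_congr rfl fun r _ => ?_
  rw [Fintype.card_prod, Fintype.card_prod, Fintype.card_fun, Fintype.card_fun,
    ZMod.card, Fintype.card_fin, ← pow_mul, ← pow_add, ← pow_add]
  congr 1
  ring


theorem card_FM (lg : Finset ι) : (FM ℓ W τ lg m : Finset (CM ℓ W ι τ m)).card ≤
    2 ^ (PW W m ^ 2) * ((∏ r, ℓ ^ (Fintype.card (τ r) * (2 * m r + 1))) *
      ((PW W m - 1) ^ lg.card * (PW W m ^ 2) ^ (Fintype.card ι - lg.card))) := by
  let few : Finset (Lb W (fun r => Fin (m r))) → Finset (CM ℓ W ι τ m) := fun F =>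
    univ.filter fun x => ∀ i ∈ lg, lac x i ∈ F
  let FS : Finset (Finset (Lb W (fun r => Fin (m r)))) :=
    univ.filter fun F => F.card ≤ PW W m - 1
  have hsub : (FM ℓ W τ lg m : Finset (CM ℓ W ι τ m)) ⊆ FS.biUnion few := by
    intro c hc
    have h1 := (mem_filter.1 hc).2
    rw [mem_biUnion]
    exact ⟨lg.image (lac c), mem_filter.2 ⟨mem_univ _, h1⟩, mem_filter.2 ⟨mem_univ _,
      fun i hi => mem_image_of_mem _ hi⟩⟩
  refine (card_le_card hsub).trans (card_biUnion_le.trans ?_)
  have h1 : ∀ F ∈ FS, (few F).card ≤ (∏ r, ℓ ^ (Fintype.card (τ r) * (2 * m r + 1))) *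
      ((PW W m - 1) ^ lg.card * (PW W m ^ 2) ^ (Fintype.card ι - lg.card)) := by
    intro F hF
    refine (card_few_m lg F).trans ?_
    apply Nat.mul_le_mul_left
    apply Nat.mul_le_mul_right
    exact Nat.pow_le_pow_left (mem_filter.1 hF).2 _
  refine (sum_le_sum h1).trans ?_
  rw [sum_const, smul_eq_mul]
  apply Nat.mul_le_mul_right
  refine (card_filter_le _ _).trans (le_of_eq ?_)
  rw [card_univ, Fintype.card_finset, Fintype.card_pi]
  congr 1
  rw [PW, ← prod_pow]
  refine prod_congr rfl fun r _ => ?_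
  rw [Fintype.card_fun, Fintype.card_prod, Fintype.card_fin, ← sq, ← pow_mul, ← pow_mul, mul_comm]

end multi

end Pool.Agent.Q269.MF
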