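import Pool.Agent.Y164.SZ.Mc

/-!
# Several families at the same time: the configurations which give the main term

The data of finitely many families of curves; the labels are tuples with components in all the families.
The prime `ℓ` is arbitrary (also `2`).
-/

set_option autoImplicit false
set_option linter.all false

namespace Pool.Agent.Q269.MF

open Finset
open Pool.Agent.Y164.SZ

section one
variable {ℓ : ℕ} {W : Type} [AddCommGroup W] [Module (ZMod ℓ) W] {τ : Type} [Fintype τ]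
  (D : FDat ℓ W τ) {κ : Type} [Fintype κ]

theorem Oq_add (X Y : κ → W × W) : Oq D (X + Y) = Oq D X + Oq D Y + Bq D X Y := by
  simp only [Oq, Bq, Pi.add_apply, Prod.fst_add, Prod.snd_add, map_add, LinearMap.add_apply,
    ← sum_add_distrib]
  refine sum_congr rfl fun a _ => ?_
  rw [D.om_comm (Y a).1 (X a).2]
  ring

theorem Oq_smul (c : ZMod ℓ) (X : κ → W × W) : Oq D (c • X) = c * (c * Oq D X) := by
  simp only [Oq, Pi.smul_apply, Prod.smul_fst, Prod.smul_snd, map_smul, LinearMap.smul_apply,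
    smul_eq_mul, mul_sum]

theorem Oq_zero : Oq D (0 : κ → W × W) = 0 := by
  have h := Oq_smul D 0 (0 : κ → W × W)
  rwa [zero_smul, zero_mul] at h

theorem Hq_smul (c : ZMod ℓ) (u : κ → ZMod ℓ × ZMod ℓ) : Hq (c • u) = c * (c * Hq u) := by
  simp only [Hq, Pi.smul_apply, Prod.smul_fst, Prod.smul_snd, smul_eq_mul, mul_sum]
  exact sum_congr rfl fun a _ => by ring

theorem tens_zero_left (u : κ → ZMod ℓ × ZMod ℓ) : tens (0 : W) u = 0 := by
  funext a; simp [tens]

theorem tens_add_left (x y : W) (u : κ → ZMod ℓ × ZMod ℓ) : tens (x + y) u = tens x u + tens y u := by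
  funext a; simp [tens]

theorem tens_smul_left (c : ZMod ℓ) (x : W) (u : κ → ZMod ℓ × ZMod ℓ) :
    tens (c • x) u = c • tens x u := by
  funext b
  simp only [tens, Pi.smul_apply, Prod.smul_mk]
  rw [smul_comm, smul_comm (u b).2]

/-- The conditions on the bad primes. -/
structure CN : Prop where
  nd : ∀ u : W, u ≠ 0 → ∃ s, D.om u (D.t s) ≠ 0
  nb : ∀ s, ∃ s', D.om (D.t s) (D.t s') ≠ 0
  conn : ∀ P : τ → Prop, (∃ s, P s) → (∀ s s', P s → D.om (D.t s) (D.t s') ≠ 0 → P s') → ∀ s, P s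
  nonempty : Nonempty τ
  two : ℓ = 2 → ∑ s, D.e s • D.t s = 0

variable [hp : Fact ℓ.Prime] [Finite W]

theorem CN.span {D : FDat ℓ W τ} (hG : CN D) :
    Submodule.span (ZMod ℓ) (Set.range D.t) = ⊤ := by
  have h1 := LinearMap.BilinForm.finrank_orthogonal (om_nd D)
    (Submodule.span (ZMod ℓ) (Set.range D.t))
  have h2 : D.om.orthogonal (Submodule.span (ZMod ℓ) (Set.range D.t)) = ⊥ := by
    rw [eq_bot_iff]
    intro x hx
    rw [LinearMap.BilinForm.mem_orthogonal_iff] at hx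
    rw [Submodule.mem_bot]
    by_contra hne
    obtain ⟨s, hs⟩ := hG.nd x hne
    apply hs
    rw [D.om_comm]
    exact hx _ (Submodule.subset_span ⟨s, rfl⟩)
  rw [h2, finrank_bot] at h1
  have h3 := Submodule.finrank_le (Submodule.span (ZMod ℓ) (Set.range D.t))
  exact Submodule.eq_top_of_finrank_eq (by omega)

theorem ev_all {D : FDat ℓ W τ} (hG : CN D) (Λ : Submodule (ZMod ℓ) (κ → ZMod ℓ × ZMod ℓ))
    (X : κ → W × W) (hX : ∀ s, ev D (D.t s) X ∈ Λ) (x : W) : ev D x X ∈ Λ := by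
  have hx : x ∈ Submodule.span (ZMod ℓ) (Set.range D.t) := by rw [hG.span]; trivial
  refine Submodule.span_induction (p := fun x _ => ev D x X ∈ Λ) ?_ ?_ ?_ ?_ hx
  · rintro _ ⟨s, rfl⟩
    exact hX s
  · rw [ev_zero_t]
    exact Λ.zero_mem
  · intro a b _ _ h1 h2
    rw [ev_add_t]
    exact Λ.add_mem h1 h2
  · intro c a _ h1
    rw [ev_smul_t]
    exact Λ.smul_mem c h1

/-- a tuple is a sum of pure tensors -/
theorem exp_tens (D : FDat ℓ W τ) : ∃ (N : ℕ) (b b' : Fin N → W), (∀ x : W, x = ∑ i, D.om x (b i) • b' i) ∧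
    ∀ X : κ → W × W, X = ∑ i, tens (b' i) (ev D (b i) X) := by
  obtain ⟨b⟩ : Nonempty (Module.Basis (Fin (Module.finrank (ZMod ℓ) W)) (ZMod ℓ) W) :=
    ⟨Module.finBasis _ _⟩
  have hrep : ∀ x : W, x = ∑ i, D.om x (b i) • (D.om.dualBasis (om_nd D) b) i := by
    intro x
    conv_lhs => rw [← (D.om.dualBasis (om_nd D) b).sum_repr x]
    refine sum_congr rfl fun i _ => ?_
    rw [LinearMap.BilinForm.dualBasis_repr_apply]
  refine ⟨_, b, fun i => (D.om.dualBasis (om_nd D) b) i, hrep, fun X => ?_⟩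
  funext a
  rw [Finset.sum_apply]
  apply Prod.ext
  · rw [Prod.fst_sum]
    exact hrep _
  · rw [Prod.snd_sum]
    exact hrep _

end one

theorem F2_mul_self (c : ZMod 2) : c * c = c := by revert c; decide

section ws
variable {ℓ : ℕ} {W ι τ : Type} [AddCommGroup W] [Module (ZMod ℓ) W]

/-- the vector `(0, 1)` -/
def wz : V ℓ W ι τ := (0, fun _ => 1)

end ws

section dual
variable {ℓ : ℕ} [hp : Fact ℓ.Prime] {W : Type} [AddCommGroup W] [Module (ZMod ℓ) W] [Finite W]
variable {ι τ : Type} [Fintype ι] [Fintype τ] {D : FDat ℓ W τ} {κ : Type} [Fintype κ]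

/-- all functionals -/
theorem dual_all (hG : CN D) (Λ : Submodule (ZMod ℓ) (κ → ZMod ℓ × ZMod ℓ))
    (θ : κ → ZMod ℓ × ZMod ℓ)
    (w w' : κ → V ℓ W ι τ) (h1 : ∀ i s, ev D (D.t s) (lab w w' i) ∈ Λ)
    (h2 : ∀ s, zet w w' s - θ ∈ Λ) (φ : V ℓ W ι τ →ₗ[ZMod ℓ] ZMod ℓ) :
    (fun a => (φ (w a), φ (w' a))) - φ wz • θ ∈ Λ := by
  classical
  obtain ⟨N, b, b', hrep, -⟩ := exp_tens (κ := κ) D
  obtain ⟨c, hc⟩ : ∃ c : ι → Fin N → ZMod ℓ,
      c = fun i l => φ (Pi.single i (b' l), 0) := ⟨_, rfl⟩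
  obtain ⟨e, he⟩ : ∃ e : τ → ZMod ℓ, e = fun s => φ (0, Pi.single s 1) := ⟨_, rfl⟩
  have hval : ∀ v : V ℓ W ι τ, φ v = ∑ i, ∑ l, c i l * D.om (v.1 i) (b l) + ∑ s, e s * v.2 s := by
    intro v
    have h3 : v = ∑ i, ∑ l, D.om (v.1 i) (b l) • ((Pi.single i (b' l), 0) : V ℓ W ι τ) +
        ∑ s, v.2 s • ((0, Pi.single s 1) : V ℓ W ι τ) := by
      apply Prod.ext
      · rw [Prod.fst_add, Prod.fst_sum, Prod.fst_sum]
        simp only [Prod.fst_sum, Prod.smul_fst, smul_zero, sum_const_zero, add_zero]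
        funext i
        rw [Finset.sum_apply]
        rw [sum_eq_single i]
        · rw [Finset.sum_apply]
          simp only [Pi.smul_apply, Pi.single_eq_same]
          exact hrep _
        · intro j _ hj
          rw [Finset.sum_apply]
          simp only [Pi.smul_apply, Pi.single_eq_of_ne (Ne.symm hj), smul_zero, sum_const_zero]
        · intro h
          exact absurd (mem_univ _) h
      · rw [Prod.snd_add, Prod.snd_sum, Prod.snd_sum]
        simp only [Prod.snd_sum, Prod.smul_snd, smul_zero, sum_const_zero, zero_add]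
        funext s
        rw [Finset.sum_apply, sum_eq_single s]
        · simp
        · intro j _ hj
          simp only [Pi.smul_apply, Pi.single_eq_of_ne (Ne.symm hj), smul_zero]
        · intro h
          exact absurd (mem_univ _) h
    conv_lhs => rw [h3]
    rw [map_add, map_sum, map_sum]
    simp only [map_sum, map_smul, smul_eq_mul, hc, he]
    congr 1
    · exact sum_congr rfl fun i _ => sum_congr rfl fun l _ => mul_comm _ _
    · exact sum_congr rfl fun s _ => mul_comm _ _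
  have hwz : φ wz = ∑ s, e s := by
    rw [hval wz]
    simp [wz]
  have key : (fun a => (φ (w a), φ (w' a))) - φ wz • θ =
      ∑ i, ∑ l, c i l • ev D (b l) (lab w w' i) + ∑ s, e s • (zet w w' s - θ) := by
    have h3 : ∑ s, e s • (zet w w' s - θ) = ∑ s, e s • zet w w' s - φ wz • θ := by
      rw [hwz, sum_smul, ← sum_sub_distrib]
      exact sum_congr rfl fun s _ => smul_sub _ _ _
    have h4 : (fun a => (φ (w a), φ (w' a))) =
        ∑ i, ∑ l, c i l • ev D (b l) (lab w w' i) + ∑ s, e s • zet w w' s := by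
      funext a
      rw [Pi.add_apply, Finset.sum_apply, Finset.sum_apply]
      simp only [Finset.sum_apply]
      apply Prod.ext
      · rw [Prod.fst_add, Prod.fst_sum, Prod.fst_sum]
        simp only [Prod.fst_sum]
        exact hval _
      · rw [Prod.snd_add, Prod.snd_sum, Prod.snd_sum]
        simp only [Prod.snd_sum]
        exact hval _
    rw [h3, h4]
    abel
  rw [key]
  refine Λ.add_mem (Λ.sum_mem fun i _ => Λ.sum_mem fun l _ => Λ.smul_mem _ ?_)
    (Λ.sum_mem fun s _ => Λ.smul_mem _ (h2 s))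
  exact ev_all hG Λ _ (h1 i) _

/-- a vector which represents the hyperbolic form on an isotropic subspace -/
theorem exists_theta (Λ : Submodule (ZMod ℓ) (κ → ZMod ℓ × ZMod ℓ))
    (h : ∀ u ∈ Λ, ∀ v ∈ Λ, Hb u v = 0) :
    ∃ θ : κ → ZMod ℓ × ZMod ℓ, (∀ v ∈ Λ, Hb θ v = Hq v) ∧ (ℓ ≠ 2 → θ = 0) := by
  classical
  by_cases h2 : ℓ = 2
  · subst h2
    have hadd : ∀ u v : Λ, Hq ((u + v : Λ) : κ → ZMod 2 × ZMod 2) =
        Hq (u : κ → ZMod 2 × ZMod 2) + Hq (v : κ → ZMod 2 × ZMod 2) := by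
      intro u v
      rw [Submodule.coe_add, Hq_add, h _ u.2 _ v.2, add_zero]
    have hcc : ∀ c : ZMod 2, c * c = c := F2_mul_self
    let f : Λ →ₗ[ZMod 2] ZMod 2 :=
      { toFun := fun v => Hq (v : κ → ZMod 2 × ZMod 2)
        map_add' := hadd
        map_smul' := by
          intro c u
          rw [Submodule.coe_smul, Hq_smul, ← mul_assoc, hcc]
          rfl }
    obtain ⟨g, hg⟩ := LinearMap.exists_extend f
    refine ⟨fun a => (g (Pi.single a (0, 1)), g (Pi.single a (1, 0))), ?_, fun h => absurd rfl h⟩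
    intro v hv
    have h1 : g v = Hq v := by
      have := LinearMap.congr_fun hg ⟨v, hv⟩
      exact this
    rw [← h1]
    have h3 : v = ∑ a, ((v a).1 • (Pi.single a (1, 0) : κ → ZMod 2 × ZMod 2) +
        (v a).2 • (Pi.single a (0, 1) : κ → ZMod 2 × ZMod 2)) := by
      funext b
      rw [Finset.sum_apply, sum_eq_single b]
      · simp
      · intro c _ hc
        simp [Pi.single_eq_of_ne (Ne.symm hc)]
      · intro h
        exact absurd (mem_univ _) h
    conv_rhs => rw [h3]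
    rw [map_sum, Hb]
    refine sum_congr rfl fun a _ => ?_
    rw [map_add, map_smul, map_smul, smul_eq_mul, smul_eq_mul]
    ring
  · refine ⟨0, ?_, fun _ => rfl⟩
    intro v hv
    have h1 := Hb_self v
    rw [h v hv v hv] at h1
    have h3 := (mul_eq_zero.1 h1.symm).resolve_left (two_ne h2)
    rw [h3]
    simp [Hb]

end dual

section multi
variable {ℓ : ℕ} {R : Type} [Fintype R] [DecidableEq R] {W : R → Type}
  [∀ r, AddCommGroup (W r)] [∀ r, Module (ZMod ℓ) (W r)]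
variable {τ : R → Type} [∀ r, Fintype (τ r)] (D : (r : R) → FDat ℓ (W r) (τ r))
variable {κ : R → Type} [∀ r, Fintype (κ r)]

/-- labels -/
abbrev Lb (W κ : R → Type) : Type := (r : R) → κ r → W r × W r

/-- the quadratic form on labels -/
def Qm (X : Lb W κ) : ZMod ℓ := ∑ r, Oq (D r) (X r)

/-- the polar form -/
def Bm (X Y : Lb W κ) : ZMod ℓ := ∑ r, Bq (D r) (X r) (Y r)

omit [DecidableEq R] in
theorem Qm_sub (X Y : Lb W κ) : Qm D (X - Y) = Qm D X + Qm D Y - Bm D X Y := by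
  rw [Qm, Qm, Qm, Bm, ← sum_add_distrib, ← sum_sub_distrib]
  exact sum_congr rfl fun r _ => Oq_sub (D r) _ _

omit [DecidableEq R] in
theorem Qm_add (X Y : Lb W κ) : Qm D (X + Y) = Qm D X + Qm D Y + Bm D X Y := by
  rw [Qm, Qm, Qm, Bm, ← sum_add_distrib, ← sum_add_distrib]
  exact sum_congr rfl fun r _ => Oq_add (D r) _ _

omit [DecidableEq R] in
theorem Qm_smul (c : ZMod ℓ) (X : Lb W κ) : Qm D (c • X) = c * (c * Qm D X) := by
  rw [Qm, Qm, mul_sum, mul_sum]
  exact sum_congr rfl fun r _ => Oq_smul (D r) _ _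

omit [DecidableEq R] in
theorem Qm_zero : Qm D (0 : Lb W κ) = 0 := by
  have h := Qm_smul D 0 (0 : Lb W κ)
  rwa [zero_smul, zero_mul] at h

omit [DecidableEq R] in
theorem Bm_add_left (X Y Z : Lb W κ) : Bm D (X + Y) Z = Bm D X Z + Bm D Y Z := by
  rw [Bm, Bm, Bm, ← sum_add_distrib]
  exact sum_congr rfl fun r _ => Bq_add_left (D r) _ _ _

omit [DecidableEq R] in
theorem Bm_comm (X Y : Lb W κ) : Bm D X Y = Bm D Y X :=
  sum_congr rfl fun r _ => Bq_comm (D r) _ _

omit [DecidableEq R] in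
theorem Bm_smul_left (c : ZMod ℓ) (X Y : Lb W κ) : Bm D (c • X) Y = c * Bm D X Y := by
  rw [Bm, Bm, mul_sum]
  exact sum_congr rfl fun r _ => Bq_smul_left (D r) _ _ _

omit [DecidableEq R] in
theorem Bm_zero_left (Y : Lb W κ) : Bm D 0 Y = 0 := by
  have h := Bm_smul_left D 0 0 Y
  rwa [zero_smul, zero_mul] at h

/-- the polar form as a bilinear form -/
def BM : LinearMap.BilinForm (ZMod ℓ) (Lb W κ) :=
  LinearMap.mk₂ (ZMod ℓ) (Bm D) (Bm_add_left D) (Bm_smul_left D)
    (fun X Y Z => by rw [Bm_comm, Bm_add_left, Bm_comm D Y, Bm_comm D Z])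
    (fun c X Y => by rw [Bm_comm, Bm_smul_left, Bm_comm]; rfl)

/-- a label with one component -/
theorem Bm_single (r : R) (Z : κ r → W r × W r) (Y : Lb W κ) :
    Bm D (Pi.single r Z : Lb W κ) Y = Bq (D r) Z (Y r) := by
  rw [Bm, sum_eq_single r]
  · rw [Pi.single_eq_same]
  · intro b _ hb
    rw [Pi.single_eq_of_ne hb, Bq_zero_left]
  · intro h
    exact absurd (mem_univ _) h

theorem Bm_nd (X : Lb W κ) (h : ∀ Y, Bm D X Y = 0) : X = 0 := by
  funext r
  apply Bq_nd (D r)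
  intro Y
  have := h (Pi.single r Y : Lb W κ)
  rw [Bm_comm, Bm_single, Bq_comm] at this
  exact this

variable [hp : Fact ℓ.Prime] [∀ r, Finite (W r)]

theorem BM_nd : (BM (κ := κ) D).Nondegenerate := by
  constructor
  · intro X h
    exact Bm_nd D X h
  · intro X h
    exact Bm_nd D X fun Y => by rw [Bm_comm]; exact h Y

/-- the size of a totally isotropic subspace -/
theorem iso_m (M : Submodule (ZMod ℓ) (Lb W κ)) (h : ∀ X ∈ M, ∀ Y ∈ M, Bm D X Y = 0) :
    Nat.card M ≤ ∏ r, Nat.card (W r) ^ Fintype.card (κ r) ∧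
      (∏ r, Nat.card (W r) ^ Fintype.card (κ r) ≤ Nat.card M →
      ∀ X, (∀ Y ∈ M, Bm D X Y = 0) → X ∈ M) := by
  have hle : M ≤ (BM D).orthogonal M := by
    intro X hX
    rw [LinearMap.BilinForm.mem_orthogonal_iff]
    intro Y hY
    exact h Y hY X hX
  have h1 := LinearMap.BilinForm.finrank_orthogonal (BM_nd (κ := κ) D) M
  have h2 : Module.finrank (ZMod ℓ) (Lb W κ) =
      2 * ∑ r, Fintype.card (κ r) * Module.finrank (ZMod ℓ) (W r) := by
    rw [Module.finrank_pi_fintype, mul_sum]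
    refine sum_congr rfl fun r _ => ?_
    rw [Module.finrank_pi_fintype]
    simp [Module.finrank_prod]
    ring
  have h3 := Submodule.finrank_mono hle
  have h4 := Submodule.finrank_le M
  have h5 : ∏ r, Nat.card (W r) ^ Fintype.card (κ r) =
      ℓ ^ ∑ r, Fintype.card (κ r) * Module.finrank (ZMod ℓ) (W r) := by
    rw [← prod_pow_eq_pow_sum]
    refine prod_congr rfl fun r _ => ?_
    rw [card_pow (ℓ := ℓ) (W r), ← pow_mul, mul_comm]
  rw [h5, card_pow (ℓ := ℓ) M]
  have hl := hp.out.one_lt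
  constructor
  · exact Nat.pow_le_pow_right (by omega) (by omega)
  · intro h5 X hX
    have h6 := (Nat.pow_le_pow_iff_right hl).1 h5
    have h7 : M = (BM D).orthogonal M := Submodule.eq_of_le_of_finrank_le hle (by omega)
    rw [h7, LinearMap.BilinForm.mem_orthogonal_iff]
    intro Y hY
    have := hX Y hY
    rw [Bm_comm] at this
    exact this

/-- large unlinked sets are cosets -/
theorem coset_m (S : Set (Lb W κ)) (hS : ∀ X ∈ S, ∀ Y ∈ S, Qm D (X - Y) = 0)
    (hc : ∏ r, Nat.card (W r) ^ Fintype.card (κ r) ≤ Nat.card S) (X0 : Lb W κ) (hX0 : X0 ∈ S) :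
    ∃ M : Submodule (ZMod ℓ) (Lb W κ), (∀ X ∈ M, ∀ Y ∈ M, Bm D X Y = 0) ∧
      (∀ X ∈ M, Qm D X = 0) ∧
      ∏ r, Nat.card (W r) ^ Fintype.card (κ r) ≤ Nat.card M ∧ ∀ X, X ∈ S ↔ X - X0 ∈ M := by
  set G : Set (Lb W κ) := (fun X => X - X0) '' S with hG
  set M := Submodule.span (ZMod ℓ) G with hM
  have hgB : ∀ X ∈ G, ∀ Y ∈ G, Bm D X Y = 0 := by
    rintro _ ⟨X, hX, rfl⟩ _ ⟨Y, hY, rfl⟩
    have h1 := Qm_sub D (X - X0) (Y - X0)
    rw [sub_sub_sub_cancel_right, hS X hX Y hY, hS X hX X0 hX0, hS Y hY X0 hX0, add_zero,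
      zero_sub] at h1
    exact neg_eq_zero.1 h1.symm
  have hB1 : ∀ X ∈ M, ∀ Y ∈ G, Bm D X Y = 0 := by
    intro X hX Y hY
    refine Submodule.span_induction (p := fun X _ => Bm D X Y = 0) ?_ ?_ ?_ ?_ hX
    · intro x hx
      exact hgB x hx Y hY
    · exact Bm_zero_left D Y
    · intro x y _ _ h1 h2
      rw [Bm_add_left, h1, h2, add_zero]
    · intro c x _ h1
      rw [Bm_smul_left, h1, mul_zero]
  have hB : ∀ X ∈ M, ∀ Y ∈ M, Bm D X Y = 0 := by
    intro X hX Y hY
    refine Submodule.span_induction (p := fun Y _ => Bm D X Y = 0) ?_ ?_ ?_ ?_ hY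
    · intro x hx
      exact hB1 X hX x hx
    · rw [Bm_comm, Bm_zero_left]
    · intro x y _ _ h1 h2
      rw [Bm_comm, Bm_add_left, Bm_comm D x, Bm_comm D y, h1, h2, add_zero]
    · intro c x _ h1
      rw [Bm_comm, Bm_smul_left, Bm_comm, h1, mul_zero]
  have hO : ∀ X ∈ M, Qm D X = 0 := by
    intro X hX
    refine Submodule.span_induction (p := fun X _ => Qm D X = 0) ?_ ?_ ?_ ?_ hX
    · rintro _ ⟨X, hX, rfl⟩
      exact hS X hX X0 hX0
    · exact Qm_zero D
    · intro x y hx hy h1 h2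
      rw [Qm_add, h1, h2, hB x hx y hy, add_zero, add_zero]
    · intro c x _ h1
      rw [Qm_smul, h1, mul_zero, mul_zero]
  have hinj : Function.Injective (fun X : Lb W κ => X - X0) := fun _ _ h => sub_left_inj.1 h
  have h3 : Nat.card S = Nat.card G := (Nat.card_image_of_injective hinj S).symm
  have hGM : G ⊆ (M : Set (Lb W κ)) := Submodule.subset_span
  have h4 : ∏ r, Nat.card (W r) ^ Fintype.card (κ r) ≤ Nat.card G := h3 ▸ hc
  have h5 : Nat.card G ≤ Nat.card M := Nat.card_mono (Set.toFinite _) hGM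
  have h6 : G = (M : Set (Lb W κ)) := by
    apply Set.eq_of_subset_of_ncard_le hGM _ (Set.toFinite _)
    have e1 : (M : Set (Lb W κ)).ncard = Nat.card M := rfl
    have e2 : G.ncard = Nat.card G := rfl
    have e3 := (iso_m D M hB).1
    omega
  refine ⟨M, hB, hO, h4.trans h5, fun X => ?_⟩
  constructor
  · intro hX
    exact hGM ⟨X, hX, rfl⟩
  · intro hX
    have : X - X0 ∈ G := by rw [h6]; exact hX
    obtain ⟨Y, hY, h⟩ := this
    rwa [hinj h] at hY

variable {D}

/-- the direction of a maximal isotropic subspace in one family -/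
theorem dir_m (hG : ∀ r, CN (D r)) (M : Submodule (ZMod ℓ) (Lb W κ))
    (hB : ∀ X ∈ M, ∀ Y ∈ M, Bm D X Y = 0)
    (hc : ∏ r, Nat.card (W r) ^ Fintype.card (κ r) ≤ Nat.card M)
    (hd : ∀ r s, ∀ m ∈ M, ∀ m' ∈ M,
      Hb (ev (D r) ((D r).t s) (m r)) (ev (D r) ((D r).t s) (m' r)) = 0) (r : R) :
    ∃ Λ : Submodule (ZMod ℓ) (κ r → ZMod ℓ × ZMod ℓ),
      (∀ u, (∀ v ∈ Λ, Hb u v = 0) → u ∈ Λ) ∧ (∀ u ∈ Λ, ∀ v ∈ Λ, Hb u v = 0) ∧
      (∀ x : W r, ∀ u ∈ Λ, (Pi.single r (tens x u) : Lb W κ) ∈ M) ∧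
      (∀ X ∈ M, ∀ s, ev (D r) ((D r).t s) (X r) ∈ Λ) ∧
      (∀ s, ∀ u ∈ Λ, ∃ X ∈ M, ev (D r) ((D r).t s) (X r) = u) := by
  have hperp := (iso_m D M hB).2 hc
  obtain ⟨g, hg⟩ : ∃ g : W r → (κ r → ZMod ℓ × ZMod ℓ) →ₗ[ZMod ℓ] Lb W κ,
      g = fun x => (LinearMap.single (ZMod ℓ) (fun r => κ r → W r × W r) r).comp (tensL x) :=
    ⟨_, rfl⟩
  have hgv : ∀ x u, g x u = (Pi.single r (tens x u) : Lb W κ) := by
    intro x u
    rw [hg]
    rfl
  obtain ⟨Ls, hLs⟩ : ∃ Ls : τ r → Submodule (ZMod ℓ) (κ r → ZMod ℓ × ZMod ℓ),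
      Ls = fun s => M.comap (g ((D r).t s)) := ⟨_, rfl⟩
  have hmem : ∀ s u, u ∈ Ls s ↔ (Pi.single r (tens ((D r).t s) u) : Lb W κ) ∈ M := by
    intro s u
    rw [hLs]
    show g ((D r).t s) u ∈ M ↔ _
    rw [hgv]
  have ha : ∀ s u, u ∈ Ls s ↔ ∀ Y ∈ M, Hb u (ev (D r) ((D r).t s) (Y r)) = 0 := by
    intro s u
    rw [hmem]
    constructor
    · intro h Y hY
      rw [← Bq_tens, ← Bm_single]
      exact hB _ h Y hY
    · intro h
      apply hperp
      intro Y hY
      rw [Bm_single, Bq_tens]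
      exact h Y hY
  have hb : ∀ s, ∀ Y ∈ M, ev (D r) ((D r).t s) (Y r) ∈ Ls s := by
    intro s Y hY
    rw [ha]
    intro Z hZ
    exact hd r s Y hY Z hZ
  have hcc : ∀ s s' u v, (D r).om ((D r).t s) ((D r).t s') ≠ 0 → u ∈ Ls s → v ∈ Ls s' →
      Hb u v = 0 := by
    intro s s' u v hne hu hv
    have h1 := (ha s u).1 hu _ ((hmem s' v).1 hv)
    rw [Pi.single_eq_same, ev_tens, Hb_comm, Hb_smul_left, (D r).om_comm] at h1
    rw [Hb_comm]
    exact (mul_eq_zero.1 h1).resolve_left hne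
  have hdd : ∀ s u, (∀ v ∈ Ls s, Hb u v = 0) → u ∈ Ls s := by
    intro s u h
    rw [ha]
    intro Y hY
    exact h _ (hb s Y hY)
  have hee : ∀ s s', (D r).om ((D r).t s) ((D r).t s') ≠ 0 → Ls s = Ls s' := by
    intro s s' hne
    apply le_antisymm
    · intro u hu
      exact hdd s' u fun v hv => hcc s s' u v hne hu hv
    · intro u hu
      exact hdd s u fun v hv => hcc s' s u v (by rwa [(D r).om_comm]) hu hv
  obtain ⟨s0⟩ := (hG r).nonempty
  have hall : ∀ s, Ls s = Ls s0 :=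
    (hG r).conn (fun s => Ls s = Ls s0) ⟨s0, rfl⟩
      (fun s s' h hne => (hee s s' hne).symm.trans h)
  refine ⟨Ls s0, hdd s0, ?_, ?_, ?_, ?_⟩
  · intro u hu v hv
    obtain ⟨s1, hs1⟩ := (hG r).nb s0
    exact hcc s0 s1 u v hs1 hu (by rw [hall s1]; exact hv)
  · intro x u hu
    have hx : x ∈ Submodule.span (ZMod ℓ) (Set.range (D r).t) := by rw [(hG r).span]; trivial
    refine Submodule.span_induction (p := fun x _ => (Pi.single r (tens x u) : Lb W κ) ∈ M)
      ?_ ?_ ?_ ?_ hx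
    · rintro _ ⟨s, rfl⟩
      rw [← hmem, hall]
      exact hu
    · rw [tens_zero_left, Pi.single_zero]
      exact M.zero_mem
    · intro a b _ _ h1 h2
      rw [tens_add_left, Pi.single_add]
      exact M.add_mem h1 h2
    · intro c a _ h1
      rw [tens_smul_left, Pi.single_smul]
      exact M.smul_mem c h1
  · intro X hX s
    rw [← hall s]
    exact hb s X hX
  · intro s u hu
    obtain ⟨s1, hs1⟩ := (hG r).nb s
    rw [← hall s1] at hu
    refine ⟨((D r).om ((D r).t s) ((D r).t s1))⁻¹ •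
      (Pi.single r (tens ((D r).t s1) u) : Lb W κ), M.smul_mem _ ((hmem s1 u).1 hu), ?_⟩
    rw [Pi.smul_apply, Pi.single_eq_same]
    have h1 : ev (D r) ((D r).t s) (((D r).om ((D r).t s) ((D r).t s1))⁻¹ •
        tens ((D r).t s1) u) = ((D r).om ((D r).t s) ((D r).t s1))⁻¹ •
        ev (D r) ((D r).t s) (tens ((D r).t s1) u) := by
      funext a
      simp [ev]
    rw [h1, ev_tens, (D r).om_comm ((D r).t s1) ((D r).t s), smul_smul, inv_mul_cancel₀ hs1,
      one_smul]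

end multi

end Pool.Agent.Q269.MF
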