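import Pool.Agent.Q269.MF.Ce

/-!
# Several families at the same time: the theorem in a cell
-/

set_option autoImplicit false
set_option linter.all false

namespace Pool.Agent.Q269.MF

open Finset Polynomial
open Pool.Agent.Y164.SZ
open scoped Classical

section ineq
variable {R : Type} [DecidableEq R]

theorem prod_ge_sub (s : Finset R) (x L U : R → ℝ) (h0 : ∀ r, 0 ≤ x r) (h1 : ∀ r, L r ≤ x r)
    (h2 : ∀ r, x r ≤ U r) :
    ∏ r ∈ s, U r - ∑ r ∈ s, (U r - L r) * ∏ r' ∈ s.erase r, U r' ≤ ∏ r ∈ s, x r := by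
  induction s using Finset.induction_on with
  | empty => simp
  | insert a s ha ih =>
    have e1 : ∑ r ∈ s, (U r - L r) * ∏ r' ∈ (insert a s).erase r, U r' =
        U a * ∑ r ∈ s, (U r - L r) * ∏ r' ∈ s.erase r, U r' := by
      rw [mul_sum]
      refine sum_congr rfl fun r hr => ?_
      have hra : a ≠ r := by
        rintro rfl
        exact ha hr
      rw [erase_insert_of_ne hra, prod_insert (fun h => ha (mem_of_mem_erase h))]
      ring
    rw [prod_insert ha, prod_insert ha, sum_insert ha, erase_insert ha, e1]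
    set PU := ∏ r ∈ s, U r with hPU
    set Px := ∏ r ∈ s, x r with hPx
    set S := ∑ r ∈ s, (U r - L r) * ∏ r' ∈ s.erase r, U r' with hS
    have h3 : 0 ≤ Px := prod_nonneg fun r _ => h0 r
    have h4 : Px ≤ PU := prod_le_prod (fun r _ => h0 r) fun r _ => h2 r
    have h5 : 0 ≤ U a := (h0 a).trans (h2 a)
    have h6 : U a * (PU - S) ≤ U a * Px := mul_le_mul_of_nonneg_left ih h5
    have h7 : (U a - L a) * Px ≤ (U a - L a) * PU :=
      mul_le_mul_of_nonneg_left h4 (by linarith [h1 a, h2 a])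
    have h8 : L a * Px ≤ x a * Px := mul_le_mul_of_nonneg_right (h1 a) h3
    nlinarith

end ineq

section abs
variable {ℓ : ℕ} {k : Type} [Field k] [Fintype k] [DecidableEq k]
variable {ι τ : Type} [Fintype ι] [Fintype τ]

/-- the class condition -/
def cla (sp g : τ → ZMod ℓ) (Q : τ → k[X]) (T : ι → k[X]) : Prop :=
  ∀ s, sp s + ∑ i, BT ℓ Q T i s + g s = 0

/-- the number of tuples in the class with a property -/
noncomputable def XXa (Q : τ → k[X]) (sp g : τ → ZMod ℓ) (P : (ι → k[X]) → Prop)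
    (𝒞 : ι → Finset k[X]) : ℝ :=
  ∑ T ∈ Fintype.piFinset 𝒞, (if (ok Q T ∧ cla sp g Q T) ∧ P T then (1 : ℝ) else 0)

/-- the estimate in the cells, with constant `c` and parameters `R`, `w`, `C` -/
def CEa [NeZero ℓ] (Q : τ → k[X]) (sp g : τ → ZMod ℓ) (U : ZMod ℓ → Prop)
    (P : (ι : Type) → [Fintype ι] → (ι → ZMod ℓ) → (ι → k[X]) → Prop) (c : ℝ) (R w : ℕ)
    (C : ℝ) : Prop :=
  ∀ (ι : Type) [Fintype ι] (d : ι → ZMod ℓ) (𝒞 : ι → Finset k[X]) (lg : Finset ι) (Nd : ℕ)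
    (η : ℝ) (s : ℕ), Cell ℓ Q 𝒞 lg Nd η → U (∑ i, d i) →
    (∀ i, i ∉ lg → ∃ p, 𝒞 i = {p}) → 1 ≤ s → R * s ≤ Fintype.card ι →
    Fintype.card ι - lg.card ≤ s → C * (1 / 2) ^ s ≤ 1 → η * (C * (w : ℝ) ^ Fintype.card ι) ≤ 1 →
    c * OK Q 𝒞 ≤ (ℓ : ℝ) ^ Fintype.card τ * XXa Q sp g (P ι d) 𝒞

/-- the estimate in the cells, with constant `c` -/
def CellA [NeZero ℓ] (Q : τ → k[X]) (sp g : τ → ZMod ℓ) (U : ZMod ℓ → Prop)
    (P : (ι : Type) → [Fintype ι] → (ι → ZMod ℓ) → (ι → k[X]) → Prop) (c : ℝ) : Prop :=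
  ∃ (R w : ℕ) (C : ℝ), 1 ≤ R ∧ 1 ≤ w ∧ 1 ≤ C ∧ CEa Q sp g U P c R w C

theorem XXa_nonneg (Q : τ → k[X]) (sp g : τ → ZMod ℓ) (P : (ι → k[X]) → Prop)
    (𝒞 : ι → Finset k[X]) : 0 ≤ XXa Q sp g P 𝒞 :=
  sum_nonneg fun _ _ => by split_ifs <;> norm_num

end abs

section San
variable {ℓ : ℕ} [hp : Fact ℓ.Prime] {W τ : Type} [AddCommGroup W] [Module (ZMod ℓ) W] [Fintype W]
  [Fintype τ]

/-- lower and upper bounds in terms of the numbers of independent tuples in the kernel -/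
def San (l u : ℕ → ℝ) (K : ℕ) (D : FDat ℓ W τ) : Prop :=
  ∀ (ι : Type) [Fintype ι] (A : ι → ι → ZMod ℓ) (B : ι → τ → ZMod ℓ) (d : ι → ZMod ℓ),
    (∀ i j, A i j = A j i) → IsUnit (∑ i, d i + D.N) →
    ∑ j ∈ range (K + 1), l j * (kLI D A B d j : ℝ) ≤ (if Triv D A B d then (1 : ℝ) else 0) ∧
    (if Triv D A B d then (1 : ℝ) else 0) ≤ ∑ j ∈ range (K + 1), u j * (kLI D A B d j : ℝ)

/-- triviality of the kernel is equivalent to `p` -/
def TrB {ι : Type} [Fintype ι] (D : FDat ℓ W τ) (A : ι → ι → ZMod ℓ) (B : ι → τ → ZMod ℓ)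
    (d : ι → ZMod ℓ) (p : Prop) : Prop := Triv D A B d ↔ p

/-- the same for the indicator function of `Triv ↔ p` -/
def SanB (p : Prop) (l u : ℕ → ℝ) (K : ℕ) (D : FDat ℓ W τ) : Prop :=
  ∀ (ι : Type) [Fintype ι] (A : ι → ι → ZMod ℓ) (B : ι → τ → ZMod ℓ) (d : ι → ZMod ℓ),
    (∀ i j, A i j = A j i) → IsUnit (∑ i, d i + D.N) →
    ∑ j ∈ range (K + 1), l j * (kLI D A B d j : ℝ) ≤
      (if TrB D A B d p then (1 : ℝ) else 0) ∧
    (if TrB D A B d p then (1 : ℝ) else 0) ≤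
      ∑ j ∈ range (K + 1), u j * (kLI D A B d j : ℝ)

theorem San.pos {l u : ℕ → ℝ} {K : ℕ} {D : FDat ℓ W τ} (h : San l u K D) {p : Prop} (hp : p) :
    SanB p l u K D := by
  intro ι _ A B d hA hN
  have h1 := h ι A B d hA hN
  have h2 : TrB D A B d p ↔ Triv D A B d := by
    constructor
    · intro h3
      exact h3.2 hp
    · intro h3
      exact ⟨fun _ => hp, fun _ => h3⟩
  simp only [h2]
  exact h1

/-- the coefficients for the complement -/
noncomputable def cmp (l : ℕ → ℝ) (j : ℕ) : ℝ := (if j = 0 then 1 else 0) - l j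

theorem kLI_zero {ι : Type} [Fintype ι] (D : FDat ℓ W τ) (A : ι → ι → ZMod ℓ)
    (B : ι → τ → ZMod ℓ) (d : ι → ZMod ℓ) : (kLI D A B d 0 : ℝ) = 1 := by
  rw [kLI_eq, range_zero, prod_empty]

theorem sum_cmp (l f : ℕ → ℝ) (hf : f 0 = 1) (K : ℕ) :
    ∑ j ∈ range (K + 1), cmp l j * f j = 1 - ∑ j ∈ range (K + 1), l j * f j := by
  simp only [cmp, sub_mul, sum_sub_distrib, ite_mul, one_mul, zero_mul]
  rw [sum_ite_eq' (range (K + 1)) 0 f, if_pos (mem_range.2 (Nat.succ_pos K)), hf]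

theorem San.neg {l u : ℕ → ℝ} {K : ℕ} {D : FDat ℓ W τ} (h : San l u K D) {p : Prop} (hp : ¬ p) :
    SanB p (cmp u) (cmp l) K D := by
  intro ι _ A B d hA hN
  have h1 := h ι A B d hA hN
  have h2 : TrB D A B d p ↔ ¬ Triv D A B d := by
    constructor
    · intro h3 h4
      exact hp (h3.1 h4)
    · intro h3
      exact ⟨fun h4 => absurd h4 h3, fun h4 => absurd h4 hp⟩
  have h3 : (if TrB D A B d p then (1 : ℝ) else 0) =
      1 - (if Triv D A B d then (1 : ℝ) else 0) := by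
    simp only [h2]
    by_cases h4 : Triv D A B d
    · rw [if_neg (not_not.2 h4), if_pos h4, sub_self]
    · rw [if_pos h4, if_neg h4, sub_zero]
  rw [h3, sum_cmp u _ (kLI_zero D A B d), sum_cmp l _ (kLI_zero D A B d)]
  constructor
  · linarith [h1.2]
  · linarith [h1.1]

end San

section mono
variable {ℓ : ℕ} [NeZero ℓ] {k : Type} [Field k] [Fintype k] [DecidableEq k]
variable {τ : Type} [Fintype τ] {Q : τ → k[X]} {sp g : τ → ZMod ℓ} {U : ZMod ℓ → Prop}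
  {P : (ι : Type) → [Fintype ι] → (ι → ZMod ℓ) → (ι → k[X]) → Prop}

theorem CEa.mono {c : ℝ} {R w R' w' : ℕ} {C C' : ℝ} (h : CEa Q sp g U P c R w C) (hR : R ≤ R')
    (hw : w ≤ w') (hC : C ≤ C') (hC0 : 0 ≤ C) : CEa Q sp g U P c R' w' C' := by
  intro ι _ d 𝒞 lg Nd η s hc hU hs1 hs2 hs3 hs4 hA hB
  refine h ι d 𝒞 lg Nd η s hc hU hs1 hs2 ((Nat.mul_le_mul_right s hR).trans hs3) hs4 ?_ ?_
  · exact (mul_le_mul_of_nonneg_right hC (by positivity)).trans hA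
  · refine le_trans ?_ hB
    apply mul_le_mul_of_nonneg_left _ hc.eta0
    apply mul_le_mul hC _ (by positivity) (hC0.trans hC)
    apply pow_le_pow_left₀ (by positivity)
    exact_mod_cast hw

/-- sums over a partition -/
theorem CellA.sum {β : Type} (s : Finset β)
    {PP : β → (ι : Type) → [Fintype ι] → (ι → ZMod ℓ) → (ι → k[X]) → Prop} {c : β → ℝ}
    (h : ∀ b ∈ s, CellA Q sp g U (PP b) (c b))
    (hP : ∀ (ι : Type) [Fintype ι] (d : ι → ZMod ℓ) (T : ι → k[X]),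
      ∑ b ∈ s, (if PP b ι d T then (1 : ℝ) else 0) ≤ (if P ι d T then 1 else 0)) :
    CellA Q sp g U P (∑ b ∈ s, c b) := by
  choose! R w C h1 h2 h3 h4 using h
  refine ⟨1 + ∑ b ∈ s, R b, 1 + ∑ b ∈ s, w b, 1 + ∑ b ∈ s, C b, by omega, by omega, ?_, ?_⟩
  · have : 0 ≤ ∑ b ∈ s, C b := sum_nonneg fun b hb => by linarith [h3 b hb]
    linarith
  intro ι _ d 𝒞 lg Nd η z hc hU hs1 hs2 hs3 hs4 hA hB
  have key : ∀ b ∈ s, c b * OK Q 𝒞 ≤ (ℓ : ℝ) ^ Fintype.card τ * XXa Q sp g (PP b ι d) 𝒞 := by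
    intro b hb
    have h5 : CEa Q sp g U (PP b) (c b) (1 + ∑ b ∈ s, R b) (1 + ∑ b ∈ s, w b)
        (1 + ∑ b ∈ s, C b) := by
      apply (h4 b hb).mono
      · have := single_le_sum (f := R) (fun _ _ => Nat.zero_le _) hb
        omega
      · have := single_le_sum (f := w) (fun _ _ => Nat.zero_le _) hb
        omega
      · have := single_le_sum (f := C) (fun b hb => by linarith [h3 b hb]) hb
        linarith
      · linarith [h3 b hb]
    exact h5 ι d 𝒞 lg Nd η z hc hU hs1 hs2 hs3 hs4 hA hB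
  rw [sum_mul]
  refine (sum_le_sum key).trans ?_
  rw [← mul_sum]
  apply mul_le_mul_of_nonneg_left _ (by positivity)
  simp only [XXa]
  rw [sum_comm]
  apply sum_le_sum
  intro T _
  by_cases h5 : ok Q T ∧ cla sp g Q T
  · have h6 : ∀ p : Prop, ((ok Q T ∧ cla sp g Q T) ∧ p) ↔ p := fun p =>
      ⟨fun h => h.2, fun h => ⟨h5, h⟩⟩
    simp only [h6]
    exact hP ι d T
  · have h6 : ∀ p : Prop, ¬ ((ok Q T ∧ cla sp g Q T) ∧ p) := fun p h => h5 h.1
    simp only [h6, if_false, sum_const_zero, le_refl]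

end mono

section lin
variable {ℓ : ℕ} [hp : Fact ℓ.Prime] {k : Type} [Field k] [Fintype k] [DecidableEq k]
variable {R : Type} [Fintype R] [DecidableEq R] {W : R → Type}
  [∀ r, AddCommGroup (W r)] [∀ r, Module (ZMod ℓ) (W r)] [∀ r, Fintype (W r)]
variable {τ : R → Type} [∀ r, Fintype (τ r)] (D : (r : R) → FDat ℓ (W r) (τ r))
variable {ι : Type} [Fintype ι]
variable {Q : (Σ r, τ r) → k[X]} {d : ι → ZMod ℓ} {𝒞 : ι → Finset k[X]}

/-- a product of linear forms in the numbers of tuples -/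
noncomputable def EX (D : (r : R) → FDat ℓ (W r) (τ r)) (Q : (Σ r, τ r) → k[X]) (d : ι → ZMod ℓ)
    (K : ℕ) (v : R → ℕ → ℝ) (T : ι → k[X]) : ℝ :=
  ∏ r, ∑ j ∈ range (K + 1), v r j * (kLI (D r) (AT ℓ T) (BT ℓ (Qr Q r) T) d j : ℝ)

theorem sum_EX (K : ℕ) (v : R → ℕ → ℝ) :
    ∑ T ∈ Fintype.piFinset 𝒞, (if ok Q T ∧ clM D Q T then EX D Q d K v T else 0) =
    ∑ m ∈ Fintype.piFinset (fun _ : R => range (K + 1)), (∏ r, v r (m r)) * SSm D Q d 𝒞 m := by
  simp only [SSm, mul_sum]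
  rw [sum_comm]
  refine sum_congr rfl fun T _ => ?_
  split_ifs with h
  · rw [EX, Finset.prod_univ_sum]
    refine sum_congr rfl fun m _ => ?_
    rw [prod_mul_distrib]
  · simp only [mul_zero, sum_const_zero]

theorem lin_est {K : ℕ} {δ X t : ℝ} (hX : 0 ≤ X) (ht : 0 ≤ t)
    (hmom : ∀ m : R → ℕ, (∀ r, m r ≤ K) → |SSm D Q d 𝒞 m * t -
      (∏ r, ((AS ℓ (m r)).card : ℝ)) * X| ≤ (4 + ∏ r, ((AS ℓ (m r)).card : ℝ)) * δ * X)
    (v : R → ℕ → ℝ) :
    |t * ∑ T ∈ Fintype.piFinset 𝒞, (if ok Q T ∧ clM D Q T then EX D Q d K v T else 0) -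
      (∏ r, ∑ j ∈ range (K + 1), v r j * ((AS ℓ j).card : ℝ)) * X| ≤
    (∑ m ∈ Fintype.piFinset (fun _ : R => range (K + 1)), |∏ r, v r (m r)| *
      (4 + ∏ r, ((AS ℓ (m r)).card : ℝ))) * δ * X := by
  rw [sum_EX, Finset.prod_univ_sum, mul_sum, sum_mul, ← sum_sub_distrib]
  refine (abs_sum_le_sum_abs _ _).trans ?_
  rw [sum_mul, sum_mul]
  apply sum_le_sum
  intro m hm
  rw [Fintype.mem_piFinset] at hm
  have h1 := hmom m fun r => by
    have := mem_range.1 (hm r)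
    omega
  have h2 : t * ((∏ r, v r (m r)) * SSm D Q d 𝒞 m) -
      (∏ r, v r (m r) * ((AS ℓ (m r)).card : ℝ)) * X = (∏ r, v r (m r)) *
      (SSm D Q d 𝒞 m * t - (∏ r, ((AS ℓ (m r)).card : ℝ)) * X) := by
    rw [prod_mul_distrib]
    ring
  rw [h2, abs_mul]
  calc |∏ r, v r (m r)| * |SSm D Q d 𝒞 m * t - (∏ r, ((AS ℓ (m r)).card : ℝ)) * X| ≤
      |∏ r, v r (m r)| * ((4 + ∏ r, ((AS ℓ (m r)).card : ℝ)) * δ * X) :=
        mul_le_mul_of_nonneg_left h1 (abs_nonneg _)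
    _ = _ := by ring

/-- the kernels for `r ∈ S` are trivial and the others are not trivial -/
def PS (D : (r : R) → FDat ℓ (W r) (τ r)) (Q : (Σ r, τ r) → k[X]) (S : Finset R) (ι : Type)
    [Fintype ι] (d : ι → ZMod ℓ) (T : ι → k[X]) : Prop :=
  ∀ r, TrB (D r) (AT ℓ T) (BT ℓ (Qr Q r) T) d (r ∈ S)

/-- the set of the trivial kernels belongs to `𝒜` -/
def PU (D : (r : R) → FDat ℓ (W r) (τ r)) (Q : (Σ r, τ r) → k[X]) (𝒜 : Finset (Finset R))
    (ι : Type) [Fintype ι] (d : ι → ZMod ℓ) (T : ι → k[X]) : Prop :=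
  (univ.filter fun r => Triv (D r) (AT ℓ T) (BT ℓ (Qr Q r) T) d) ∈ 𝒜

/-- the components -/
def spM (D : (r : R) → FDat ℓ (W r) (τ r)) (x : Σ r, τ r) : ZMod ℓ := (D x.1).sp x.2

/-- the components -/
def gM (D : (r : R) → FDat ℓ (W r) (τ r)) (x : Σ r, τ r) : ZMod ℓ := (D x.1).g x.2

theorem cla_iff (T : ι → k[X]) : cla (spM D) (gM D) Q T ↔ clM D Q T :=
  ⟨fun h r s => h ⟨r, s⟩, fun h x => h x.1 x.2⟩

theorem XX_ge_m {K : ℕ} {l u : R → ℕ → ℝ} {S : Finset R}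
    (hS : ∀ r, SanB (r ∈ S) (l r) (u r) K (D r)) (hsym : SYM0 ℓ k)
    (hN : ∀ r, IsUnit (∑ i, d i + (D r).N)) :
    ∑ T ∈ Fintype.piFinset 𝒞, (if ok Q T ∧ clM D Q T then EX D Q d K u T else 0) -
    ∑ r : R, ∑ T ∈ Fintype.piFinset 𝒞, (if ok Q T ∧ clM D Q T then
      EX D Q d K (fun r' => if r' = r then (fun j => u r j - l r j) else u r') T else 0) ≤
    XXa Q (spM D) (gM D) (PS D Q S ι d) 𝒞 := by
  rw [sum_comm, ← sum_sub_distrib, XXa]
  apply sum_le_sum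
  intro T _
  by_cases h : ok Q T ∧ clM D Q T
  · simp only [if_pos h]
    have h' : ok Q T ∧ cla (spM D) (gM D) Q T := ⟨h.1, (cla_iff D T).2 h.2⟩
    obtain ⟨x, hx⟩ : ∃ x : R → ℝ, x = fun r =>
      (if TrB (D r) (AT ℓ T) (BT ℓ (Qr Q r) T) d (r ∈ S) then (1 : ℝ) else 0) := ⟨_, rfl⟩
    obtain ⟨U, hU⟩ : ∃ U : R → ℝ, U = fun r => ∑ j ∈ range (K + 1), u r j *
      (kLI (D r) (AT ℓ T) (BT ℓ (Qr Q r) T) d j : ℝ) := ⟨_, rfl⟩
    obtain ⟨Lo, hL⟩ : ∃ Lo : R → ℝ, Lo = fun r => ∑ j ∈ range (K + 1), l r j *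
      (kLI (D r) (AT ℓ T) (BT ℓ (Qr Q r) T) d j : ℝ) := ⟨_, rfl⟩
    have h1 := prod_ge_sub univ x Lo U (fun r => by rw [hx]; dsimp only; split_ifs <;> norm_num)
      (fun r => by
        rw [hx, hL]
        exact (hS r ι (AT ℓ T) (BT ℓ (Qr Q r) T) d (AT_comm hsym T) (hN r)).1)
      (fun r => by
        rw [hx, hU]
        exact (hS r ι (AT ℓ T) (BT ℓ (Qr Q r) T) d (AT_comm hsym T) (hN r)).2)
    have h2 : ∏ r, x r ≤ if (ok Q T ∧ cla (spM D) (gM D) Q T) ∧ PS D Q S ι d T then (1 : ℝ)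
        else 0 := by
      by_cases h3 : PS D Q S ι d T
      · rw [if_pos ⟨h', h3⟩]
        apply prod_le_one
        · intro r _
          rw [hx]
          dsimp only
          split_ifs <;> norm_num
        · intro r _
          rw [hx]
          dsimp only
          split_ifs <;> norm_num
      · rw [if_neg (fun h => h3 h.2)]
        unfold PS at h3
        rw [not_forall] at h3
        obtain ⟨r, hr⟩ := h3
        apply le_of_eq
        apply prod_eq_zero (mem_univ r)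
        rw [hx]
        exact if_neg hr
    refine le_trans (le_of_eq ?_) (h1.trans h2)
    congr 1
    · rw [EX, hU]
    · refine sum_congr rfl fun r _ => ?_
      rw [EX, ← mul_prod_erase univ _ (mem_univ r)]
      congr 1
      · simp only [if_pos]
        rw [hU, hL]
        dsimp only
        rw [← sum_sub_distrib]
        exact sum_congr rfl fun j _ => by ring
      · refine prod_congr rfl fun r' hr' => ?_
        simp only [if_neg (ne_of_mem_erase hr')]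
        rw [hU]
  · simp only [if_neg h, sum_const_zero, sub_zero]
    split_ifs <;> norm_num

/-- the constant attached to upper and lower bounds -/
noncomputable def cUL (ℓ : ℕ) [Fact ℓ.Prime] (K : ℕ) (l u : R → ℕ → ℝ) : ℝ :=
  ∏ r, ∑ j ∈ range (K + 1), u r j * ((AS ℓ j).card : ℝ) -
    ∑ r, (∑ j ∈ range (K + 1), u r j * ((AS ℓ j).card : ℝ) -
        ∑ j ∈ range (K + 1), l r j * ((AS ℓ j).card : ℝ)) *
      ∏ r' ∈ univ.erase r, ∑ j ∈ range (K + 1), u r' j * ((AS ℓ j).card : ℝ)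

/-- the estimate in the cells -/
theorem cell_m (hw : ∀ r, 2 ≤ Fintype.card (W r)) (hG : ∀ r, CN (D r))
    (hDg : SYM0 ℓ k → ∀ (ι : Type) [Fintype ι] (d : ι → ZMod ℓ), Dg D Q d)
    {K : ℕ} {l u : R → ℕ → ℝ} {S : Finset R} (hS : ∀ r, SanB (r ∈ S) (l r) (u r) K (D r))
    {ε : ℝ} (hε : 0 < ε) :
    CellA Q (spM D) (gM D) (fun x => ∀ r, IsUnit (x + (D r).N)) (PS D Q S)
      (cUL ℓ K l u - ε) := by
  have hl := hp.out.one_lt
  have hl1 : (1 : ℝ) ≤ ℓ := by exact_mod_cast hl.le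
  obtain ⟨Bv, hBv⟩ : ∃ Bv : (R → ℕ → ℝ) → ℝ, Bv = fun v =>
    ∑ m ∈ Fintype.piFinset (fun _ : R => range (K + 1)), |∏ r, v r (m r)| *
      (4 + ∏ r, ((AS ℓ (m r)).card : ℝ)) := ⟨_, rfl⟩
  have hBv0 : ∀ v, 0 ≤ Bv v := by
    intro v
    rw [hBv]
    apply sum_nonneg
    intro m _
    apply mul_nonneg (abs_nonneg _)
    have : (0 : ℝ) ≤ ∏ r, ((AS ℓ (m r)).card : ℝ) := prod_nonneg fun r _ => Nat.cast_nonneg _
    linarith
  obtain ⟨BK, hBKd⟩ : ∃ BK : ℝ, BK = Bv u +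
    ∑ r : R, Bv (fun r' => if r' = r then (fun j => u r j - l r j) else u r') := ⟨_, rfl⟩
  have hBK : 0 ≤ BK := by
    rw [hBKd]
    exact add_nonneg (hBv0 _) (sum_nonneg fun r _ => hBv0 _)
  obtain ⟨δ, hδd⟩ : ∃ δ : ℝ, δ = min (1 / 2) (ε / (BK + 1)) := ⟨_, rfl⟩
  have hδ : 0 < δ := by
    rw [hδd]
    exact lt_min (by norm_num) (by positivity)
  have hδ2 : δ ≤ 1 / 2 := by rw [hδd]; exact min_le_left _ _
  have hδ3 : BK * δ ≤ ε := by
    have h3 : δ ≤ ε / (BK + 1) := by rw [hδd]; exact min_le_right _ _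
    have h4 : BK * (ε / (BK + 1)) ≤ ε := by
      rw [mul_div_assoc', div_le_iff₀ (by linarith)]
      nlinarith
    exact (mul_le_mul_of_nonneg_left h3 hBK).trans h4
  have hw0 : ∀ r, 0 < Fintype.card (W r) := fun r => by have := hw r; omega
  have hP1 : 1 ≤ PW W (fun _ => K) := prod_pos fun r _ => pow_pos (hw0 r) _
  obtain ⟨P, hP⟩ : ∃ P : ℕ, P = PW W (fun _ => K) := ⟨_, rfl⟩
  rw [← hP] at hP1
  obtain ⟨C1, hC1⟩ : ∃ C1 : ℝ, C1 = 2 ^ (P ^ 2) *
      (ℓ : ℝ) ^ (Fintype.card (Σ r, τ r) * (2 * K + 1)) * (P : ℝ) := ⟨_, rfl⟩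
  obtain ⟨C2, hC2⟩ : ∃ C2 : ℝ, C2 = ((ℓ : ℝ) ^ Fintype.card (Σ r, τ r)) ^ (K + 1) := ⟨_, rfl⟩
  obtain ⟨C3, hC3⟩ : ∃ C3 : ℝ, C3 = 2 * (ℓ : ℝ) ^ K * (PW W (fun _ => 1) : ℝ) *
    (Fintype.card R + 1) := ⟨_, rfl⟩
  have hP1r : (1 : ℝ) ≤ P := by exact_mod_cast hP1
  have h1C1 : 0 ≤ C1 := by rw [hC1]; positivity
  have h1C2 : 1 ≤ C2 := by rw [hC2]; exact one_le_pow₀ (one_le_pow₀ hl1)
  have h1C3 : 0 ≤ C3 := by rw [hC3]; positivity
  refine ⟨P ^ 2 + 1, 2 * P, (C1 + C2 + C3) / δ, by omega, by omega, ?_, ?_⟩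
  · rw [le_div_iff₀ hδ]
    linarith
  intro ι _ d 𝒞 lg Nd η s hc hN hsing hs1 hR hs hA hB
  have hη := hc.eta0
  have hl0 : (0 : ℝ) < ℓ := by linarith
  have ht : (0 : ℝ) < (ℓ : ℝ) ^ Fintype.card (Σ r, τ r) := by positivity
  have hx : (0 : ℝ) ≤ (1 / 2 : ℝ) ^ s := by positivity
  have hA1 : C1 * (1 / 2) ^ s ≤ δ ∧ C3 * (1 / 2) ^ s ≤ δ := by
    rw [div_mul_eq_mul_div, div_le_one hδ] at hA
    have a1 : 0 ≤ C1 * (1 / 2) ^ s := mul_nonneg h1C1 hx
    have a2 : 0 ≤ C2 * (1 / 2) ^ s := mul_nonneg (by linarith) hx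
    have a3 : 0 ≤ C3 * (1 / 2) ^ s := mul_nonneg h1C3 hx
    constructor <;> linarith
  have hy : (0 : ℝ) ≤ ((2 * P : ℕ) : ℝ) ^ Fintype.card ι := by positivity
  have hB0 : η * ((C1 + C2 + C3) * ((2 * P : ℕ) : ℝ) ^ Fintype.card ι) ≤ δ := by
    have : η * ((C1 + C2 + C3) / δ * ((2 * P : ℕ) : ℝ) ^ Fintype.card ι) =
        (η * ((C1 + C2 + C3) * ((2 * P : ℕ) : ℝ) ^ Fintype.card ι)) / δ := by
      field_simp
    rw [this, div_le_one hδ] at hB
    exact hB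
  have hB1 : η * ((P : ℝ) ^ Fintype.card ι *
      ((ℓ : ℝ) ^ Fintype.card (Σ r, τ r)) ^ (K + 1)) ≤ δ := by
    refine le_trans ?_ hB0
    apply mul_le_mul_of_nonneg_left _ hη
    rw [← hC2, mul_comm]
    have h1 : (P : ℝ) ^ Fintype.card ι ≤ ((2 * P : ℕ) : ℝ) ^ Fintype.card ι := by
      apply pow_le_pow_left₀ (by linarith)
      push_cast
      linarith
    exact mul_le_mul (by linarith) h1 (by positivity) (by linarith)
  by_cases hsm : ∀ T ∈ Fintype.piFinset 𝒞, ∀ x y : ι ⊕ (Σ r, τ r), (∀ j ∈ lg, x ≠ Sum.inl j) →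
    (∀ j ∈ lg, y ≠ Sum.inl j) → Sum.elim T Q x = Sum.elim T Q y → x = y
  · have hOK : ((Fintype.piFinset 𝒞).card : ℝ) ≤ 2 * OK Q 𝒞 := by
      have h3 := OK_ge hc hsm
      have h4 : (lg.card : ℝ) * η ≤ 1 / 2 := by
        have h5 : (lg.card : ℝ) ≤ (C1 + C2 + C3) * ((2 * P : ℕ) : ℝ) ^ Fintype.card ι := by
          have hlm : lg.card ≤ Fintype.card ι := card_le_univ _
          have h6 : Fintype.card ι < (2 * P) ^ Fintype.card ι :=
            Nat.lt_pow_self (by omega)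
          have h7 : (lg.card : ℝ) ≤ ((2 * P : ℕ) : ℝ) ^ Fintype.card ι := by
            exact_mod_cast hlm.trans h6.le
          refine h7.trans (le_mul_of_one_le_left hy ?_)
          linarith
        have h6 := mul_le_mul_of_nonneg_left h5 hη
        linarith
      have h5 : (0 : ℝ) ≤ ((Fintype.piFinset 𝒞).card : ℝ) := Nat.cast_nonneg _
      nlinarith
    have hX0 : 0 ≤ OK Q 𝒞 := OK_nonneg
    have hmom : ∀ m : R → ℕ, (∀ r, m r ≤ K) → |SSm D Q d 𝒞 m *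
        (ℓ : ℝ) ^ Fintype.card (Σ r, τ r) -
        (∏ r, ((AS ℓ (m r)).card : ℝ)) * OK Q 𝒞| ≤
        (4 + ∏ r, ((AS ℓ (m r)).card : ℝ)) * δ * OK Q 𝒞 := by
      intro m hm
      exact mom_m D hc hN hG (hDg hc.S ι d) hw hm hδ hδ2 (by rw [← hP]; exact hR) hs
        (by rw [← hP, ← hC1]; exact hA1.1) (by rw [← hP]; exact hB1)
        (by rw [← hC3]; exact hA1.2) hOK
    have h3 := XX_ge_m D (Q := Q) (𝒞 := 𝒞) (d := d) hS hc.S hN
    have h4 := mul_le_mul_of_nonneg_left h3 ht.le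
    refine le_trans ?_ h4
    rw [mul_sub, mul_sum (univ : Finset R)]
    have h5 := lin_est D hX0 ht.le hmom u
    have h6 : ∀ r : R, (ℓ : ℝ) ^ Fintype.card (Σ r, τ r) *
        ∑ T ∈ Fintype.piFinset 𝒞, (if ok Q T ∧ clM D Q T then
          EX D Q d K (fun r' => if r' = r then (fun j => u r j - l r j) else u r') T else 0) ≤
        ((∑ j ∈ range (K + 1), u r j * ((AS ℓ j).card : ℝ) -
          ∑ j ∈ range (K + 1), l r j * ((AS ℓ j).card : ℝ)) *
          ∏ r' ∈ univ.erase r, ∑ j ∈ range (K + 1), u r' j * ((AS ℓ j).card : ℝ)) * OK Q 𝒞 +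
        Bv (fun r' => if r' = r then (fun j => u r j - l r j) else u r') * δ * OK Q 𝒞 := by
      intro r
      have h7 := lin_est D hX0 ht.le hmom
        (fun r' => if r' = r then (fun j => u r j - l r j) else u r')
      have h8 := (abs_le.1 h7).2
      have h9 : ∏ r', ∑ j ∈ range (K + 1),
          (if r' = r then (fun j => u r j - l r j) else u r') j *
          ((AS ℓ j).card : ℝ) = (∑ j ∈ range (K + 1), u r j * ((AS ℓ j).card : ℝ) -
          ∑ j ∈ range (K + 1), l r j * ((AS ℓ j).card : ℝ)) *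
          ∏ r' ∈ univ.erase r, ∑ j ∈ range (K + 1), u r' j * ((AS ℓ j).card : ℝ) := by
        rw [← mul_prod_erase univ _ (mem_univ r)]
        congr 1
        · simp only [if_pos]
          rw [← sum_sub_distrib]
          exact sum_congr rfl fun j _ => by ring
        · refine prod_congr rfl fun r' hr' => ?_
          simp only [if_neg (ne_of_mem_erase hr')]
      rw [h9] at h8
      rw [hBv]
      linarith
    have h7 := sum_le_sum fun (r : R) (_ : r ∈ univ) => h6 r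
    rw [sum_add_distrib, ← sum_mul, ← sum_mul, ← sum_mul] at h7
    have h8 := (abs_le.1 h5).1
    have h9 : Bv u = ∑ m ∈ Fintype.piFinset (fun _ : R => range (K + 1)),
      |∏ r, u r (m r)| * (4 + ∏ r, ((AS ℓ (m r)).card : ℝ)) := by rw [hBv]
    rw [← h9] at h8
    have h10 : BK * δ * OK Q 𝒞 ≤ ε * OK Q 𝒞 := mul_le_mul_of_nonneg_right hδ3 hX0
    rw [hBKd] at h10
    rw [cUL]
    linarith
  · push Not at hsm
    obtain ⟨T0, hT0, x, y, hx, hy, hxy, hne⟩ := hsm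
    have hno : ∀ T ∈ Fintype.piFinset 𝒞, ¬ ok Q T := by
      intro T hT hok
      apply hne
      apply hok
      have key : ∀ x : ι ⊕ (Σ r, τ r), (∀ j ∈ lg, x ≠ Sum.inl j) →
          Sum.elim T Q x = Sum.elim T0 Q x := by
        rintro (i | s) hx
        · have hi : i ∉ lg := fun h => hx i h rfl
          obtain ⟨p, hp⟩ := hsing i hi
          have h5 := Fintype.mem_piFinset.1 hT i
          have h6 := Fintype.mem_piFinset.1 hT0 i
          rw [hp, mem_singleton] at h5 h6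
          show T i = T0 i
          rw [h5, h6]
        · rfl
      rw [key x hx, key y hy, hxy]
    have h6 : OK Q 𝒞 = 0 := sum_eq_zero fun T hT => if_neg fun h => hno T hT h
    rw [h6, mul_zero]
    exact mul_nonneg ht.le (XXa_nonneg _ _ _ _ _)

/-- the estimate in the cells for sets of patterns -/
theorem cell_u (hw : ∀ r, 2 ≤ Fintype.card (W r)) (hG : ∀ r, CN (D r))
    (hDg : SYM0 ℓ k → ∀ (ι : Type) [Fintype ι] (d : ι → ZMod ℓ), Dg D Q d)
    {K : ℕ} {l u : Finset R → R → ℕ → ℝ}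
    (hS : ∀ S r, SanB (r ∈ S) (l S r) (u S r) K (D r)) (𝒜 : Finset (Finset R))
    {ε : ℝ} (hε : 0 < ε) :
    CellA Q (spM D) (gM D) (fun x => ∀ r, IsUnit (x + (D r).N)) (PU D Q 𝒜)
      (∑ S ∈ 𝒜, cUL ℓ K (l S) (u S) - ε) := by
  have h1 : CellA Q (spM D) (gM D) (fun x => ∀ r, IsUnit (x + (D r).N)) (PU D Q 𝒜)
      (∑ S ∈ 𝒜, (cUL ℓ K (l S) (u S) - ε / (𝒜.card + 1))) := by
    apply CellA.sum 𝒜 (PP := fun S => PS D Q S)
    · intro S _
      exact cell_m D hw hG hDg (hS S) (by positivity)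
    · intro ι _ d T
      have h2 : ∀ S : Finset R, PS D Q S ι d T ↔
          S = univ.filter fun r => Triv (D r) (AT ℓ T) (BT ℓ (Qr Q r) T) d := by
        intro S
        constructor
        · intro h
          ext r
          rw [mem_filter]
          exact ⟨fun h1 => ⟨mem_univ _, (h r).2 h1⟩, fun h1 => (h r).1 h1.2⟩
        · rintro rfl r
          rw [mem_filter]
          exact ⟨fun h1 => ⟨mem_univ _, h1⟩, fun h1 => h1.2⟩
      by_cases h3 : PU D Q 𝒜 ι d T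
      · rw [if_pos h3]
        have h4 : (univ.filter fun r => Triv (D r) (AT ℓ T) (BT ℓ (Qr Q r) T) d) ∈ 𝒜 := h3
        rw [sum_eq_single (univ.filter fun r => Triv (D r) (AT ℓ T) (BT ℓ (Qr Q r) T) d)]
        · split_ifs <;> norm_num
        · intro b _ hb
          exact if_neg fun h => hb ((h2 b).1 h)
        · intro h
          exact absurd h4 h
      · rw [if_neg h3]
        apply le_of_eq
        apply sum_eq_zero
        intro b hb
        apply if_neg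
        intro h
        apply h3
        show (univ.filter fun r => Triv (D r) (AT ℓ T) (BT ℓ (Qr Q r) T) d) ∈ 𝒜
        rw [← (h2 b).1 h]
        exact hb
  have h2 : ∑ S ∈ 𝒜, cUL ℓ K (l S) (u S) - ε ≤
      ∑ S ∈ 𝒜, (cUL ℓ K (l S) (u S) - ε / (𝒜.card + 1)) := by
    rw [sum_sub_distrib, sum_const, nsmul_eq_mul]
    have h3 : (𝒜.card : ℝ) * (ε / (𝒜.card + 1)) ≤ ε := by
      rw [mul_div_assoc', div_le_iff₀ (by positivity)]
      nlinarith
    linarith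
  obtain ⟨R', w, C, h3, h4, h5, h6⟩ := h1
  refine ⟨R', w, C, h3, h4, h5, ?_⟩
  intro ι _ d 𝒞 lg Nd η s hc hN hsing hs1 hR hs hA hB
  refine le_trans ?_ (h6 ι d 𝒞 lg Nd η s hc hN hsing hs1 hR hs hA hB)
  exact mul_le_mul_of_nonneg_right h2 OK_nonneg

end lin

end Pool.Agent.Q269.MF
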