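import Pool.Agent.Q269.MF.Ct
import Pool.Agent.Y290.SZ.LVL
import Pool.Agent.Y261.SZ.Main

/-!
# From the cells to all polynomials
-/

set_option autoImplicit false
set_option linter.all false

namespace Pool.Agent.Q269.MF

open Finset Polynomial Filter Topology
open Pool.Agent.Y164.SZ
open Pool.Agent.Y164.PS (coprime_of_not_dvd Fam
  Tp mem_Tp cell lgs cell_deg cell_eq lgs_eq self_cell cell_Tp cells_nonneg tup_prod fibre tuple_sum small_eq Pr mem_Pr card_Pr_ge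
  Sf mem_Sf pf mem_pf numcore m_le Xt Xt_closed Xt_self sm conv)
open Pool.Agent.Y164.HG (ty nontyp cnt cnt_eq cnt_le le_cnt)
open Pool.Agent.Y290.SZ (ok_iff et_nonneg cell_inst)
open Pool.Agent.Y261.SZ (params nb_lower)
open scoped Classical

variable {ℓ : ℕ} [hℓ : Fact ℓ.Prime]
variable {k : Type} [Field k] [Fintype k] [DecidableEq k]
variable {ι τ : Type} [Fintype ι] [Fintype τ]
variable {Q : τ → k[X]} {sp g : τ → ZMod ℓ} {U : ZMod ℓ → Prop}
  {P : (ι : Type) → [Fintype ι] → (ι → ZMod ℓ) → (ι → k[X]) → Prop}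

/-- the class condition -/
def gcla (sp g : τ → ZMod ℓ) (Q : τ → k[X]) (E : k[X]) : Prop :=
  ∀ s : τ, sp s + L ℓ E (Q s) + g s = 0

/-- `G` holds for the twists with the property -/
def ImpA (Q : τ → k[X]) (sp g : τ → ZMod ℓ) (U : ZMod ℓ → Prop)
    (P : (ι : Type) → [Fintype ι] → (ι → ZMod ℓ) → (ι → k[X]) → Prop) (G : k[X] → Prop) : Prop :=
  ∀ (ι : Type) [Fintype ι] (T : ι → k[X]), Fam (Sum.elim T Q) →
    cla sp g Q T → U (∑ i, ((T i).natDegree : ZMod ℓ)) →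
    P ι (fun i => ((T i).natDegree : ZMod ℓ)) T → G (∏ i, T i)

/-- the good members of the class -/
def P2a (G : k[X] → Prop) (sp g : τ → ZMod ℓ) (Q : τ → k[X]) (E : k[X]) : Prop :=
  (nb Q E ∧ gcla sp g Q E) ∧ G E

theorem cla_iff' (hS : SYM ℓ k) (hQ : Fam Q) {n : ℕ} {T : ι → k[X]} (hT : T ∈ Tp k ι n)
    (hn : nb Q (∏ i, T i)) : cla sp g Q T ↔ gcla sp g Q (∏ i, T i) := by
  have h1 := (mem_Tp.1 hT).1
  apply forall_congr'
  intro s
  have h2 : L ℓ (∏ i, T i) (Q s) = ∑ i, BT ℓ Q T i s := by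
    apply hS.toSYM0.L_prod_left ι univ T (Q s) (hQ.irr s).ne_zero (fun i _ => (h1 i).1.ne_zero)
    intro i _
    apply coprime_of_not_dvd (hQ.irr s)
    intro hd
    exact hn s (hd.trans (dvd_prod_of_mem _ (mem_univ i)))
  rw [h2]

theorem lvl_tuples_a (hS : SYM ℓ k) (hk : ringChar k ≠ 2) (hQ : Fam Q) (hq : 4 ≤ Fintype.card k)
    {c : ℝ} {R w : ℕ} {C : ℝ} (hR : 1 ≤ R) (hCE : CEa Q sp g U P c R w C)
    {n z s : ℕ} (hn : U (n : ZMod ℓ)) (hz : 2 ≤ z) (hs : 1 ≤ s)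
    (hm : (R + 1) * s ≤ Fintype.card ι) (hA : C * (1 / 2) ^ s ≤ 1)
    (hB : et ℓ Q n z * (C * (w : ℝ) ^ Fintype.card ι) ≤ 1) :
    c * ∑ T ∈ Xt k ι n z s, (if ok Q T then (1 : ℝ) else 0) ≤
      (ℓ : ℝ) ^ Fintype.card τ * ∑ T ∈ Xt k ι n z s, (if (ok Q T ∧ cla sp g Q T) ∧
        P ι (fun i => ((T i).natDegree : ZMod ℓ)) T then (1 : ℝ) else 0) := by
  have key : ∀ T0 ∈ Xt k ι n z s,
      c * OK Q (cell z T0) ≤ (ℓ : ℝ) ^ Fintype.card τ *
        XXa Q sp g (P ι (fun i => ((T0 i).natDegree : ZMod ℓ))) (cell z T0) := by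
    intro T0 h0
    rw [Xt, mem_filter] at h0
    have hRs : s ≤ R * s := Nat.le_mul_of_pos_left s hR
    rw [add_mul, one_mul] at hm
    have hne : (lgs z T0).Nonempty := by
      rw [← card_pos]
      have := h0.2
      omega
    have hc := cell_inst (Q := Q) (ℓ := ℓ) hS hk hQ hq hz h0.1 hne
    apply hCE ι _ _ (lgs z T0) (ℓ * (n + dQ Q)) (et ℓ Q n z) s hc _ _ hs (by omega) h0.2 hA hB
    · have h1 : ∑ i, ((T0 i).natDegree : ZMod ℓ) = (n : ZMod ℓ) := by
        rw [← (mem_Tp.1 h0.1).2]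
        push_cast
        rfl
      rw [h1]
      exact hn
    · intro i hi
      rw [lgs, mem_filter] at hi
      push Not at hi
      exact ⟨T0 i, by rw [cell, if_pos (hi (mem_univ _))]⟩
  have h1 := cells_nonneg (z := z) (X := Xt k ι n z s) Xt_closed Xt_self
    (fun T => (ℓ : ℝ) ^ Fintype.card τ * (if (ok Q T ∧ cla sp g Q T) ∧
      P ι (fun i => ((T i).natDegree : ZMod ℓ)) T then (1 : ℝ) else 0) -
      c * (if ok Q T then (1 : ℝ) else 0)) (by
      intro T0 h0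
      have h2 := key T0 h0
      rw [sum_sub_distrib, ← mul_sum, ← mul_sum]
      have h3 : ∑ T ∈ Fintype.piFinset (cell z T0), (if (ok Q T ∧ cla sp g Q T) ∧
          P ι (fun i => ((T i).natDegree : ZMod ℓ)) T then (1 : ℝ) else 0)
          = XXa Q sp g (P ι (fun i => ((T0 i).natDegree : ZMod ℓ))) (cell z T0) := by
        rw [XXa]
        refine sum_congr rfl fun T hT => ?_
        simp only [cell_deg hT]
      rw [h3]
      exact sub_nonneg.2 h2)
  rw [sum_sub_distrib, ← mul_sum, ← mul_sum] at h1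
  exact sub_nonneg.1 h1

/-- squarefree polynomials with a given number of prime factors -/
theorem lvl_a (hS : SYM ℓ k) (hk : ringChar k ≠ 2) (hQ : Fam Q) (hq : 4 ≤ Fintype.card k)
    (ι : Type) [Fintype ι] {G : k[X] → Prop} (hG : ImpA Q sp g U P G)
    {c : ℝ} {R w : ℕ} {C : ℝ} (hR : 1 ≤ R) (hCE : CEa Q sp g U P c R w C)
    {n m z s : ℕ} (hcm : Fintype.card ι = m) (hn : U (n : ZMod ℓ)) (hz : 2 ≤ z)
    (hs : 1 ≤ s) (hm : (R + 1) * s ≤ m) (hA : C * (1 / 2) ^ s ≤ 1)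
    (hB : et ℓ Q n z * (C * (w : ℝ) ^ m) ≤ 1) :
    c * (((Sf k n).filter fun E => (pf E).card = m ∧ sm z E ≤ s ∧ nb Q E).card : ℝ) ≤
      (ℓ : ℝ) ^ Fintype.card τ * (((Sf k n).filter fun E => (pf E).card = m ∧ sm z E ≤ s ∧
        P2a G sp g Q E).card : ℝ) := by
  have h0 := lvl_tuples_a (ι := ι) hS hk hQ hq hR hCE hn hz hs (by rw [hcm]; exact hm) hA
    (by rw [hcm]; exact hB)
  have hf : (0 : ℝ) < ((Fintype.card ι).factorial : ℝ) := by
    exact_mod_cast Nat.factorial_pos _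
  have c2 := conv (k := k) (ι := ι) n z s (nb Q)
  have c3 := conv (k := k) (ι := ι) n z s (P2a G sp g Q)
  rw [hcm] at c2 c3
  rw [hcm] at hf
  have e2 : ∑ T ∈ Xt k ι n z s, (if ok Q T then (1 : ℝ) else 0)
      = ∑ T ∈ Xt k ι n z s, (if Function.Injective T ∧ nb Q (∏ i, T i)
        then (1 : ℝ) else 0) := by
    refine sum_congr rfl fun T hT => ?_
    rw [Xt, mem_filter] at hT
    simp only [ok_iff hQ hT.1]
  have e3 : ∑ T ∈ Xt k ι n z s, (if (ok Q T ∧ cla sp g Q T) ∧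
        P ι (fun i => ((T i).natDegree : ZMod ℓ)) T then (1 : ℝ) else 0)
      ≤ ∑ T ∈ Xt k ι n z s, (if Function.Injective T ∧ P2a G sp g Q (∏ i, T i) then (1 : ℝ)
        else 0) := by
    apply sum_le_sum
    intro T hT
    rw [Xt, mem_filter] at hT
    by_cases h1 : (ok Q T ∧ cla sp g Q T) ∧ P ι (fun i => ((T i).natDegree : ZMod ℓ)) T
    · rw [if_pos h1]
      obtain ⟨⟨h2, h3⟩, h4⟩ := h1
      have h5 := (ok_iff hQ hT.1).1 h2
      have h6 := (cla_iff' hS hQ hT.1 h5.2).1 h3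
      have h7 := (mem_Tp.1 hT.1)
      have hR : Fam (Sum.elim T (Q)) := by
        refine ⟨?_, ?_, h2⟩
        · rintro (i | s)
          · exact (h7.1 i).1
          · exact hQ.mon s
        · rintro (i | s)
          · exact (h7.1 i).2
          · exact hQ.irr s
      have h8 : U (∑ i, ((T i).natDegree : ZMod ℓ)) := by
        have h9 : ∑ i, ((T i).natDegree : ZMod ℓ) = (n : ZMod ℓ) := by
          rw [← h7.2]
          push_cast
          rfl
        rw [h9]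
        exact hn
      have h9 : G (∏ i, T i) := hG ι T hR h3 h8 h4
      rw [if_pos ⟨h5.1, ⟨h5.2, h6⟩, h9⟩]
    · rw [if_neg h1]
      split_ifs <;> norm_num
  rw [e2, c2] at h0
  rw [c3] at e3
  have hl : (0 : ℝ) ≤ (ℓ : ℝ) ^ Fintype.card τ := by positivity
  have h1 : (m.factorial : ℝ) * (c * (((Sf k n).filter fun E => (pf E).card = m ∧
      sm z E ≤ s ∧ nb Q E).card : ℝ)) ≤ (m.factorial : ℝ) *
      ((ℓ : ℝ) ^ Fintype.card τ * (((Sf k n).filter fun E => (pf E).card = m ∧ sm z E ≤ s ∧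
      P2a G sp g Q E).card : ℝ)) := by
    have h2 := h0.trans (mul_le_mul_of_nonneg_left e3 hl)
    linarith
  exact le_of_mul_le_mul_left h1 hf

section main

/-- the main estimate in a class -/
theorem step_cnt_a (hS : SYM ℓ k) (hF : Fam Q) (hk : ringChar k ≠ 2)
    (hq : 4 ≤ Fintype.card k) {G : k[X] → Prop} (hG : ImpA Q sp g U P G)
    (c : ℝ) (hc : 0 ≤ c) (hce : CellA Q sp g U P c) (δ : ℝ) (hδ : 0 < δ) :
    ∀ᶠ n : ℕ in atTop, U (n : ZMod ℓ) →
      c * (((Sf k n).filter (nb Q)).card : ℝ) ≤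
        (ℓ : ℝ) ^ Fintype.card τ * (((Sf k n).filter (P2a G sp g Q)).card : ℝ) +
          c * (δ * (Fintype.card k : ℝ) ^ n) := by
  obtain ⟨R, w, C, hR, hw, hC, hCE⟩ := hce
  obtain ⟨A, hA⟩ := params (k := k) hk Q ℓ hw (R + 1) C (by linarith) δ hδ
  filter_upwards [hA] with n hn hu
  obtain ⟨l, s, z, h1, h2, h3, h4, h5⟩ := hn
  have key : ∀ m ∈ Icc ((R + 1) * s) (A * l),
      c * (((Sf k n).filter fun E => (pf E).card = m ∧ sm z E ≤ s ∧ nb Q E).card : ℝ) ≤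
      (ℓ : ℝ) ^ Fintype.card τ * (((Sf k n).filter fun E => (pf E).card = m ∧ sm z E ≤ s ∧
        P2a G sp g Q E).card : ℝ) := fun m hm =>
    lvl_a hS hk hF hq (Fin m) hG hR hCE (Fintype.card_fin m) hu h2 h1
      (mem_Icc.1 hm).1 h3 (h4 m (mem_Icc.1 hm).2)
  have e1 : c * cnt (R + 1) A l s z n (nb Q) ≤
      (ℓ : ℝ) ^ Fintype.card τ * cnt (R + 1) A l s z n (P2a G sp g Q) := by
    rw [cnt_eq, cnt_eq, mul_sum, mul_sum]
    refine sum_le_sum fun m hm => ?_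
    convert key m hm using 3
  have e2 := cnt_le (R + 1) A l s z n (P2a G sp g Q)
  have e3 := le_cnt (R + 1) A l s z n (nb Q)
  have e4 : (0 : ℝ) ≤ (ℓ : ℝ) ^ Fintype.card τ := by positivity
  have e5 : c * (((Sf k n).filter (nb Q)).card : ℝ) ≤ c * (cnt (R + 1) A l s z n (nb Q) +
      (((Sf k n).filter fun D => ¬ ty (R + 1) A l s z D).card : ℝ)) :=
    mul_le_mul_of_nonneg_left e3 hc
  have e6 := mul_le_mul_of_nonneg_left e2 e4
  have e7 := mul_le_mul_of_nonneg_left h5 hc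
  rw [mul_add] at e5
  linarith

/-- the main estimate in a class, in terms of all the polynomials -/
theorem class_cnt_a (hS : SYM ℓ k) (hF : Fam Q) (hk : ringChar k ≠ 2)
    (hq : 4 ≤ Fintype.card k) {G : k[X] → Prop} (hG : ImpA Q sp g U P G)
    (c : ℝ) (hc : 0 ≤ c) (hce : CellA Q sp g U P c) (ε : ℝ) (hε : 0 < ε) :
    ∀ᶠ n : ℕ in atTop, U (n : ZMod ℓ) →
      (c - ε) * (((Sf k n).filter (nb Q)).card : ℝ) ≤
        (ℓ : ℝ) ^ Fintype.card τ * (((Sf k n).filter (P2a G sp g Q)).card : ℝ) := by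
  obtain ⟨c0, hc0, hlow⟩ := nb_lower hF hk hq
  have hc1 : 0 < 1 + c := by linarith
  filter_upwards [hlow, step_cnt_a hS hF hk hq hG c hc hce (ε / (1 + c) * c0) (by positivity)]
    with n e1 e2 hu
  have e3 := e2 hu
  set Y : ℝ := (((Sf k n).filter (nb Q)).card : ℝ) with hY
  set q : ℝ := (Fintype.card k : ℝ) with hqd
  have hY0 : 0 ≤ Y := Nat.cast_nonneg _
  have h1 : c * (ε / (1 + c) * c0 * q ^ n) ≤ ε * Y := by
    calc c * (ε / (1 + c) * c0 * q ^ n) = (c / (1 + c)) * (ε * (c0 * q ^ n)) := by ring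
      _ ≤ 1 * (ε * (c0 * q ^ n)) := by
          apply mul_le_mul_of_nonneg_right
          · rw [div_le_one hc1]
            linarith
          · positivity
      _ = ε * (c0 * q ^ n) := one_mul _
      _ ≤ ε * Y := mul_le_mul_of_nonneg_left e1 hε.le
  linarith

/-- the estimate with every smaller constant is enough -/
theorem class_cnt_b (hS : SYM ℓ k) (hF : Fam Q) (hk : ringChar k ≠ 2)
    (hq : 4 ≤ Fintype.card k) {G : k[X] → Prop} (hG : ImpA Q sp g U P G)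
    (c : ℝ) (hce : ∀ ε : ℝ, 0 < ε → CellA Q sp g U P (c - ε)) (ε : ℝ) (hε : 0 < ε) :
    ∀ᶠ n : ℕ in atTop, U (n : ZMod ℓ) →
      (c - ε) * (((Sf k n).filter (nb Q)).card : ℝ) ≤
        (ℓ : ℝ) ^ Fintype.card τ * (((Sf k n).filter (P2a G sp g Q)).card : ℝ) := by
  by_cases h0 : 0 ≤ c - ε / 2
  · have := class_cnt_a hS hF hk hq hG (c - ε / 2) h0 (hce (ε / 2) (by linarith)) (ε / 2)
      (by linarith)
    have e : c - ε / 2 - ε / 2 = c - ε := by ring
    rw [e] at this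
    exact this
  · refine Filter.Eventually.of_forall fun n _ => ?_
    have h1 : (c - ε) * (((Sf k n).filter (nb Q)).card : ℝ) ≤ 0 :=
      mul_nonpos_of_nonpos_of_nonneg (by linarith) (Nat.cast_nonneg _)
    refine h1.trans ?_
    positivity

end main

/-- from the cells to all polynomials -/
theorem main_a (hS : SYM ℓ k) (hF : Fam Q) (hk : ringChar k ≠ 2) (hq : 4 ≤ Fintype.card k)
    {G : k[X] → Prop}
    {PP : (τ → ZMod ℓ) → (ι : Type) → [Fintype ι] → (ι → ZMod ℓ) → (ι → k[X]) → Prop}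
    (hG : ∀ σ, ImpA Q σ g U (PP σ) G) (c : (τ → ZMod ℓ) → ℝ)
    (hce : ∀ σ, ∀ ε : ℝ, 0 < ε → CellA Q σ g U (PP σ) (c σ - ε)) (ε : ℝ) (hε : 0 < ε) :
    ∀ᶠ n : ℕ in atTop, U (n : ZMod ℓ) →
      ((∑ σ, c σ) / (ℓ : ℝ) ^ Fintype.card τ - ε) * (((Sf k n).filter (nb Q)).card : ℝ) ≤
        (((Sf k n).filter fun E => nb Q E ∧ G E).card : ℝ) := by
  have hℓ0 : (0 : ℝ) < ℓ := by
    have := (Fact.out : ℓ.Prime).pos
    exact_mod_cast this
  have h1 : ∀ᶠ n : ℕ in atTop, ∀ σ ∈ (univ : Finset (τ → ZMod ℓ)), U (n : ZMod ℓ) →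
      (c σ - ε) * (((Sf k n).filter (nb Q)).card : ℝ) ≤
        (ℓ : ℝ) ^ Fintype.card τ * (((Sf k n).filter (P2a G σ g Q)).card : ℝ) := by
    rw [Filter.eventually_all_finset]
    intro σ _
    exact class_cnt_b hS hF hk hq (hG σ) (c σ) (hce σ) ε hε
  filter_upwards [h1] with n hn hu
  have h2 : ∑ σ : τ → ZMod ℓ, (((Sf k n).filter (P2a G σ g Q)).card : ℝ) ≤
      (((Sf k n).filter fun E => nb Q E ∧ G E).card : ℝ) := by
    rw [← Nat.cast_sum]
    have h3 : ∑ σ : τ → ZMod ℓ, ((Sf k n).filter (P2a G σ g Q)).card ≤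
        ((Sf k n).filter fun E => nb Q E ∧ G E).card := by
      rw [← card_biUnion]
      · apply card_le_card
        intro E hE
        obtain ⟨σ, -, h⟩ := mem_biUnion.1 hE
        obtain ⟨h4, h5⟩ := mem_filter.1 h
        exact mem_filter.2 ⟨h4, h5.1.1, h5.2⟩
      · intro σ _ σ' _ hne
        rw [Function.onFun, disjoint_left]
        intro E hE hE'
        apply hne
        funext s
        have h4 := (mem_filter.1 hE).2.1.2 s
        have h5 := (mem_filter.1 hE').2.1.2 s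
        rw [← h4] at h5
        have h6 := add_right_cancel (add_right_cancel h5)
        exact h6.symm
    exact_mod_cast h3
  have h3 : ∑ σ : τ → ZMod ℓ, (c σ - ε) * (((Sf k n).filter (nb Q)).card : ℝ) ≤
      ∑ σ : τ → ZMod ℓ, (ℓ : ℝ) ^ Fintype.card τ *
        (((Sf k n).filter (P2a G σ g Q)).card : ℝ) :=
    sum_le_sum fun σ hσ => hn σ hσ hu
  rw [← sum_mul, ← mul_sum, sum_sub_distrib, sum_const, nsmul_eq_mul, card_univ,
    Fintype.card_fun, ZMod.card] at h3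
  push_cast at h3
  have hp : (0 : ℝ) < (ℓ : ℝ) ^ Fintype.card τ := pow_pos hℓ0 _
  have h4 : (ℓ : ℝ) ^ Fintype.card τ * (((∑ σ, c σ) / (ℓ : ℝ) ^ Fintype.card τ - ε) *
      (((Sf k n).filter (nb Q)).card : ℝ)) ≤ (ℓ : ℝ) ^ Fintype.card τ *
      ∑ σ : τ → ZMod ℓ, (((Sf k n).filter (P2a G σ g Q)).card : ℝ) := by
    refine le_trans (le_of_eq ?_) h3
    field_simp
  exact (le_of_mul_le_mul_left h4 hp).trans h2

/-- from the cells to all polynomials, with the same constant for all classes -/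
theorem main_c (hS : SYM ℓ k) (hF : Fam Q) (hk : ringChar k ≠ 2) (hq : 4 ≤ Fintype.card k)
    {G : k[X] → Prop}
    {PP : (τ → ZMod ℓ) → (ι : Type) → [Fintype ι] → (ι → ZMod ℓ) → (ι → k[X]) → Prop}
    (hG : ∀ σ, ImpA Q σ g U (PP σ) G) (c : ℝ)
    (hce : ∀ σ, ∀ ε : ℝ, 0 < ε → CellA Q σ g U (PP σ) (c - ε)) (ε : ℝ) (hε : 0 < ε) :
    ∀ᶠ n : ℕ in atTop, U (n : ZMod ℓ) →
      (c - ε) * (((Sf k n).filter (nb Q)).card : ℝ) ≤
        (((Sf k n).filter fun E => nb Q E ∧ G E).card : ℝ) := by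
  have h := main_a hS hF hk hq hG (fun _ => c) hce ε hε
  have hℓ0 : (0 : ℝ) < ℓ := by
    have := (Fact.out : ℓ.Prime).pos
    exact_mod_cast this
  have h5 : (∑ σ : τ → ZMod ℓ, c) / (ℓ : ℝ) ^ Fintype.card τ = c := by
    rw [sum_const, nsmul_eq_mul, card_univ, Fintype.card_fun, ZMod.card]
    push_cast
    rw [mul_comm, mul_div_assoc, div_self (pow_pos hℓ0 _).ne', mul_one]
  simp only [h5] at h
  exact h

end Pool.Agent.Q269.MF
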