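import Pool.Agent.Q269.MF.Cl

/-!
# Several families at the same time: the configurations which give the main term, continued
-/

set_option autoImplicit false
set_option linter.all false

namespace Pool.Agent.Q269.MF

open Finset
open Pool.Agent.Y164.SZ

section main
variable {ℓ : ℕ} [hp : Fact ℓ.Prime] {R : Type} [Fintype R] [DecidableEq R] {W : R → Type}
  [∀ r, AddCommGroup (W r)] [∀ r, Module (ZMod ℓ) (W r)] [∀ r, Finite (W r)]
variable {τ : R → Type} [∀ r, Fintype (τ r)] {D : (r : R) → FDat ℓ (W r) (τ r)}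
variable {κ : R → Type} [∀ r, Fintype (κ r)] {ι : Type} [Fintype ι] (d : ι → ZMod ℓ)

/-- the label of `i` -/
def labm (w w' : (r : R) → κ r → V ℓ (W r) ι (τ r)) (i : ι) : Lb W κ :=
  fun r => lab (w r) (w' r) i

theorem ee_exp {r : R} (s : τ r) (ζ : κ r → ZMod ℓ × ZMod ℓ) (U : ZMod ℓ) (X0 m : κ r → W r × W r)
    (h0 : ee (D r) s ζ X0 + U = 0) (h1 : ee (D r) s ζ (X0 + m) + U = 0) :
    Hb (ζ - ev (D r) ((D r).t s) X0) (ev (D r) ((D r).t s) m) = Hq (ev (D r) ((D r).t s) m) := by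
  simp only [ee, ev_add, Hb_add_right, Hb_add_left, Hq_add] at h0 h1
  rw [Hb_sub_left]
  linear_combination h1 - h0

/-- the end of the classification, in one family -/
theorem end_m {W τ κ : Type} [AddCommGroup W] [Module (ZMod ℓ) W] [Finite W] [Fintype τ]
    [Fintype κ] {D : FDat ℓ W τ} (w w' : κ → V ℓ W ι τ) (hli : LinearIndependent (ZMod ℓ) w)
    (Λ : Submodule (ZMod ℓ) (κ → ZMod ℓ × ZMod ℓ)) (θ : κ → ZMod ℓ × ZMod ℓ)
    (p1 : ∀ u, (∀ v ∈ Λ, Hb u v = 0) → u ∈ Λ) (p2 : ∀ u ∈ Λ, ∀ v ∈ Λ, Hb u v = 0)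
    (hθ : ∀ v ∈ Λ, Hb θ v = Hq v)
    (hP : ∀ φ : V ℓ W ι τ →ₗ[ZMod ℓ] ZMod ℓ, (fun a => (φ (w a), φ (w' a))) - φ wz • θ ∈ Λ)
    (hsur : ∀ v ∈ Λ, ∃ φ : V ℓ W ι τ →ₗ[ZMod ℓ] ZMod ℓ,
      (fun a => (φ (w a), φ (w' a))) - φ wz • θ = v) :
    ∃ A : κ → κ → ZMod ℓ, (∀ a b, A a b = - A b a) ∧
      ∀ a, w' a = ∑ b, A a b • w b + A a a • wz := by
  classical
  obtain ⟨wt, hwt⟩ : ∃ wt : κ → V ℓ W ι τ, wt = fun a => w a - (θ a).1 • wz := ⟨_, rfl⟩
  obtain ⟨wt', hwt'⟩ : ∃ wt' : κ → V ℓ W ι τ, wt' = fun a => w' a - (θ a).2 • wz := ⟨_, rfl⟩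
  have hPe : ∀ φ : V ℓ W ι τ →ₗ[ZMod ℓ] ZMod ℓ,
      (fun a => (φ (w a), φ (w' a))) - φ wz • θ = fun a => (φ (wt a), φ (wt' a)) := by
    intro φ
    funext a
    rw [hwt, hwt']
    apply Prod.ext
    · show φ (w a) - φ wz * (θ a).1 = φ (w a - (θ a).1 • wz)
      rw [map_sub, map_smul, smul_eq_mul, mul_comm]
    · show φ (w' a) - φ wz * (θ a).2 = φ (w' a - (θ a).2 • wz)
      rw [map_sub, map_smul, smul_eq_mul, mul_comm]
  have hP2 : ∀ φ : V ℓ W ι τ →ₗ[ZMod ℓ] ZMod ℓ, (fun a => (φ (wt a), φ (wt' a))) ∈ Λ := by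
    intro φ
    rw [← hPe]
    exact hP φ
  -- linear independence
  have hlit : LinearIndependent (ZMod ℓ) wt := by
    rw [Fintype.linearIndependent_iff]
    intro c hc
    have h1 : (fun a => ((0 : ZMod ℓ), c a)) ∈ Λ := by
      apply p1
      intro v hv
      obtain ⟨φ, rfl⟩ := hsur v hv
      rw [hPe, Hb]
      simp only [zero_mul, zero_add]
      have h2 := congrArg φ hc
      rw [map_sum, map_zero] at h2
      rw [← h2]
      refine sum_congr rfl fun a _ => ?_
      rw [map_smul, smul_eq_mul]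
    have h2 := hθ _ h1
    simp only [Hb, Hq, zero_mul, mul_zero, add_zero, sum_const_zero] at h2
    have h3 : ∑ a, c a • w a = 0 := by
      have h4 : ∑ a, c a • wt a = ∑ a, c a • w a - (∑ a, (θ a).1 * c a) • wz := by
        rw [sum_smul, ← sum_sub_distrib, hwt]
        refine sum_congr rfl fun a _ => ?_
        rw [smul_sub, smul_smul, mul_comm]
      rw [h2, zero_smul, sub_zero] at h4
      rw [← h4, hc]
    exact Fintype.linearIndependent_iff.1 hli c h3
  obtain ⟨g, hg⟩ := LinearMap.exists_leftInverse_of_injective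
    (Fintype.linearCombination (ZMod ℓ) wt) (by
      rw [LinearMap.ker_eq_bot]
      exact linearIndependent_iff_injective_fintypeLinearCombination.1 hlit)
  have hgw : ∀ a, g (wt a) = Pi.single a 1 := by
    intro a
    have h3 := LinearMap.congr_fun hg (Pi.single a 1)
    rw [LinearMap.comp_apply, Fintype.linearCombination_apply_single, one_smul] at h3
    exact h3
  obtain ⟨φ, hφd⟩ : ∃ φ : κ → V ℓ W ι τ →ₗ[ZMod ℓ] ZMod ℓ,
      φ = fun b => (LinearMap.proj b).comp g := ⟨_, rfl⟩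
  have hφw : ∀ a b, φ b (wt a) = if b = a then 1 else 0 := by
    intro a b
    rw [hφd]
    show g (wt a) b = _
    rw [hgw, Pi.single_apply]
  have key : ∀ (ψ : V ℓ W ι τ →ₗ[ZMod ℓ] ZMod ℓ) (b : κ),
      ψ (wt' b) = - ∑ a, φ b (wt' a) * ψ (wt a) := by
    intro ψ b
    have h3 := p2 _ (hP2 ψ) _ (hP2 (φ b))
    rw [Hb] at h3
    simp only [hφw] at h3
    rw [sum_add_distrib] at h3
    have h4 : ∑ a, ψ (wt' a) * (if b = a then (1 : ZMod ℓ) else 0) = ψ (wt' b) := by
      simp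
    rw [h4] at h3
    rw [eq_neg_iff_add_eq_zero, ← h3, add_comm]
    congr 1
    exact sum_congr rfl fun a _ => mul_comm _ _
  have hanti : ∀ a b, φ b (wt' a) = - φ a (wt' b) := by
    intro a b
    have h3 := key (φ b) a
    simp only [hφw] at h3
    rw [h3]
    simp
  refine ⟨fun a b => φ b (wt' a), hanti, ?_⟩
  intro a
  have h3 : ∀ ψ : V ℓ W ι τ →ₗ[ZMod ℓ] ZMod ℓ, ψ (wt' a) = ψ (∑ b, φ b (wt' a) • wt b) := by
    intro ψ
    rw [map_sum, key ψ a, ← sum_neg_distrib]
    refine sum_congr rfl fun b _ => ?_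
    rw [map_smul, smul_eq_mul, hanti a b]
    ring
  have h4 : wt' a - ∑ b, φ b (wt' a) • wt b = 0 := by
    rw [← Module.forall_dual_apply_eq_zero_iff (ZMod ℓ)]
    intro ψ
    rw [map_sub, h3 ψ, sub_self]
  have h5 : wt' a = ∑ b, φ b (wt' a) • wt b := sub_eq_zero.1 h4
  -- the diagonal
  have h6 := hθ _ (hP2 (φ a))
  simp only [Hb, Hq, hφw] at h6
  have h7 : ∑ c, ((if a = c then (1 : ZMod ℓ) else 0) * φ a (wt' c)) = φ a (wt' a) := by simp
  have h8 : ∑ c, ((θ c).1 * φ a (wt' c) + (θ c).2 * (if a = c then (1 : ZMod ℓ) else 0)) =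
      (θ a).2 - ∑ b, φ b (wt' a) * (θ b).1 := by
    rw [sum_add_distrib]
    have h9 : ∑ c, (θ c).2 * (if a = c then (1 : ZMod ℓ) else 0) = (θ a).2 := by simp
    rw [h9, add_comm, sub_eq_add_neg, ← sum_neg_distrib]
    congr 1
    refine sum_congr rfl fun c _ => ?_
    rw [hanti c a]
    ring
  rw [h7, h8] at h6
  have h9 : w' a = wt' a + (θ a).2 • wz := by rw [hwt']; simp
  have h10 : ∑ b, φ b (wt' a) • wt b = ∑ b, φ b (wt' a) • w b -
      (∑ b, φ b (wt' a) * (θ b).1) • wz := by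
    rw [sum_smul, ← sum_sub_distrib]
    refine sum_congr rfl fun b _ => ?_
    rw [hwt, smul_sub, smul_smul]
  show w' a = ∑ b, φ b (wt' a) • w b + φ a (wt' a) • wz
  calc w' a = wt' a + (θ a).2 • wz := h9
    _ = ∑ b, φ b (wt' a) • wt b + (θ a).2 • wz := congrArg (fun x => x + (θ a).2 • wz) h5
    _ = (∑ b, φ b (wt' a) • w b - (∑ b, φ b (wt' a) * (θ b).1) • wz) + (θ a).2 • wz := by
        rw [h10]
    _ = _ := by
        rw [← h6, sub_smul]
        abel

/-- the main configurations -/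
theorem main_m (hN : ∀ r, IsUnit (∑ i, d i + (D r).N)) (hG : ∀ r, CN (D r))
    (w w' : (r : R) → κ r → V ℓ (W r) ι (τ r)) (U : (r : R) → τ r → ZMod ℓ)
    (hw : ∀ r a, dg (D r) d (w r a) = 0) (hw' : ∀ r a, dg (D r) d (w' r a) = 0)
    (hli : ∀ r, LinearIndependent (ZMod ℓ) (w r))
    (lg : Finset ι) (hcard : ∏ r, Nat.card (W r) ^ Fintype.card (κ r) ≤
      Nat.card {X : Lb W κ | ∃ j ∈ lg, labm w w' j = X})
    (hu : ∀ j ∈ lg, ∀ i, Qm D (labm w w' i - labm w w' j) = 0)
    (hee : ∀ j ∈ lg, ∀ r s, ee (D r) s (zet (w r) (w' r) s) (lab (w r) (w' r) j) + U r s = 0)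
    (r : R) :
    (∃ A : κ r → κ r → ZMod ℓ, (∀ a b, A a b = - A b a) ∧
      ∀ a, w' r a = ∑ b, A a b • w r b + A a a • wz) ∧ U r = 0 := by
  classical
  set S : Set (Lb W κ) := {X | ∃ j ∈ lg, labm w w' j = X} with hS
  have hSne : S.Nonempty := by
    by_contra he
    rw [Set.not_nonempty_iff_eq_empty] at he
    rw [he] at hcard
    have : 0 < ∏ r, Nat.card (W r) ^ Fintype.card (κ r) :=
      prod_pos fun r _ => pow_pos Nat.card_pos _
    simp only [Nat.card_of_isEmpty] at hcard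
    omega
  obtain ⟨X0, hX0⟩ := hSne
  obtain ⟨M, hB, hO, hc, hmem⟩ := coset_m D S (by
    rintro X ⟨j, hj, rfl⟩ Y ⟨j', hj', rfl⟩
    exact hu j' hj' j) hcard X0 hX0
  have hperp := (iso_m D M hB).2 hc
  have he3 : ∀ r s, ∀ m ∈ M, ee (D r) s (zet (w r) (w' r) s) (X0 r + m r) + U r s = 0 := by
    intro r s m hm
    have h3 : X0 + m ∈ S := by
      rw [hmem, add_sub_cancel_left]
      exact hm
    obtain ⟨j, hj, hjX⟩ := h3
    have h4 := hee j hj r s
    have h5 : lab (w r) (w' r) j = X0 r + m r := congrFun hjX r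
    rw [h5] at h4
    exact h4
  have he0 : ∀ r s, ee (D r) s (zet (w r) (w' r) s) (X0 r) + U r s = 0 := by
    intro r s
    have := he3 r s 0 M.zero_mem
    rwa [Pi.zero_apply, add_zero] at this
  have hdd : ∀ r s, ∀ m ∈ M, ∀ m' ∈ M,
      Hb (ev (D r) ((D r).t s) (m r)) (ev (D r) ((D r).t s) (m' r)) = 0 := by
    intro r s m hm m' hm'
    refine ee_diff (D r) s (zet (w r) (w' r) s) (U r s) (X0 r) (m r) (m' r) (he0 r s)
      (he3 r s m hm) (he3 r s m' hm') ?_
    have h3 := he3 r s (m + m') (M.add_mem hm hm')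
    rw [Pi.add_apply, ← add_assoc] at h3
    exact h3
  have hdir := fun r => dir_m hG M hB hc hdd r
  choose Λ p1 p2 p3 p4 p5 using hdir
  have hth := fun r => exists_theta (Λ r) (p2 r)
  choose θ hθ hθ0 using hth
  -- the coordinates at the bad primes
  have hz : ∀ r s, zet (w r) (w' r) s - ev (D r) ((D r).t s) (X0 r) - θ r ∈ Λ r := by
    intro r s
    apply p1
    intro v hv
    obtain ⟨m, hm, rfl⟩ := p5 r s v hv
    rw [Hb_sub_left, hθ r _ hv, ee_exp s (zet (w r) (w' r) s) (U r s) (X0 r) (m r) (he0 r s)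
      (he3 r s m hm), sub_self]
  -- all labels
  have hlab : ∀ i, labm w w' i - X0 ∈ M := by
    intro i
    have h3 : ∀ m ∈ M, Qm D (labm w w' i - X0 - m) = 0 := by
      intro m hm
      have h4 : X0 + m ∈ S := by
        rw [hmem, add_sub_cancel_left]
        exact hm
      obtain ⟨j, hj, hjX⟩ := h4
      have := hu j hj i
      rw [hjX] at this
      rwa [sub_sub]
    have h4 : Qm D (labm w w' i - X0) = 0 := by
      have := h3 0 M.zero_mem
      rwa [sub_zero] at this
    apply hperp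
    intro m hm
    have h5 := h3 m hm
    rw [Qm_sub, h4, hO m hm, zero_add, zero_sub] at h5
    exact neg_eq_zero.1 h5
  -- components
  have hcomp : ∀ X ∈ M, ∀ r, (Pi.single r (X r) : Lb W κ) ∈ M := by
    intro X hX r
    obtain ⟨N, b, b', -, hrep⟩ := exp_tens (κ := κ r) (D r)
    have h3 : (Pi.single r (X r) : Lb W κ) =
        ∑ i, (Pi.single r (tens (b' i) (ev (D r) (b i) (X r))) : Lb W κ) := by
      have h4 : (LinearMap.single (ZMod ℓ) (fun r => κ r → W r × W r) r)
          (∑ i, tens (b' i) (ev (D r) (b i) (X r))) =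
          ∑ i, (LinearMap.single (ZMod ℓ) (fun r => κ r → W r × W r) r)
          (tens (b' i) (ev (D r) (b i) (X r))) := map_sum _ _ _
      rw [← hrep (X r)] at h4
      exact h4
    rw [h3]
    exact M.sum_mem fun i _ => p3 r _ _ (ev_all (hG r) (Λ r) (X r) (p4 r X hX) _)
  -- the base point
  have hX0M : X0 ∈ M := by
    have h0 : X0 = ∑ r, (Pi.single r (X0 r) : Lb W κ) := by
      rw [Finset.univ_sum_single]
    rw [h0]
    refine M.sum_mem fun r _ => ?_
    obtain ⟨u, hu'⟩ := hN r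
    have h3 := dg_tup (D r) d (w r) (w' r) (hw r) (hw' r)
    have h4 := h4_tup (D r) (X0 r)
    have hθz : ∑ s, (D r).e s • tens ((D r).t s) (θ r) = 0 := by
      by_cases h2 : ℓ = 2
      · have h5 : ∑ s, (D r).e s • tens ((D r).t s) (θ r) =
            tens (∑ s, (D r).e s • (D r).t s) (θ r) := by
          funext a
          rw [Finset.sum_apply]
          apply Prod.ext
          · rw [Prod.fst_sum]
            simp only [tens, Pi.smul_apply, Prod.smul_fst, smul_sum]
            exact sum_congr rfl fun s _ => smul_comm _ _ _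
          · rw [Prod.snd_sum]
            simp only [tens, Pi.smul_apply, Prod.smul_snd, smul_sum]
            exact sum_congr rfl fun s _ => smul_comm _ _ _
        rw [h5, (hG r).two h2, tens_zero_left]
      · rw [hθ0 r h2]
        apply sum_eq_zero
        intro s _
        rw [← tensL_apply, map_zero, smul_zero]
    have h5 : ∑ i, d i • lab (w r) (w' r) i = (∑ i, d i) • X0 r +
        ∑ i, d i • (labm w w' i - X0) r := by
      rw [sum_smul, ← sum_add_distrib]
      refine sum_congr rfl fun i _ => ?_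
      rw [← smul_add, Pi.sub_apply, add_sub_cancel]
      rfl
    have h6 : ∑ s, (D r).e s • tens ((D r).t s) (zet (w r) (w' r) s) = (D r).N • X0 r +
        ∑ s, (D r).e s • tens ((D r).t s)
          (zet (w r) (w' r) s - ev (D r) ((D r).t s) (X0 r) - θ r) := by
      rw [← h4, ← sum_add_distrib]
      have h7 : ∑ s, (D r).e s • tens ((D r).t s) (zet (w r) (w' r) s) =
          ∑ s, (D r).e s • tens ((D r).t s) (zet (w r) (w' r) s) -
          ∑ s, (D r).e s • tens ((D r).t s) (θ r) := by rw [hθz, sub_zero]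
      rw [h7, ← sum_sub_distrib]
      refine sum_congr rfl fun s _ => ?_
      rw [← smul_add, ← smul_sub]
      congr 1
      rw [← tensL_apply, ← tensL_apply, ← tensL_apply, ← tensL_apply, ← map_sub, ← map_add]
      congr 1
      abel
    have h7 : (u : ZMod ℓ) • X0 r = - (∑ i, d i • (labm w w' i - X0) r +
        ∑ s, (D r).e s • tens ((D r).t s)
          (zet (w r) (w' r) s - ev (D r) ((D r).t s) (X0 r) - θ r)) := by
      rw [hu', add_smul, eq_neg_iff_add_eq_zero, ← h3, h5, h6]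
      abel
    have h8 : (Pi.single r ((u : ZMod ℓ) • X0 r) : Lb W κ) ∈ M := by
      rw [h7]
      have h9 : (LinearMap.single (ZMod ℓ) (fun r => κ r → W r × W r) r)
          (- (∑ i, d i • (labm w w' i - X0) r +
        ∑ s, (D r).e s • tens ((D r).t s)
          (zet (w r) (w' r) s - ev (D r) ((D r).t s) (X0 r) - θ r))) ∈ M := by
        rw [map_neg, map_add, map_sum, map_sum]
        refine M.neg_mem (M.add_mem (M.sum_mem fun i _ => ?_) (M.sum_mem fun s _ => ?_))
        · rw [map_smul]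
          exact M.smul_mem _ (hcomp _ (hlab i) r)
        · rw [map_smul]
          exact M.smul_mem _ (p3 r _ _ (hz r s))
      exact h9
    have h9 := M.smul_mem (↑u⁻¹ : ZMod ℓ) h8
    rwa [← Pi.single_smul, smul_smul, Units.inv_mul, one_smul] at h9
  have hlabM : ∀ i, labm w w' i ∈ M := by
    intro i
    have := M.add_mem (hlab i) hX0M
    rwa [sub_add_cancel] at this
  have hzL : ∀ s, zet (w r) (w' r) s - θ r ∈ Λ r := by
    intro s
    have := (Λ r).add_mem (hz r s) (p4 r _ hX0M s)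
    have h3 : zet (w r) (w' r) s - ev (D r) ((D r).t s) (X0 r) - θ r +
        ev (D r) ((D r).t s) (X0 r) = zet (w r) (w' r) s - θ r := by abel
    rwa [h3] at this
  have hU : U r = 0 := by
    funext s
    have h3 := he0 r s
    have h4 := p4 r _ hX0M s
    have h5 := p2 r _ (hzL s) _ h4
    rw [Hb_sub_left, hθ r _ h4] at h5
    rw [ee, h5, zero_add] at h3
    exact h3
  refine ⟨?_, hU⟩
  refine end_m (D := D r) (w r) (w' r) (hli r) (Λ r) (θ r) (p1 r) (p2 r) (hθ r) ?_ ?_
  · exact dual_all (hG r) (Λ r) (θ r) (w r) (w' r) (fun i s => p4 r _ (hlabM i) s) hzL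
  · intro v hv
    obtain ⟨s0⟩ := (hG r).nonempty
    obtain ⟨m, hm, hmv⟩ := p5 r s0 v hv
    have h3 : m ∈ S := by
      rw [hmem]
      exact M.sub_mem hm hX0M
    obtain ⟨j, -, hj⟩ := h3
    have h4 : lab (w r) (w' r) j = m r := congrFun hj r
    refine ⟨{ toFun := fun v => (D r).om (v.1 j) ((D r).t s0)
              map_add' := fun x y => by
                rw [Prod.fst_add, Pi.add_apply, map_add, LinearMap.add_apply]
              map_smul' := fun c x => by
                rw [Prod.smul_fst, Pi.smul_apply, map_smul, LinearMap.smul_apply]; rfl }, ?_⟩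
    rw [← hmv, ← h4]
    have h5 : (D r).om ((wz : V ℓ (W r) ι (τ r)).1 j) ((D r).t s0) = 0 := by
      show (D r).om 0 _ = 0
      rw [map_zero, LinearMap.zero_apply]
    show (fun a => (_, _)) - (D r).om ((wz : V ℓ (W r) ι (τ r)).1 j) ((D r).t s0) • θ r = _
    rw [h5, zero_smul, sub_zero]
    rfl

end main

end Pool.Agent.Q269.MF
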