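import Pool.Agent.Q269.MF.Lv
import Pool.Agent.Y164.SZ.Cla

/-!
# Several families at the same time: odd primes
-/

set_option autoImplicit false
set_option linter.all false

namespace Pool.Agent.Q269.MF

open Finset Polynomial Filter Topology
open Pool.Agent.Y164.SZ
open Pool.Agent.Y164.PS (Sf mem_Sf Fam)
open Pool.Agent.Y261.SZ (nb_lower)
open scoped Classical

/-- the inequality in the other direction -/
theorem bon_up {l : ℝ} (hl : 1 < l) {K : ℕ} (hK : Even K) (r : ℕ) :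
    (if r = 0 then (1 : ℝ) else 0) ≤
    ∑ j ∈ range (K + 1), (-1) ^ j * l ^ (j * (j - 1) / 2) * (∏ i ∈ range j, (l ^ r - l ^ i)) /
      ∏ i ∈ range j, (l ^ j - l ^ i) := by
  rw [bon_id hl]
  split_ifs with h
  · rw [h, pow_zero]
    apply ge_of_eq
    apply prod_eq_one
    intro i _
    exact div_self (pow_sub_one_pos hl i).ne'
  · by_cases hr : r ≤ K
    · apply ge_of_eq
      apply prod_eq_zero (i := r - 1) (mem_range.2 (by omega))
      rw [Nat.sub_add_cancel (by omega), sub_self, zero_div]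
    · have h1 : ∏ i ∈ range K, (l ^ (i + 1) - l ^ r) / (l ^ (i + 1) - 1) =
          (-1) ^ K * ∏ i ∈ range K, (l ^ r - l ^ (i + 1)) / (l ^ (i + 1) - 1) := by
        rw [← card_range K, ← prod_const, card_range, ← prod_mul_distrib]
        exact prod_congr rfl fun i _ => by ring
      rw [h1, hK.neg_one_pow, one_mul]
      apply prod_nonneg
      intro i hi
      rw [mem_range] at hi
      apply div_nonneg _ (pow_sub_one_pos hl i).le
      rw [sub_nonneg]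
      exact pow_le_pow_right₀ hl.le (by omega)

section ker
variable {ℓ : ℕ} [hp : Fact ℓ.Prime] {W : Type} [AddCommGroup W] [Module (ZMod ℓ) W] [Fintype W]
variable {ι τ : Type} [Fintype ι] [Fintype τ]

/-- the coefficients -/
noncomputable def uo (ℓ : ℕ) (j : ℕ) : ℝ := (-1) ^ j * ((ℓ : ℝ) ^ (j * (j - 1) / 2) /
      ∏ i ∈ range j, ((ℓ : ℝ) ^ j - (ℓ : ℝ) ^ i))

/-- the upper bound -/
theorem bon_ker_up (D : FDat ℓ W τ) (A : ι → ι → ZMod ℓ) (B : ι → τ → ZMod ℓ) (d : ι → ZMod ℓ)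
    {K : ℕ} (hK : Even K) :
    (if Triv D A B d then (1 : ℝ) else 0) ≤
      ∑ j ∈ range (K + 1), uo ℓ j * (kLI D A B d j : ℝ) := by
  have hl : (1 : ℝ) < ℓ := by exact_mod_cast hp.out.one_lt
  have h1 := bon_up hl hK (Module.finrank (ZMod ℓ) (KerP D A B d))
  have hP : (Nat.card (KerP D A B d) : ℝ) =
      (ℓ : ℝ) ^ (Module.finrank (ZMod ℓ) (KerP D A B d)) := by
    rw [card_pow (ℓ := ℓ) (KerP D A B d)]
    push_cast
    rfl
  have h2 : ∑ j ∈ range (K + 1), uo ℓ j * (kLI D A B d j : ℝ) =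
      ∑ j ∈ range (K + 1), (-1) ^ j * (ℓ : ℝ) ^ (j * (j - 1) / 2) *
        (∏ i ∈ range j, ((ℓ : ℝ) ^ (Module.finrank (ZMod ℓ) (KerP D A B d)) - (ℓ : ℝ) ^ i)) /
        ∏ i ∈ range j, ((ℓ : ℝ) ^ j - (ℓ : ℝ) ^ i) := by
    refine sum_congr rfl fun j _ => ?_
    rw [uo, kLI_eq, hP]
    ring
  rw [h2]
  refine le_trans ?_ h1
  by_cases h3 : Module.finrank (ZMod ℓ) (KerP D A B d) = 0
  · rw [if_pos h3]
    split_ifs <;> norm_num
  · rw [if_neg h3, if_neg]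
    intro h4
    apply h3
    rw [Submodule.finrank_eq_zero, eq_bot_iff]
    intro w hw
    rw [Submodule.mem_bot]
    exact h4 w hw.1 hw.2

theorem san_odd (D : FDat ℓ W τ) {K : ℕ} (hK : Odd K) :
    San (fun j => if j ≤ K then uo ℓ j else 0) (uo ℓ) (K + 1) D := by
  intro ι _ A B d _ _
  constructor
  · refine le_trans (le_of_eq ?_) (bon_ker D A B d hK)
    simp only
    rw [sum_range_succ, if_neg (by omega), zero_mul, add_zero]
    refine sum_congr rfl fun j hj => ?_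
    rw [if_pos (by have := mem_range.1 hj; omega)]
    rfl
  · exact bon_ker_up D A B d hK.add_one

end ker

theorem uo_AS {ℓ : ℕ} [Fact ℓ.Prime] (h2 : ℓ ≠ 2) (j : ℕ) : uo ℓ j * ((AS ℓ j).card : ℝ) =
    (-1) ^ j * (ℓ : ℝ) ^ (j * (j - 1)) / ∏ i ∈ range j, ((ℓ : ℝ) ^ j - (ℓ : ℝ) ^ i) := by
  have h7 : (ℓ : ℝ) ^ (j * (j - 1)) =
      (ℓ : ℝ) ^ (j * (j - 1) / 2) * (ℓ : ℝ) ^ (j * (j - 1) / 2) := by
    rw [← pow_add]
    congr 1
    have := Nat.even_mul_pred_self j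
    obtain ⟨r, hr⟩ := this
    omega
  rw [card_AS ℓ h2, h7, uo]
  push_cast
  ring

theorem sum_uo {ℓ : ℕ} [Fact ℓ.Prime] (h2 : ℓ ≠ 2) (K : ℕ) :
    ∑ j ∈ range (K + 1), uo ℓ j * ((AS ℓ j).card : ℝ) = cK ℓ K := by
  rw [cK]
  exact sum_congr rfl fun j _ => uo_AS h2 j

/-- the coefficients of the lower bound -/
noncomputable def lo (ℓ K : ℕ) (j : ℕ) : ℝ := if j ≤ K then uo ℓ j else 0

theorem sum_lo {ℓ : ℕ} [Fact ℓ.Prime] (h2 : ℓ ≠ 2) (K : ℕ) :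
    ∑ j ∈ range (K + 1 + 1), lo ℓ K j * ((AS ℓ j).card : ℝ) = cK ℓ K := by
  rw [sum_range_succ, lo, if_neg (by omega), zero_mul, add_zero, ← sum_uo h2 K]
  refine sum_congr rfl fun j hj => ?_
  rw [lo, if_pos (by have := mem_range.1 hj; omega)]

theorem AS_zero (ℓ : ℕ) [Fact ℓ.Prime] (h2 : ℓ ≠ 2) : ((AS ℓ 0).card : ℝ) = 1 := by
  rw [card_AS ℓ h2]
  simp

section wt
variable {R : Type} [Fintype R] [DecidableEq R]

/-- the weight of a set -/
noncomputable def wt (α : ℝ) (S : Finset R) : ℝ := ∏ r : R, (if r ∈ S then α else 1 - α)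

theorem wt_eq (α : ℝ) (S : Finset R) :
    wt α S = α ^ S.card * (1 - α) ^ (Fintype.card R - S.card) := by
  rw [wt, prod_ite, prod_const, prod_const]
  have h2 : (univ.filter fun i => i ∈ S) = S := by
    ext i; simp
  have h3 : (univ.filter fun i => ¬ i ∈ S).card = Fintype.card R - S.card := by
    have h4 : (univ.filter fun i => ¬ i ∈ S) = Sᶜ := by ext i; simp
    rw [h4, card_compl]
  rw [h2, h3]

/-- the constants -/
noncomputable def cS (ℓ K : ℕ) (S : Finset R) : ℝ :=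
  ∏ r : R, (if r ∈ S then cK ℓ (K + 1) else 1 - cK ℓ K) -
    ∑ r : R, ((if r ∈ S then cK ℓ (K + 1) else 1 - cK ℓ K) -
      (if r ∈ S then cK ℓ K else 1 - cK ℓ (K + 1))) *
      ∏ r' ∈ univ.erase r, (if r' ∈ S then cK ℓ (K + 1) else 1 - cK ℓ K)

theorem cS_tendsto {ℓ : ℕ} (hℓ : 2 ≤ ℓ) (S : Finset R) :
    Tendsto (fun K => cS ℓ K S) atTop
      (𝓝 (wt (∏' i : ℕ, (1 + ((ℓ : ℝ)⁻¹) ^ (i + 1))⁻¹) S)) := by
  obtain ⟨h1, -⟩ := Pool.Agent.Y515.SZ.t ℓ hℓ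
  set α := ∏' i : ℕ, (1 + ((ℓ : ℝ)⁻¹) ^ (i + 1))⁻¹ with hα
  have h2 : Tendsto (fun K => cK ℓ (K + 1)) atTop (𝓝 α) := h1.comp (tendsto_add_atTop_nat 1)
  have e1 : ∀ r : R, Tendsto (fun K => (if r ∈ S then cK ℓ (K + 1) else 1 - cK ℓ K)) atTop
      (𝓝 (if r ∈ S then α else 1 - α)) := by
    intro r
    split_ifs
    · exact h2
    · exact h1.const_sub 1
  have e2 : ∀ r : R, Tendsto (fun K => (if r ∈ S then cK ℓ K else 1 - cK ℓ (K + 1))) atTop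
      (𝓝 (if r ∈ S then α else 1 - α)) := by
    intro r
    split_ifs
    · exact h1
    · exact h2.const_sub 1
  have e3 := (tendsto_finsetProd (univ : Finset R) fun r _ => e1 r).sub
    (tendsto_finsetSum (univ : Finset R) fun r _ => ((e1 r).sub (e2 r)).mul
      (tendsto_finsetProd (univ.erase r) fun r' _ => e1 r'))
  have e4 : ∏ r : R, (if r ∈ S then α else 1 - α) -
      ∑ r : R, ((if r ∈ S then α else 1 - α) - (if r ∈ S then α else 1 - α)) *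
        ∏ r' ∈ univ.erase r, (if r' ∈ S then α else 1 - α) = wt α S := by
    simp only [sub_self, zero_mul, sum_const_zero, sub_zero]
    rfl
  rw [e4] at e3
  exact e3

theorem cUL_eq {ℓ : ℕ} [Fact ℓ.Prime] (h2 : ℓ ≠ 2) (K : ℕ) (S : Finset R) :
    cUL ℓ (K + 1) (fun r => if r ∈ S then lo ℓ K else cmp (uo ℓ))
      (fun r => if r ∈ S then uo ℓ else cmp (lo ℓ K)) = cS ℓ K S := by
  have e1 : ∀ r : R, ∑ j ∈ range (K + 1 + 1), (if r ∈ S then uo ℓ else cmp (lo ℓ K)) j *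
      ((AS ℓ j).card : ℝ) = (if r ∈ S then cK ℓ (K + 1) else 1 - cK ℓ K) := by
    intro r
    split_ifs
    · exact sum_uo h2 (K + 1)
    · rw [sum_cmp _ (fun j => ((AS ℓ j).card : ℝ)) (AS_zero ℓ h2), sum_lo h2]
  have e2 : ∀ r : R, ∑ j ∈ range (K + 1 + 1), (if r ∈ S then lo ℓ K else cmp (uo ℓ)) j *
      ((AS ℓ j).card : ℝ) = (if r ∈ S then cK ℓ K else 1 - cK ℓ (K + 1)) := by
    intro r
    split_ifs
    · exact sum_lo h2 K
    · rw [sum_cmp _ (fun j => ((AS ℓ j).card : ℝ)) (AS_zero ℓ h2), sum_uo h2]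
  rw [cUL, cS]
  simp only [e1, e2]

end wt

section geo
variable {ℓ : ℕ} [hℓ : Fact ℓ.Prime] {k : Type} [Field k] [Fintype k] [DecidableEq k]
variable {R : Type} {n : R → ℕ} {a : (r : R) → Fin (n r) → k[X]} {N : R → ℕ}
  (H : ∀ r, Geo ℓ (a r) (N r))

/-- all the nodes -/
def QA (a : (r : R) → Fin (n r) → k[X]) (x : Σ r, Tau (a r)) : k[X] := QQ (a x.1) x.2

/-- the data of a class -/
noncomputable def datM (σ : (Σ r, Tau (a r)) → ZMod ℓ) (r : R) :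
    FDat ℓ (SW ℓ (n r)) (Tau (a r)) := (H r).dat fun s => σ ⟨r, s⟩

include H in
theorem QA_fam (hcop : ∀ r r', r ≠ r' → IsCoprime (Pool.Agent.Y164.SZ.Del (a r))
    (Pool.Agent.Y164.SZ.Del (a r'))) : Fam (QA a) where
  mon := fun x => (H x.1).fam.mon x.2
  irr := fun x => (H x.1).fam.irr x.2
  inj := by
    rintro ⟨r, s⟩ ⟨r', s'⟩ h
    have h' : s.1 = s'.1 := h
    by_cases hr : r = r'
    · subst hr
      have : s = s' := Subtype.ext h'
      rw [this]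
    · exfalso
      have h1 := ((H r).mem.1 s.2).2
      have h2 := ((H r').mem.1 s'.2).2
      rw [← h'] at h2
      exact h1.1.not_isUnit ((hcop r r' hr).isUnit_of_dvd' h1.2 h2.2)

theorem Fam_res {ι : Type} {τ : R → Type} {T : ι → k[X]} {Q : (Σ r, τ r) → k[X]}
    (h : Fam (Sum.elim T Q)) (r : R) : Fam (Sum.elim T (Qr Q r)) where
  mon := by
    rintro (i | s)
    · exact h.mon (Sum.inl i)
    · exact h.mon (Sum.inr ⟨r, s⟩)
  irr := by
    rintro (i | s)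
    · exact h.irr (Sum.inl i)
    · exact h.irr (Sum.inr ⟨r, s⟩)
  inj := by
    rintro (i | s) (j | s') hij
    · have := h.inj (a₁ := Sum.inl i) (a₂ := Sum.inl j) hij
      rw [Sum.inl_injective this]
    · have := h.inj (a₁ := Sum.inl i) (a₂ := Sum.inr ⟨r, s'⟩) hij
      cases this
    · have := h.inj (a₁ := Sum.inr ⟨r, s⟩) (a₂ := Sum.inl j) hij
      cases this
    · have := h.inj (a₁ := Sum.inr ⟨r, s⟩) (a₂ := Sum.inr ⟨r, s'⟩) hij
      have h1 := Sum.inr_injective this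
      have h2 : s = s' := by
        simpa using h1
      rw [h2]

end geo

/-- the good twists -/
def twm {k : Type} [Field k] {R : Type} {n : R → ℕ} (a : (r : R) → Fin (n r) → k[X]) (m : ℕ) :
    Set k[X] :=
  {E | E.Monic ∧ E.natDegree = m ∧ Squarefree E ∧ ∀ r i j, i ≠ j → IsCoprime E (a r i - a r j)}

theorem nbm_iff {ℓ : ℕ} [Fact ℓ.Prime] {k : Type} [Field k] [Fintype k] [DecidableEq k] {R : Type}
    {n : R → ℕ} {a : (r : R) → Fin (n r) → k[X]} {N : R → ℕ} (H : ∀ r, Geo ℓ (a r) (N r))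
    {E : k[X]} (hE : E.Monic) :
    nb (QA a) E ↔ ∀ r i j, i ≠ j → IsCoprime E (a r i - a r j) := by
  constructor
  · intro h r
    exact (nb_iff (H r) hE).1 fun s => h ⟨r, s⟩
  · intro h x
    exact (nb_iff (H x.1) hE).2 (h x.1) x.2

/-- the set of the families for which the conclusion holds belongs to `𝒜` -/
def GoodM {k : Type} [Field k] (ℓ : ℕ) (K : Type) [Field K] [Algebra k[X] K]
    [IsFractionRing k[X] K] {R : Type} [Fintype R] {n : R → ℕ} (a : (r : R) → Fin (n r) → k[X])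
    (𝒜 : Finset (Finset R)) (E : k[X]) : Prop := (univ.filter fun r => Good ℓ K (a r) E) ∈ 𝒜

/-- the final form for odd primes -/
theorem final_odd (hCRIT : S_CRIT) (hCOMB : S_COMB) {ℓ : ℕ} (hℓ : ℓ.Prime) (hl2 : ℓ ≠ 2)
    {k : Type} [Field k] [Finite k]
    (h2 : (2 : k) ≠ 0) (hlk : ℓ ∣ Nat.card k - 1)
    (K : Type) [Field K] [Algebra k[X] K] [IsFractionRing k[X] K] {R : Type} [Fintype R]
    {n : R → ℕ} (hn : ∀ r, ¬ ℓ ∣ n r) (hn3 : ∀ r, 3 ≤ n r) (N : R → ℕ) (hN : ∀ r, 1 ≤ N r)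
    (a : (r : R) → Fin (n r) → k[X])
    (hdeg : ∀ r i j, i ≠ j → (a r i - a r j).natDegree = N r)
    (hsq : ∀ r, Squarefree (Pool.Agent.Y164.HG.Del (a r)))
    (hcop : ∀ r r', r ≠ r' → IsCoprime (Pool.Agent.Y164.HG.Del (a r))
      (Pool.Agent.Y164.HG.Del (a r'))) :
    (∃ c : ℝ, 0 < c ∧ ∀ᶠ m : ℕ in atTop, c * (Nat.card k : ℝ) ^ m ≤ ((twm a m).ncard : ℝ)) ∧
    ∀ 𝒜 : Finset (Finset R), (∀ S ∈ 𝒜, ∀ S', S ⊆ S' → S' ∈ 𝒜) →
    ∀ ε : ℝ, 0 < ε → ∀ᶠ m : ℕ in atTop, (∀ r, ¬ ℓ ∣ m + n r * N r) →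
      (∑ S ∈ 𝒜, (∏' i : ℕ, (1 + ((ℓ : ℝ)⁻¹) ^ (i + 1))⁻¹) ^ S.card *
        (1 - ∏' i : ℕ, (1 + ((ℓ : ℝ)⁻¹) ^ (i + 1))⁻¹) ^ (Fintype.card R - S.card) - ε) *
          ((twm a m).ncard : ℝ) ≤ (({E ∈ twm a m | GoodM ℓ K a 𝒜 E}).ncard : ℝ) := by
  haveI : Fact ℓ.Prime := ⟨hℓ⟩
  letI : Fintype k := Fintype.ofFinite k
  have hchar : ringChar k ≠ 2 := by
    intro h
    apply h2
    have := ringChar.Nat.cast_ringChar (R := k)
    rw [h] at this
    exact_mod_cast this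
  have hcard : Nat.card k = Fintype.card k := Nat.card_eq_fintype_card
  rw [hcard] at hlk
  have hl3 : 3 ≤ ℓ := by
    have := hℓ.two_le
    omega
  have hq1 : 1 < Fintype.card k := Fintype.one_lt_card
  have hq : 4 ≤ Fintype.card k := by
    have := Nat.le_of_dvd (by omega) hlk
    omega
  have hlk0 : ((ℓ : ℕ) : k) ≠ 0 := by
    intro h
    obtain ⟨r, hr⟩ := hlk
    have h1 : ((Fintype.card k - 1 : ℕ) : k) = 0 := by rw [hr, Nat.cast_mul, h, zero_mul]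
    rw [Nat.cast_sub hq1.le, FiniteField.cast_card_eq_zero, Nat.cast_one, zero_sub] at h1
    exact one_ne_zero (neg_eq_zero.1 h1)
  obtain ⟨ζ, hζ⟩ : ∃ ζ : k, IsPrimitiveRoot ζ ℓ := by
    obtain ⟨g, hg⟩ := IsCyclic.exists_generator (α := kˣ)
    have ho : orderOf g = Fintype.card k - 1 := by
      rw [orderOf_eq_card_of_forall_mem_zpowers hg, Nat.card_eq_fintype_card, Fintype.card_units]
    obtain ⟨r, hr⟩ := hlk
    have hr0 : 0 < Fintype.card k - 1 := by omega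
    have h1 : IsPrimitiveRoot g (Fintype.card k - 1) := ho ▸ IsPrimitiveRoot.orderOf g
    have h3 : IsPrimitiveRoot (g ^ r) ℓ := by
      exact h1.pow hr0 (by rw [hr, mul_comm])
    exact ⟨((g ^ r : kˣ) : k), IsPrimitiveRoot.coe_units_iff.2 h3⟩
  have S : SYM0 ℓ k := Pool.Agent.Y37.SZ.t ℓ k hl2 hlk
  have S' : SYM ℓ k := ⟨S, Pool.Agent.Y287.SZ.Chr.t ℓ k hl2 hlk hchar S⟩
  have H : ∀ r, Geo ℓ (a r) (N r) := fun r =>
    ⟨S, hCOMB, hl2, hlk0, hn r, hn3 r, hN r, hdeg r, hsq r⟩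
  have hF : Fam (QA a) := QA_fam H hcop
  have hcN : (Nat.card k : ℝ) = (Fintype.card k : ℝ) := by rw [hcard]
  have e1 : ∀ m, (twm a m).ncard = ((Sf k m).filter (nb (QA a))).card := by
    intro m
    rw [← Set.ncard_coe_finset]
    congr 1
    ext E
    rw [Finset.mem_coe, mem_filter, mem_Sf]
    show (_ ∧ _ ∧ _ ∧ _) ↔ _
    constructor
    · rintro ⟨a1, a2, a3, a4⟩
      exact ⟨⟨a1, a2, a3⟩, (nbm_iff H a1).2 a4⟩
    · rintro ⟨⟨a1, a2, a3⟩, a4⟩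
      exact ⟨a1, a2, a3, (nbm_iff H a1).1 a4⟩
  constructor
  · obtain ⟨c, hc, h⟩ := nb_lower hF hchar hq
    refine ⟨c, hc, ?_⟩
    filter_upwards [h] with m hm
    rw [e1, hcN]
    exact hm
  intro 𝒜 hup ε hε
  have e2 : ∀ m, ((Sf k m).filter (fun E => nb (QA a) E ∧ GoodM ℓ K a 𝒜 E)).card ≤
      ({E ∈ twm a m | GoodM ℓ K a 𝒜 E}).ncard := by
    intro m
    rw [← Set.ncard_coe_finset]
    apply Set.ncard_le_ncard
    · intro E hE
      rw [Finset.mem_coe, mem_filter, mem_Sf] at hE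
      obtain ⟨⟨a1, a2, a3⟩, a4, a5⟩ := hE
      exact ⟨⟨a1, a2, a3, (nbm_iff H a1).1 a4⟩, a5⟩
    · apply Set.Finite.subset (Finset.finite_toSet (Sf k m))
      rintro E ⟨⟨a1, a2, a3, -⟩, -⟩
      exact mem_Sf.2 ⟨a1, a2, a3⟩
  obtain ⟨α, hα⟩ : ∃ α : ℝ, α = ∏' i : ℕ, (1 + ((ℓ : ℝ)⁻¹) ^ (i + 1))⁻¹ := ⟨_, rfl⟩
  rw [← hα]
  have e3 : ∑ S ∈ 𝒜, α ^ S.card * (1 - α) ^ (Fintype.card R - S.card) = ∑ S ∈ 𝒜, wt α S :=
    sum_congr rfl fun S _ => (wt_eq α S).symm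
  rw [e3]
  obtain ⟨Kk, hKo, hK⟩ : ∃ Kk : ℕ, Odd Kk ∧
      ∑ S ∈ 𝒜, wt α S - ε / 2 ≤ ∑ S ∈ 𝒜, cS ℓ Kk S := by
    have h3 : Tendsto (fun K => ∑ S ∈ 𝒜, cS ℓ K S) atTop (𝓝 (∑ S ∈ 𝒜, wt α S)) := by
      apply tendsto_finsetSum
      intro S _
      rw [hα]
      exact cS_tendsto (ℓ := ℓ) (by omega) S
    obtain ⟨K0, hK0⟩ := eventually_atTop.1 (h3.eventually_const_le
      (show ∑ S ∈ 𝒜, wt α S - ε / 2 < ∑ S ∈ 𝒜, wt α S by linarith))
    exact ⟨2 * K0 + 1, ⟨K0, rfl⟩, hK0 _ (by omega)⟩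
  have hcell : ∀ σ : (Σ r, Tau (a r)) → ZMod ℓ, ∀ δ : ℝ, 0 < δ →
      CellA (QA a) σ (gM (datM H 0)) (fun x => ∀ r, IsUnit (x + ((n r : ZMod ℓ) * (N r : ZMod ℓ))))
        (PU (datM H σ) (QA a) 𝒜) (∑ S ∈ 𝒜, cS ℓ Kk S - δ) := by
    intro σ δ hδ
    have h3 := cell_u (datM H σ) (Q := QA a) (K := Kk + 1)
      (l := fun S r => if r ∈ S then lo ℓ Kk else cmp (uo ℓ))
      (u := fun S r => if r ∈ S then uo ℓ else cmp (lo ℓ Kk)) (fun r =>
        card_W_ge ((H r).conn (fun s => σ ⟨r, s⟩))) (fun r => by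
        have hc := (H r).conn (fun s => σ ⟨r, s⟩)
        exact { nd := hc.nd, nb := fun s => ⟨s, hc.ne s⟩, conn := hc.conn,
                nonempty := hc.nonempty, two := fun h => absurd h hl2 })
      (fun _ ι _ d h => absurd h hl2) (fun S r => by
        have h4 : San (lo ℓ Kk) (uo ℓ) (Kk + 1) (datM H σ r) := san_odd _ hKo
        by_cases h5 : r ∈ S
        · rw [if_pos h5, if_pos h5]
          exact h4.pos h5
        · rw [if_neg h5, if_neg h5]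
          exact h4.neg h5) 𝒜 hδ
    simp only [cUL_eq hl2] at h3
    exact h3
  have himp : ∀ σ : (Σ r, Tau (a r)) → ZMod ℓ, ImpA (QA a) σ (gM (datM H 0))
      (fun x => ∀ r, IsUnit (x + ((n r : ZMod ℓ) * (N r : ZMod ℓ))))
      (PU (datM H σ) (QA a) 𝒜) (GoodM ℓ K a 𝒜) := by
    intro σ ι _ T hR hcl hU hP
    have hP' : (univ.filter fun r => Triv (datM H σ r) (AT ℓ T) (BT ℓ (Qr (QA a) r) T)
      (fun i => ((T i).natDegree : ZMod ℓ))) ∈ 𝒜 := hP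
    refine hup _ hP' _ ?_
    intro r hr
    rw [mem_filter] at hr ⊢
    exact ⟨mem_univ _, imp_good (H r) hCRIT hζ (fun s => σ ⟨r, s⟩) ι T (Fam_res hR r)
      (fun s => hcl ⟨r, s⟩) (hU r) hr.2⟩
  have hmain := main_c S' hF hchar hq (U := fun x => ∀ r, IsUnit (x +
    ((n r : ZMod ℓ) * (N r : ZMod ℓ)))) (PP := fun σ => PU (datM H σ) (QA a) 𝒜) himp
    (∑ S ∈ 𝒜, cS ℓ Kk S) hcell (ε / 2) (by linarith)
  filter_upwards [hmain] with m hm ho
  have h3 : ∀ r, IsUnit ((m : ZMod ℓ) + (n r : ZMod ℓ) * (N r : ZMod ℓ)) := by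
    intro r
    rw [isUnit_iff_ne_zero]
    intro h
    apply ho r
    rw [← ZMod.natCast_eq_zero_iff]
    push_cast
    exact h
  have h4 := (hm h3).trans (show _ ≤ (({E ∈ twm a m | GoodM ℓ K a 𝒜 E}).ncard : ℝ) by
    exact_mod_cast e2 m)
  rw [e1]
  refine le_trans ?_ h4
  apply mul_le_mul_of_nonneg_right _ (Nat.cast_nonneg _)
  linarith

end Pool.Agent.Q269.MF
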