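import Pool.Agent.Q269.MF.Av

/-!
# Several families at the same time: the moments
-/

set_option autoImplicit false
set_option linter.all false

namespace Pool.Agent.Q269.MF

open Finset Polynomial
open Pool.Agent.Y164.SZ
open scoped Classical

variable {ℓ : ℕ} [hp : Fact ℓ.Prime] {k : Type} [Field k] [Fintype k] [DecidableEq k]
variable {R : Type} [Fintype R] [DecidableEq R] {W : R → Type}
  [∀ r, AddCommGroup (W r)] [∀ r, Module (ZMod ℓ) (W r)] [∀ r, Fintype (W r)]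
variable {τ : R → Type} [∀ r, Fintype (τ r)] (D : (r : R) → FDat ℓ (W r) (τ r))
variable {ι : Type} [Fintype ι]
variable {Q : (Σ r, τ r) → k[X]} {d : ι → ZMod ℓ} {𝒞 : ι → Finset k[X]} {lg : Finset ι}
  {Nd : ℕ} {η : ℝ}

/-- the number of main configurations -/
noncomputable def MM (D : (r : R) → FDat ℓ (W r) (τ r)) (d : ι → ZMod ℓ) (m : R → ℕ) : ℝ :=
  ∏ r, (((Pool.Agent.Y164.SZ.Om (D r) d (m r)).filter Mp).card : ℝ)

/-- the hypothesis for the prime `2` -/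
def Dg (D : (r : R) → FDat ℓ (W r) (τ r)) (Q : (Σ r, τ r) → k[X]) (d : ι → ZMod ℓ) : Prop :=
  ℓ = 2 → ∀ r, ∀ T : ι → k[X], ∀ w : V ℓ (W r) ι (τ r), dg (D r) d w = 0 →
    FF (D r) (AT ℓ T) (BT ℓ (Qr Q r) T) d w w = FF (D r) (AT ℓ T) (BT ℓ (Qr Q r) T) d w wz

theorem SSm_eq (S : SYM0 ℓ k) (m : R → ℕ) :
    ((SSm D Q d 𝒞 m * (VV D d m * (ℓ : ℝ) ^ Fintype.card (Σ r, τ r)) : ℝ) : ℂ) =
    ∑ c ∈ OM D d m, ∑ T ∈ Fintype.piFinset 𝒞, (if ok Q T then eC (PhM D Q d T c) else 0) := by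
  rw [sum_comm, SSm, sum_mul, Complex.ofReal_sum]
  refine sum_congr rfl fun T _ => ?_
  by_cases h1 : ok Q T
  swap
  · rw [if_neg (fun h => h1 h.1)]
    simp only [if_neg h1, sum_const_zero, Complex.ofReal_zero, zero_mul]
  simp only [if_pos h1]
  have e1 : (if ok Q T ∧ clM D Q T then
      ∏ r, (kLI (D r) (AT ℓ T) (BT ℓ (Qr Q r) T) d (m r) : ℝ) else 0) =
      ∏ r, (if cl (D r) (Qr Q r) T then (kLI (D r) (AT ℓ T) (BT ℓ (Qr Q r) T) d (m r) : ℝ)
        else 0) := by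
    by_cases h2 : clM D Q T
    · rw [if_pos ⟨h1, h2⟩]
      exact prod_congr rfl fun r _ => (if_pos (h2 r)).symm
    · rw [if_neg (fun h => h2 h.2)]
      unfold clM at h2
      push Not at h2
      obtain ⟨r, hr⟩ := h2
      exact (prod_eq_zero (mem_univ r) (if_neg hr)).symm
  have e2 : VV D d m * (ℓ : ℝ) ^ Fintype.card (Σ r, τ r) =
      ∏ r, (((V0s (D r) d : Finset (V ℓ (W r) ι (τ r))).card : ℝ) ^ m r *
        (ℓ : ℝ) ^ Fintype.card (τ r)) := by
    rw [prod_mul_distrib, VV, Fintype.card_sigma, prod_pow_eq_pow_sum]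
  have e3 : ∀ c : CM ℓ W ι τ m, eC (PhM D Q d T c) = ∏ r, eC (Ph (D r) (Qr Q r) d T (c r)) := by
    intro c
    rw [PhM, eC_sum]
  rw [e1, e2, ← prod_mul_distrib, Complex.ofReal_prod, sum_congr rfl fun c _ => e3 c, OM,
    ← Finset.prod_univ_sum (fun r => Pool.Agent.Y164.SZ.Om (D r) d (m r))
      (fun r c => eC (Ph (D r) (Qr Q r) d T c))]
  refine prod_congr rfl fun r _ => ?_
  rw [← orth_T S (D r) (Qr Q r) d T (m r)]
  push_cast
  rfl

theorem card_MM (m : R → ℕ) :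
    (((OM D d m).filter fun c : CM ℓ W ι τ m => ∀ r, Mp (c r)).card : ℝ) = MM D d m := by
  have h1 : (OM D d m).filter (fun c : CM ℓ W ι τ m => ∀ r, Mp (c r)) =
      Fintype.piFinset (fun r => (Pool.Agent.Y164.SZ.Om (D r) d (m r)).filter Mp) := by
    ext c
    rw [mem_filter, OM, Fintype.mem_piFinset, Fintype.mem_piFinset]
    constructor
    · rintro ⟨h1, h2⟩ r
      exact mem_filter.2 ⟨h1 r, h2 r⟩
    · intro h
      exact ⟨fun r => (mem_filter.1 (h r)).1, fun r => (mem_filter.1 (h r)).2⟩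
  rw [h1, Fintype.card_piFinset, MM]
  push_cast
  rfl

theorem card_OM_le (m : R → ℕ) : ((OM D d m : Finset (CM ℓ W ι τ m)).card : ℝ) ≤
    VV D d m ^ 2 * (ℓ : ℝ) ^ Fintype.card (Σ r, τ r) := by
  have h1 : ∀ r, ((Pool.Agent.Y164.SZ.Om (D r) d (m r) :
      Finset (CF ℓ (W r) ι (τ r) (m r))).card : ℝ) ≤
      (((V0s (D r) d : Finset (V ℓ (W r) ι (τ r))).card : ℝ) ^ m r) ^ 2 *
        (ℓ : ℝ) ^ Fintype.card (τ r) := by
    intro r
    have h3 : (Pool.Agent.Y164.SZ.Om (D r) d (m r)).card ≤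
        (Fintype.piFinset (fun _ : Fin (m r) => V0s (D r) d) ×ˢ
        (Fintype.piFinset (fun _ : Fin (m r) => V0s (D r) d) ×ˢ
          (univ : Finset (τ r → ZMod ℓ)))).card := by
      apply card_le_card
      rintro ⟨w, w', U⟩ h
      obtain ⟨-, ⟨h4, -⟩, h5⟩ := mem_filter.1 h
      rw [mem_product, mem_product, Fintype.mem_piFinset, Fintype.mem_piFinset]
      exact ⟨fun a => (mem_V0s (D r) d).2 (h4 a), fun a => (mem_V0s (D r) d).2 (h5 a), mem_univ _⟩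
    rw [card_product, card_product, Fintype.card_piFinset, prod_const, card_univ, Fintype.card_fin,
      card_univ, Fintype.card_fun, ZMod.card] at h3
    have h4 : ((Pool.Agent.Y164.SZ.Om (D r) d (m r)).card : ℝ) ≤
        ((V0s (D r) d).card : ℝ) ^ (m r) * (((V0s (D r) d).card : ℝ) ^ (m r) *
        (ℓ : ℝ) ^ Fintype.card (τ r)) := by exact_mod_cast h3
    refine h4.trans (le_of_eq ?_)
    ring
  rw [OM, Fintype.card_piFinset, Nat.cast_prod]
  refine (prod_le_prod (fun r _ => Nat.cast_nonneg _) fun r _ => h1 r).trans (le_of_eq ?_)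
  rw [prod_mul_distrib, VV, Fintype.card_sigma, prod_pow_eq_pow_sum, prod_pow]

variable (hc : Cell ℓ Q 𝒞 lg Nd η)

include hc in
theorem SSm_le (hN : ∀ r, IsUnit (∑ i, d i + (D r).N)) (hG : ∀ r, CN (D r)) (hD : Dg D Q d)
    (m : R → ℕ) :
    |SSm D Q d 𝒞 m * (VV D d m * (ℓ : ℝ) ^ Fintype.card (Σ r, τ r)) - MM D d m * OK Q 𝒞| ≤
    (Fintype.piFinset 𝒞).card * ((FM ℓ W τ lg m : Finset (CM ℓ W ι τ m)).card +
      η * (VV D d m ^ 2 * (ℓ : ℝ) ^ Fintype.card (Σ r, τ r))) := by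
  obtain ⟨f, hf⟩ : ∃ f : CM ℓ W ι τ m → ℂ, f = fun c => ∑ T ∈ Fintype.piFinset 𝒞,
    (if ok Q T then eC (PhM D Q d T c) else 0) := ⟨_, rfl⟩
  have e0 : ((SSm D Q d 𝒞 m * (VV D d m * (ℓ : ℝ) ^ Fintype.card (Σ r, τ r)) : ℝ) : ℂ) =
      ∑ c ∈ OM D d m, f c := by rw [hf]; exact SSm_eq D hc.S m
  have e1 : ∀ c ∈ (OM D d m).filter (fun c : CM ℓ W ι τ m => ∀ r, Mp (c r)),
      f c = ((OK Q 𝒞 : ℝ) : ℂ) := by
    intro c hcm
    obtain ⟨hc1, hc2⟩ := mem_filter.1 hcm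
    rw [OM, Fintype.mem_piFinset] at hc1
    rw [hf, OK, Complex.ofReal_sum]
    refine sum_congr rfl fun T _ => ?_
    have h0 : PhM D Q d T c = 0 := by
      rw [PhM]
      apply sum_eq_zero
      intro r _
      exact Ph_Mp hc.S (D r) (Qr Q r) d T (fun h2 w hw => hD h2 r T w hw) (c r)
        ((mem_filter.1 (hc1 r)).2.1.1) (hc2 r)
    rw [h0, eC_zero]
    split_ifs
    · rw [Complex.ofReal_one]
    · rw [Complex.ofReal_zero]
  have e2 : ∑ c ∈ OM D d m, f c = ((MM D d m * OK Q 𝒞 : ℝ) : ℂ) +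
      ∑ c ∈ (OM D d m).filter (fun c => ¬ ∀ r, Mp (c r)), f c := by
    rw [← sum_filter_add_sum_filter_not (OM D d m) (fun c => ∀ r, Mp (c r)), sum_congr rfl e1,
      sum_const]
    congr 1
    rw [nsmul_eq_mul, ← card_MM D m]
    push_cast
    ring
  have e3 : ∀ c ∈ (OM D d m).filter (fun c => ¬ ∀ r, Mp (c r)), ‖f c‖ ≤
      (if c ∈ (FM ℓ W τ lg m : Finset (CM ℓ W ι τ m)) then ((Fintype.piFinset 𝒞).card : ℝ) else 0) +
        η * (Fintype.piFinset 𝒞).card := by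
    intro c hcm
    obtain ⟨h3, h4⟩ := mem_filter.1 hcm
    have h0 : 0 ≤ η * (Fintype.piFinset 𝒞).card := mul_nonneg hc.eta0 (Nat.cast_nonneg _)
    by_cases hb : ∀ i ∈ lg, ¬ Bd D c i
    · have h5 := (cover_m D d hN hG lg c h3 hb).resolve_left h4
      rw [if_pos h5]
      have := norm_m_le D (Q := Q) (d := d) (𝒞 := 𝒞) c
      rw [hf]
      show ‖∑ T ∈ Fintype.piFinset 𝒞, (if ok Q T then eC (PhM D Q d T c) else 0)‖ ≤ _
      linarith
    · push Not at hb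
      obtain ⟨i, hi, hb⟩ := hb
      have := outer_m D (d := d) hc c hi hb
      have h6 : (0 : ℝ) ≤ (if c ∈ (FM ℓ W τ lg m : Finset (CM ℓ W ι τ m)) then
        ((Fintype.piFinset 𝒞).card : ℝ) else 0) := by
        split_ifs
        · exact Nat.cast_nonneg _
        · exact le_rfl
      rw [hf]
      show ‖∑ T ∈ Fintype.piFinset 𝒞, (if ok Q T then eC (PhM D Q d T c) else 0)‖ ≤ _
      linarith
  have e4 : ‖∑ c ∈ (OM D d m).filter (fun c => ¬ ∀ r, Mp (c r)), f c‖ ≤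
      (FM ℓ W τ lg m : Finset (CM ℓ W ι τ m)).card * ((Fintype.piFinset 𝒞).card : ℝ) +
      (OM D d m).card * (η * (Fintype.piFinset 𝒞).card) := by
    refine (norm_sum_le _ _).trans ((sum_le_sum e3).trans ?_)
    rw [sum_add_distrib, sum_const, nsmul_eq_mul, sum_ite_mem, sum_const, nsmul_eq_mul]
    have h3 : ((((OM D d m).filter (fun c => ¬ ∀ r, Mp (c r))) ∩
        (FM ℓ W τ lg m : Finset (CM ℓ W ι τ m))).card : ℝ) ≤
        (FM ℓ W τ lg m : Finset (CM ℓ W ι τ m)).card := by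
      exact_mod_cast card_le_card inter_subset_right
    have h4 : (((OM D d m).filter (fun c => ¬ ∀ r, Mp (c r))).card : ℝ) ≤ (OM D d m).card := by
      exact_mod_cast card_filter_le _ _
    apply add_le_add
    · exact mul_le_mul_of_nonneg_right h3 (Nat.cast_nonneg _)
    · exact mul_le_mul_of_nonneg_right h4 (mul_nonneg hc.eta0 (Nat.cast_nonneg _))
  have e6 : ‖(((SSm D Q d 𝒞 m * (VV D d m * (ℓ : ℝ) ^ Fintype.card (Σ r, τ r)) -
      MM D d m * OK Q 𝒞 : ℝ)) : ℂ)‖ ≤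
      (FM ℓ W τ lg m : Finset (CM ℓ W ι τ m)).card * ((Fintype.piFinset 𝒞).card : ℝ) +
      (OM D d m).card * (η * (Fintype.piFinset 𝒞).card) := by
    refine le_trans (le_of_eq ?_) e4
    congr 1
    rw [Complex.ofReal_sub, e0, e2, add_sub_cancel_left]
  rw [Complex.norm_real, Real.norm_eq_abs] at e6
  refine e6.trans ?_
  have h3 := mul_le_mul_of_nonneg_right (card_OM_le D (d := d) m)
    (mul_nonneg hc.eta0 (Nat.cast_nonneg (Fintype.piFinset 𝒞).card))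
  linarith

end Pool.Agent.Q269.MF
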